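import Mathlib

/-!
# De Palma-Trevisan cost, its separable version, and the modified quantities
(definitions for `MP_9a8b60_mp`)
-/

open Matrix
open scoped Kronecker ComplexOrder

namespace Pool.Agent.R841.DPT

/-- A state (density matrix): positive semidefinite with trace one. -/
def IsState {ι : Type} [Fintype ι] (ρ : Matrix ι ι ℂ) : Prop :=
  ρ.PosSemidef ∧ ρ.trace = 1

/-- Reduced matrix on the first tensor factor. -/
def red1 {d : ℕ} (τ : Matrix (Fin d × Fin d) (Fin d × Fin d) ℂ) :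
    Matrix (Fin d) (Fin d) ℂ :=
  Matrix.of fun i j => ∑ a, τ (i, a) (j, a)

/-- Reduced matrix on the second tensor factor. -/
def red2 {d : ℕ} (τ : Matrix (Fin d × Fin d) (Fin d × Fin d) ℂ) :
    Matrix (Fin d) (Fin d) ℂ :=
  Matrix.of fun a b => ∑ i, τ (i, a) (i, b)

/-- Couplings of `ρ` and `σ`: states on the tensor square. For `sw = false` the reduced state of
the first factor is `ρᵀ` and that of the second factor is `σ`; for `sw = true` the roles of the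
two factors are exchanged (the other reading of the partial trace convention). -/
def IsCoupling {d : ℕ} (sw : Bool) (ρ σ : Matrix (Fin d) (Fin d) ℂ)
    (τ : Matrix (Fin d × Fin d) (Fin d × Fin d) ℂ) : Prop :=
  IsState τ ∧
    (if sw then red2 τ = ρᵀ ∧ red1 τ = σ else red1 τ = ρᵀ ∧ red2 τ = σ)

/-- Transport cost of a coupling:
`(1/2) ∑ n, tr [τ (Hₙᵀ ⊗ 1 - 1 ⊗ Hₙ)²]` (a real number). -/
noncomputable def cost {d N : ℕ} (H : Fin N → Matrix (Fin d) (Fin d) ℂ)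
    (τ : Matrix (Fin d × Fin d) (Fin d × Fin d) ℂ) : ℝ :=
  1 / 2 * ∑ n, ((τ * ((H n)ᵀ ⊗ₖ (1 : Matrix (Fin d) (Fin d) ℂ)
    - (1 : Matrix (Fin d) (Fin d) ℂ) ⊗ₖ (H n)) ^ 2).trace).re

/-- The squared De Palma-Trevisan distance `W(ρ, σ)`. -/
noncomputable def W {d N : ℕ} (sw : Bool) (H : Fin N → Matrix (Fin d) (Fin d) ℂ)
    (ρ σ : Matrix (Fin d) (Fin d) ℂ) : ℝ :=
  sInf {c | ∃ τ, IsCoupling sw ρ σ τ ∧ c = cost H τ}

/-- The modified quantity `W̃(ρ, σ) = W(ρ, σ) - (W(ρ, ρ) + W(σ, σ)) / 2`. -/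
noncomputable def Wmod {d N : ℕ} (sw : Bool) (H : Fin N → Matrix (Fin d) (Fin d) ℂ)
    (ρ σ : Matrix (Fin d) (Fin d) ℂ) : ℝ :=
  W sw H ρ σ - 1 / 2 * (W sw H ρ ρ + W sw H σ σ)

/-- The rank one projection `|Ψ⟩⟨Ψ|`. -/
def proj {d : ℕ} (Ψ : Fin d → ℂ) : Matrix (Fin d) (Fin d) ℂ :=
  vecMulVec Ψ (star Ψ)

/-- The separable version `W_sep(ρ, σ)`: infimum of `∑ k, p k * W(Ψ k, Φ k)` over finite families
of weights and pairs of unit vectors decomposing `ρ` and `σ`. -/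
noncomputable def Wsep {d N : ℕ} (sw : Bool) (H : Fin N → Matrix (Fin d) (Fin d) ℂ)
    (ρ σ : Matrix (Fin d) (Fin d) ℂ) : ℝ :=
  sInf {c | ∃ (m : ℕ) (p : Fin m → ℝ) (Ψ Φ : Fin m → Fin d → ℂ),
    (∀ k, 0 < p k) ∧ ∑ k, p k = 1 ∧
    (∀ k, star (Ψ k) ⬝ᵥ Ψ k = 1) ∧ (∀ k, star (Φ k) ⬝ᵥ Φ k = 1) ∧
    ∑ k, (p k : ℂ) • proj (Ψ k) = ρ ∧ ∑ k, (p k : ℂ) • proj (Φ k) = σ ∧
    c = ∑ k, p k * W sw H (proj (Ψ k)) (proj (Φ k))}

/-- The modified separable quantity. -/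
noncomputable def WsepMod {d N : ℕ} (sw : Bool) (H : Fin N → Matrix (Fin d) (Fin d) ℂ)
    (ρ σ : Matrix (Fin d) (Fin d) ℂ) : ℝ :=
  Wsep sw H ρ σ - 1 / 2 * (Wsep sw H ρ ρ + Wsep sw H σ σ)

end Pool.Agent.R841.DPT
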