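import Pool.Agent.R841.DPTMain

open Matrix
open scoped Kronecker ComplexOrder

namespace Pool.Agent.R841.DPT

/-- Real expectation values of the two observables. -/
noncomputable def x0 (Ψ : Fin 4 → ℂ) : ℝ :=
  4 * ((Ψ 0).re * (Ψ 1).re + (Ψ 0).im * (Ψ 1).im)
    + 2 * ((Ψ 2).re * (Ψ 3).re + (Ψ 2).im * (Ψ 3).im)

noncomputable def x1 (Ψ : Fin 4 → ℂ) : ℝ :=
  ((Ψ 0).re ^ 2 + (Ψ 0).im ^ 2) - ((Ψ 1).re ^ 2 + (Ψ 1).im ^ 2)
    + 2 * ((Ψ 2).re ^ 2 + (Ψ 2).im ^ 2) - 2 * ((Ψ 3).re ^ 2 + (Ψ 3).im ^ 2)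

theorem E0 (Ψ : Fin 4 → ℂ) : (proj Ψ * Hex 0).trace = (x0 Ψ : ℂ) := by
  apply Complex.ext
  · rw [Complex.ofReal_re]
    simp [proj, trace, Matrix.mul_apply, Fin.sum_univ_four, Hex, vecMulVec_apply, x0]
    ring
  · rw [Complex.ofReal_im]
    simp [proj, trace, Matrix.mul_apply, Fin.sum_univ_four, Hex, vecMulVec_apply]
    ring

theorem E1 (Ψ : Fin 4 → ℂ) : (proj Ψ * Hex 1).trace = (x1 Ψ : ℂ) := by
  apply Complex.ext
  · rw [Complex.ofReal_re]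
    simp [proj, trace, Matrix.mul_apply, Fin.sum_univ_four, Hex, vecMulVec_apply, x1]
    ring
  · rw [Complex.ofReal_im]
    simp [proj, trace, Matrix.mul_apply, Fin.sum_univ_four, Hex, vecMulVec_apply]
    ring

theorem pc_eq {Ψ Φ : Fin 4 → ℂ} (hΨ : star Ψ ⬝ᵥ Ψ = 1) (hΦ : star Φ ⬝ᵥ Φ = 1) :
    pc Hex Ψ Φ = 5 - (x0 Ψ * x0 Φ + x1 Ψ * x1 Φ) := by
  rw [pc, half_sum (proj_trace hΨ) (proj_trace hΦ), Fin.sum_univ_two, E0, E0, E1, E1]
  simp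

theorem unit_iff (Ψ : Fin 4 → ℂ) (h : star Ψ ⬝ᵥ Ψ = 1) :
    (Ψ 0).re ^ 2 + (Ψ 0).im ^ 2 + ((Ψ 1).re ^ 2 + (Ψ 1).im ^ 2)
      + ((Ψ 2).re ^ 2 + (Ψ 2).im ^ 2) + ((Ψ 3).re ^ 2 + (Ψ 3).im ^ 2) = 1 := by
  have := congrArg Complex.re h
  simp [dotProduct, Fin.sum_univ_four] at this
  linarith

/-- The maximally entangled vector between the two blocks (unnormalised). -/
def ve : Fin 4 × Fin 4 → ℂ := fun p =>
  (!![0, 0, 1, 0; 0, 0, 0, 1; 0, 0, 0, 0; 0, 0, 0, 0] : Matrix (Fin 4) (Fin 4) ℂ) p.1 p.2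

noncomputable def tauE : Matrix (Fin 4 × Fin 4) (Fin 4 × Fin 4) ℂ :=
  (1/2 : ℂ) • vecMulVec ve (star ve)

theorem tauE_coupling : IsCoupling false rhoE sigE tauE := by
  refine ⟨⟨(posSemidef_vecMulVec_self_star ve).smul ?_, ?_⟩, ?_⟩
  · rw [Complex.le_def]; norm_num
  · rw [tauE, trace_smul, trace_vecMulVec]
    simp [dotProduct, Fintype.sum_prod_type, Fin.sum_univ_four, ve]
    norm_num
  · simp only [Bool.false_eq_true, if_false]
    constructor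
    · ext i j
      fin_cases i <;> fin_cases j <;>
        simp [red1, tauE, vecMulVec_apply, Fin.sum_univ_four, ve, rhoE]
    · ext i j
      fin_cases i <;> fin_cases j <;>
        simp [red2, tauE, vecMulVec_apply, Fin.sum_univ_four, ve, sigE]

theorem corrE (n : Fin 2) : (tauE * ((Hex n)ᵀ ⊗ₖ Hex n)).trace = 2 := by
  rw [tauE, Matrix.smul_mul, vecMulVec_mul, trace_smul, trace_vecMulVec]
  fin_cases n
  · simp [dotProduct, vecMul, Fintype.sum_prod_type, Fin.sum_univ_four, ve, Hex]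
    norm_num
  · simp [dotProduct, vecMul, Fintype.sum_prod_type, Fin.sum_univ_four, ve, Hex]
    norm_num

theorem W_le_one : W false Hex rhoE sigE ≤ 1 := by
  refine (W_le false Hex_herm tauE_coupling).trans ?_
  rw [cost_eq Hex tauE_coupling, half_sum rhoE_state.2 sigE_state.2, Fin.sum_univ_two,
    corrE, corrE]
  norm_num

theorem bddBelow_Wsep (sw : Bool) (ρ σ : Matrix (Fin 4) (Fin 4) ℂ) :
    BddBelow {c | ∃ (m : ℕ) (p : Fin m → ℝ) (Ψ Φ : Fin m → Fin 4 → ℂ),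
    (∀ k, 0 < p k) ∧ ∑ k, p k = 1 ∧
    (∀ k, star (Ψ k) ⬝ᵥ Ψ k = 1) ∧ (∀ k, star (Φ k) ⬝ᵥ Φ k = 1) ∧
    ∑ k, (p k : ℂ) • proj (Ψ k) = ρ ∧ ∑ k, (p k : ℂ) • proj (Φ k) = σ ∧
    c = ∑ k, p k * W sw Hex (proj (Ψ k)) (proj (Φ k))} := by
  refine ⟨0, ?_⟩
  rintro c ⟨m, p, Ψ, Φ, hp, -, -, -, -, -, rfl⟩
  exact Finset.sum_nonneg fun k _ => mul_nonneg (hp k).le (W_nonneg sw Hex_herm _ _)

/-- A decomposition of `rhoE`. -/
noncomputable def PsiE : Fin 2 → Fin 4 → ℂ := ![![3/5, 4/5, 0, 0], ![4/5, -3/5, 0, 0]]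

noncomputable def PhiE : Fin 2 → Fin 4 → ℂ := ![![0, 0, 1, 0], ![0, 0, 0, 1]]

theorem PsiE_unit (k : Fin 2) : star (PsiE k) ⬝ᵥ PsiE k = 1 := by
  fin_cases k <;> simp [PsiE, dotProduct, Fin.sum_univ_four, map_ofNat] <;> norm_num

theorem PhiE_unit (k : Fin 2) : star (PhiE k) ⬝ᵥ PhiE k = 1 := by
  fin_cases k <;> simp [PhiE, dotProduct, Fin.sum_univ_four]

theorem PsiE_sum : ∑ k, (((fun _ => 1/2 : Fin 2 → ℝ) k : ℝ) : ℂ) • proj (PsiE k) = rhoE := by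
  ext i j
  rw [Fin.sum_univ_two, Matrix.add_apply, Matrix.smul_apply, Matrix.smul_apply]
  simp only [proj, vecMulVec_apply, Pi.star_apply]
  fin_cases i <;> fin_cases j <;>
    simp [PsiE, rhoE] <;> norm_num

theorem PhiE_sum : ∑ k, (((fun _ => 1/2 : Fin 2 → ℝ) k : ℝ) : ℂ) • proj (PhiE k) = sigE := by
  ext i j
  rw [Fin.sum_univ_two, Matrix.add_apply, Matrix.smul_apply, Matrix.smul_apply]
  simp only [proj, vecMulVec_apply, Pi.star_apply]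
  fin_cases i <;> fin_cases j <;>
    simp [PhiE, sigE]

theorem Wsep_rho_le : Wsep false Hex rhoE rhoE ≤ 3/2 := by
  refine (csInf_le (bddBelow_Wsep false rhoE rhoE)
    ⟨2, fun _ => 1/2, PsiE, PsiE, fun _ => by norm_num, by norm_num, PsiE_unit, PsiE_unit,
      PsiE_sum, PsiE_sum, rfl⟩).trans ?_
  rw [Fin.sum_univ_two, W_pure Hex (PsiE_unit 0) (PsiE_unit 0),
    W_pure Hex (PsiE_unit 1) (PsiE_unit 1), pc_eq (PsiE_unit 0) (PsiE_unit 0),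
    pc_eq (PsiE_unit 1) (PsiE_unit 1)]
  simp [x0, x1, PsiE]
  norm_num

theorem Wsep_sig_le : Wsep false Hex sigE sigE ≤ 1 := by
  refine (csInf_le (bddBelow_Wsep false sigE sigE)
    ⟨2, fun _ => 1/2, PhiE, PhiE, fun _ => by norm_num, by norm_num, PhiE_unit, PhiE_unit,
      PhiE_sum, PhiE_sum, rfl⟩).trans ?_
  rw [Fin.sum_univ_two, W_pure Hex (PhiE_unit 0) (PhiE_unit 0),
    W_pure Hex (PhiE_unit 1) (PhiE_unit 1), pc_eq (PhiE_unit 0) (PhiE_unit 0),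
    pc_eq (PhiE_unit 1) (PhiE_unit 1)]
  simp [x0, x1, PhiE]
  norm_num

/-- In a decomposition of `ρ`, a coordinate with `ρ i i = 0` vanishes for all vectors. -/
theorem coord_zero {m : ℕ} {p : Fin m → ℝ} {Ψ : Fin m → Fin 4 → ℂ}
    {ρ : Matrix (Fin 4) (Fin 4) ℂ} (hp : ∀ k, 0 < p k)
    (h : ∑ k, (p k : ℂ) • proj (Ψ k) = ρ) {i : Fin 4} (hi : ρ i i = 0) (k : Fin m) :
    Ψ k i = 0 := by
  have h1 : ∑ k, p k * ((Ψ k i).re ^ 2 + (Ψ k i).im ^ 2) = 0 := by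
    have := congrArg Complex.re (congrFun (congrFun h i) i)
    rw [hi, Matrix.sum_apply, Complex.re_sum] at this
    simp [proj, vecMulVec_apply] at this
    rw [← this]
    refine Finset.sum_congr rfl fun k _ => ?_
    ring
  have h2 := (Finset.sum_eq_zero_iff_of_nonneg (fun k _ => by
    have := hp k
    positivity)).1 h1 k (Finset.mem_univ k)
  have h3 : (Ψ k i).re ^ 2 + (Ψ k i).im ^ 2 = 0 := by
    rcases mul_eq_zero.1 h2 with h | h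
    · exact absurd h (hp k).ne'
    · exact h
  apply Complex.ext
  · simp; nlinarith [sq_nonneg (Ψ k i).re, sq_nonneg (Ψ k i).im]
  · simp; nlinarith [sq_nonneg (Ψ k i).re, sq_nonneg (Ψ k i).im]

theorem corr_le {Ψ Φ : Fin 4 → ℂ} (hΨ : star Ψ ⬝ᵥ Ψ = 1) (hΦ : star Φ ⬝ᵥ Φ = 1)
    (h2 : Ψ 2 = 0) (h3 : Ψ 3 = 0) (h0 : Φ 0 = 0) (h1 : Φ 1 = 0) :
    x0 Ψ * x0 Φ + x1 Ψ * x1 Φ ≤ 2 := by
  have u := unit_iff Ψ hΨ
  have v := unit_iff Φ hΦ
  simp only [h2, h3, h0, h1, Complex.zero_re, Complex.zero_im] at u v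
  simp only [x0, x1, h2, h3, h0, h1, Complex.zero_re, Complex.zero_im]
  set a := (Ψ 0).re
  set b := (Ψ 0).im
  set c := (Ψ 1).re
  set e := (Ψ 1).im
  set a' := (Φ 2).re
  set b' := (Φ 2).im
  set c' := (Φ 3).re
  set e' := (Φ 3).im
  have k1 : (2 * (a * c + b * e)) ^ 2 + (a ^ 2 + b ^ 2 - (c ^ 2 + e ^ 2)) ^ 2 ≤ 1 := by
    have : (a ^ 2 + b ^ 2 + (c ^ 2 + e ^ 2)) ^ 2 = 1 := by
      have : a ^ 2 + b ^ 2 + (c ^ 2 + e ^ 2) = 1 := by linarith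
      rw [this]; norm_num
    nlinarith [sq_nonneg (a * e - b * c)]
  have k2 : (2 * (a' * c' + b' * e')) ^ 2 + (a' ^ 2 + b' ^ 2 - (c' ^ 2 + e' ^ 2)) ^ 2 ≤ 1 := by
    have : (a' ^ 2 + b' ^ 2 + (c' ^ 2 + e' ^ 2)) ^ 2 = 1 := by
      have : a' ^ 2 + b' ^ 2 + (c' ^ 2 + e' ^ 2) = 1 := by linarith
      rw [this]; norm_num
    nlinarith [sq_nonneg (a' * e' - b' * c')]
  nlinarith [sq_nonneg (2 * (a * c + b * e) - 2 * (a' * c' + b' * e')),
    sq_nonneg ((a ^ 2 + b ^ 2 - (c ^ 2 + e ^ 2)) - (a' ^ 2 + b' ^ 2 - (c' ^ 2 + e' ^ 2)))]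

theorem three_le_Wsep : 3 ≤ Wsep false Hex rhoE sigE := by
  unfold Wsep
  apply le_csInf
  · exact ⟨_, 2, fun _ => 1/2, PsiE, PhiE, fun _ => by norm_num, by norm_num, PsiE_unit,
      PhiE_unit, PsiE_sum, PhiE_sum, rfl⟩
  · rintro c ⟨m, p, Ψ, Φ, hp, hp1, hΨ, hΦ, hρ, hσ, rfl⟩
    have key : ∀ k, 3 ≤ W false Hex (proj (Ψ k)) (proj (Φ k)) := by
      intro k
      rw [W_pure Hex (hΨ k) (hΦ k), pc_eq (hΨ k) (hΦ k)]
      have := corr_le (hΨ k) (hΦ k)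
        (coord_zero hp hρ (i := 2) (by simp [rhoE]) k)
        (coord_zero hp hρ (i := 3) (by simp [rhoE]) k)
        (coord_zero hp hσ (i := 0) (by simp [sigE]) k)
        (coord_zero hp hσ (i := 1) (by simp [sigE]) k)
      linarith
    calc (3 : ℝ) = ∑ k, p k * 3 := by rw [← Finset.sum_mul, hp1, one_mul]
      _ ≤ _ := Finset.sum_le_sum fun k _ => mul_le_mul_of_nonneg_left (key k) (hp k).le

theorem Wmod_le : Wmod false Hex rhoE sigE ≤ 1 := by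
  have h1 := W_le_one
  have h2 := W_nonneg false Hex_herm rhoE rhoE
  have h3 := W_nonneg false Hex_herm sigE sigE
  unfold Wmod
  linarith

theorem WsepMod_ge : 7/4 ≤ WsepMod false Hex rhoE sigE := by
  have h1 := three_le_Wsep
  have h2 := Wsep_rho_le
  have h3 := Wsep_sig_le
  unfold WsepMod
  linarith

theorem Wmod_swap : Wmod true Hex rhoE sigE = Wmod false Hex rhoE sigE := by
  unfold Wmod
  rw [W_swap Hex_symm]

theorem WsepMod_swap : WsepMod true Hex rhoE sigE = WsepMod false Hex rhoE sigE := by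
  unfold WsepMod Wsep
  rw [W_swap Hex_symm]

/-- For both readings of the partial trace convention the inequality fails. -/
theorem fails (sw : Bool) : Wmod sw Hex rhoE sigE < WsepMod sw Hex rhoE sigE := by
  have h1 := Wmod_le
  have h2 := WsepMod_ge
  cases sw
  · linarith
  · rw [Wmod_swap, WsepMod_swap]; linarith

end Pool.Agent.R841.DPT
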