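import Pool.Agent.R841.DPTDefs

open Matrix
open scoped Kronecker ComplexOrder

namespace Pool.Agent.R841.DPT

variable {d N : ℕ}

theorem trace_mul_kron_one (τ : Matrix (Fin d × Fin d) (Fin d × Fin d) ℂ)
    (A : Matrix (Fin d) (Fin d) ℂ) :
    (τ * (A ⊗ₖ (1 : Matrix (Fin d) (Fin d) ℂ))).trace = (red1 τ * A).trace := by
  simp only [Matrix.trace, Matrix.diag, Matrix.mul_apply, Fintype.sum_prod_type,
    kroneckerMap_apply, red1, Matrix.of_apply, Matrix.one_apply]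
  refine Finset.sum_congr rfl fun i _ => ?_
  rw [Finset.sum_comm]
  refine Finset.sum_congr rfl fun j _ => ?_
  rw [Finset.sum_mul]
  refine Finset.sum_congr rfl fun a _ => ?_
  simp

theorem trace_mul_one_kron (τ : Matrix (Fin d × Fin d) (Fin d × Fin d) ℂ)
    (B : Matrix (Fin d) (Fin d) ℂ) :
    (τ * ((1 : Matrix (Fin d) (Fin d) ℂ) ⊗ₖ B)).trace = (red2 τ * B).trace := by
  simp only [Matrix.trace, Matrix.diag, Matrix.mul_apply, Fintype.sum_prod_type,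
    kroneckerMap_apply, red2, Matrix.of_apply, Matrix.one_apply]
  rw [Finset.sum_comm]
  refine Finset.sum_congr rfl fun a _ => ?_
  have : ∀ i : Fin d, (∑ x, ∑ y, τ (i, a) (x, y) * ((if x = i then (1:ℂ) else 0) * B y a))
      = ∑ y, τ (i, a) (i, y) * B y a := by
    intro i
    rw [Finset.sum_comm]
    refine Finset.sum_congr rfl fun y _ => ?_
    simp
  rw [Finset.sum_congr rfl fun i _ => this i, Finset.sum_comm]
  refine Finset.sum_congr rfl fun y _ => ?_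
  rw [Finset.sum_mul]

theorem sq_diff (A B : Matrix (Fin d) (Fin d) ℂ) :
    (A ⊗ₖ (1 : Matrix (Fin d) (Fin d) ℂ) - (1 : Matrix (Fin d) (Fin d) ℂ) ⊗ₖ B) ^ 2
      = (A ^ 2) ⊗ₖ (1 : Matrix (Fin d) (Fin d) ℂ) + (1 : Matrix (Fin d) (Fin d) ℂ) ⊗ₖ (B ^ 2)
        - (A ⊗ₖ B + A ⊗ₖ B) := by
  rw [sq, sub_mul, mul_sub, mul_sub, ← mul_kronecker_mul, ← mul_kronecker_mul,
    ← mul_kronecker_mul, ← mul_kronecker_mul]
  simp only [one_mul, mul_one, sq]
  abel

/-- The cost of a coupling in terms of the correlations. -/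
theorem cost_eq (H : Fin N → Matrix (Fin d) (Fin d) ℂ) {ρ σ : Matrix (Fin d) (Fin d) ℂ}
    {τ : Matrix (Fin d × Fin d) (Fin d × Fin d) ℂ} (h : IsCoupling false ρ σ τ) :
    cost H τ = 1 / 2 * ∑ n, (((ρ * (H n) ^ 2).trace).re + ((σ * (H n) ^ 2).trace).re)
      - ∑ n, ((τ * ((H n)ᵀ ⊗ₖ H n)).trace).re := by
  have h1 : red1 τ = ρᵀ := by simpa [IsCoupling] using h.2.1
  have h2 : red2 τ = σ := by
    have := h.2
    simp at this
    exact this.2
  have key : ∀ n, ((τ * ((H n)ᵀ ⊗ₖ (1 : Matrix (Fin d) (Fin d) ℂ)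
      - (1 : Matrix (Fin d) (Fin d) ℂ) ⊗ₖ (H n)) ^ 2).trace).re
      = ((ρ * (H n) ^ 2).trace).re + ((σ * (H n) ^ 2).trace).re
        - 2 * ((τ * ((H n)ᵀ ⊗ₖ H n)).trace).re := by
    intro n
    rw [sq_diff, mul_sub, mul_add, mul_add, trace_sub, trace_add, trace_add,
      trace_mul_kron_one, trace_mul_one_kron, h1, h2]
    have : (ρᵀ * ((H n)ᵀ) ^ 2).trace = (ρ * (H n) ^ 2).trace := by
      rw [← Matrix.transpose_pow, ← Matrix.transpose_mul, Matrix.trace_transpose,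
        Matrix.trace_mul_comm]
    rw [this]
    simp only [Complex.add_re, Complex.sub_re]
    ring
  unfold cost
  rw [Finset.sum_congr rfl fun n _ => key n, Finset.sum_sub_distrib, ← Finset.mul_sum]
  ring

theorem cost_nonneg {H : Fin N → Matrix (Fin d) (Fin d) ℂ} (hH : ∀ n, (H n).IsHermitian)
    {τ : Matrix (Fin d × Fin d) (Fin d × Fin d) ℂ} (h : τ.PosSemidef) : 0 ≤ cost H τ := by
  unfold cost
  refine mul_nonneg (by norm_num) (Finset.sum_nonneg fun n _ => ?_)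
  set C := (H n)ᵀ ⊗ₖ (1 : Matrix (Fin d) (Fin d) ℂ)
    - (1 : Matrix (Fin d) (Fin d) ℂ) ⊗ₖ (H n) with hC
  have hCh : Cᴴ = C := by
    have h1 : ((H n)ᵀ)ᴴ = (H n)ᵀ := (hH n).transpose
    rw [hC, conjTranspose_sub, conjTranspose_kronecker, conjTranspose_kronecker, h1,
      conjTranspose_one, (hH n)]
  have h2 : (τ * C ^ 2).trace = (Cᴴ * τ * C).trace := by
    rw [hCh, sq, ← mul_assoc, Matrix.trace_mul_comm, ← mul_assoc]
  rw [h2]
  have h3 := (h.conjTranspose_mul_mul_same C).trace_nonneg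
  exact (Complex.le_def.1 h3).1

theorem W_nonneg (sw : Bool) {H : Fin N → Matrix (Fin d) (Fin d) ℂ}
    (hH : ∀ n, (H n).IsHermitian) (ρ σ : Matrix (Fin d) (Fin d) ℂ) : 0 ≤ W sw H ρ σ := by
  unfold W
  apply Real.sInf_nonneg
  rintro c ⟨τ, hτ, rfl⟩
  exact cost_nonneg hH hτ.1.1

theorem bddBelow_W (sw : Bool) {H : Fin N → Matrix (Fin d) (Fin d) ℂ}
    (hH : ∀ n, (H n).IsHermitian) (ρ σ : Matrix (Fin d) (Fin d) ℂ) :
    BddBelow {c | ∃ τ, IsCoupling sw ρ σ τ ∧ c = cost H τ} := by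
  refine ⟨0, ?_⟩
  rintro c ⟨τ, hτ, rfl⟩
  exact cost_nonneg hH hτ.1.1

theorem W_le (sw : Bool) {H : Fin N → Matrix (Fin d) (Fin d) ℂ}
    (hH : ∀ n, (H n).IsHermitian) {ρ σ : Matrix (Fin d) (Fin d) ℂ}
    {τ : Matrix (Fin d × Fin d) (Fin d × Fin d) ℂ} (h : IsCoupling sw ρ σ τ) :
    W sw H ρ σ ≤ cost H τ :=
  csInf_le (bddBelow_W sw hH ρ σ) ⟨τ, h, rfl⟩

/-- Purity: a coupling whose first reduced state is pure is a product. -/
theorem trace_pure {τ : Matrix (Fin d × Fin d) (Fin d × Fin d) ℂ} (h : τ.PosSemidef)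
    {w : Fin d → ℂ} (hw : star w ⬝ᵥ w = 1) (h1 : red1 τ = vecMulVec w (star w))
    (A B : Matrix (Fin d) (Fin d) ℂ) :
    (τ * (A ⊗ₖ B)).trace = (star w ⬝ᵥ (A *ᵥ w)) * (red2 τ * B).trace := by
  set P : Matrix (Fin d) (Fin d) ℂ := vecMulVec w (star w) with hP
  have hPP : P * P = P := by
    rw [hP, vecMulVec_mul_vecMulVec, hw, one_smul]
  have hPh : Pᴴ = P := by
    rw [hP, conjTranspose_vecMulVec, star_star]
  set Q : Matrix (Fin d × Fin d) (Fin d × Fin d) ℂ :=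
    (1 - P) ⊗ₖ (1 : Matrix (Fin d) (Fin d) ℂ) with hQ
  have hQh : Qᴴ = Q := by
    rw [hQ, conjTranspose_kronecker, conjTranspose_sub, conjTranspose_one, hPh]
  have hQQ : Q * Q = Q := by
    rw [hQ, ← mul_kronecker_mul]
    congr 1
    · rw [sub_mul, mul_sub, mul_sub, hPP]; simp
    · simp
  have hQt : (Qᴴ * τ * Q).trace = 0 := by
    rw [hQh, Matrix.trace_mul_comm, ← mul_assoc, hQQ, Matrix.trace_mul_comm, hQ,
      trace_mul_kron_one, h1, mul_sub, mul_one, hPP]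
    simp
  have hz : Qᴴ * τ * Q = 0 :=
    ((h.conjTranspose_mul_mul_same Q).trace_eq_zero_iff).1 hQt
  have hτQ : τ * Q = 0 := by
    have hv : ∀ x, (τ * Q) *ᵥ x = 0 := by
      intro x
      rw [← mulVec_mulVec]
      apply (h.dotProduct_mulVec_zero_iff (Q *ᵥ x)).1
      have : star (Q *ᵥ x) ⬝ᵥ τ *ᵥ (Q *ᵥ x) = star x ⬝ᵥ ((Qᴴ * τ * Q) *ᵥ x) := by
        rw [star_mulVec, ← dotProduct_mulVec, mulVec_mulVec, mulVec_mulVec]
      rw [this, hz]
      simp
    ext i j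
    have := congrFun (hv (Pi.single j 1)) i
    simpa using this
  have hQ' : Q = 1 - P ⊗ₖ (1 : Matrix (Fin d) (Fin d) ℂ) := by
    rw [hQ]
    ext ⟨i, a⟩ ⟨j, b⟩
    simp only [kroneckerMap_apply, Matrix.sub_apply, one_apply]
    by_cases hij : i = j <;> by_cases hab : a = b <;> simp [hij, hab]
  have hr : τ * (P ⊗ₖ (1 : Matrix (Fin d) (Fin d) ℂ)) = τ := by
    have := hτQ
    rw [hQ', mul_sub, mul_one, sub_eq_zero] at this
    exact this.symm
  have hl : (P ⊗ₖ (1 : Matrix (Fin d) (Fin d) ℂ)) * τ = τ := by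
    have := congrArg conjTranspose hr
    rw [conjTranspose_mul, conjTranspose_kronecker, hPh, conjTranspose_one, h.1.eq] at this
    exact this
  have hPA : P * A * P = (star w ⬝ᵥ (A *ᵥ w)) • P := by
    rw [hP, vecMulVec_mul, vecMulVec_mul_vecMulVec, ← dotProduct_mulVec, vecMulVec_smul]
  have e1 : (τ * (A ⊗ₖ B)).trace = (τ * ((P * A * P) ⊗ₖ B)).trace := by
    have : (P * A * P) ⊗ₖ B = (P ⊗ₖ (1 : Matrix (Fin d) (Fin d) ℂ)) * (A ⊗ₖ B) *
        (P ⊗ₖ (1 : Matrix (Fin d) (Fin d) ℂ)) := by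
      rw [← mul_kronecker_mul, ← mul_kronecker_mul, one_mul, mul_one]
    rw [this, ← mul_assoc, ← mul_assoc, hr, Matrix.trace_mul_comm (τ * (A ⊗ₖ B)), ← mul_assoc, hl]
  have e2 : (τ * (P ⊗ₖ B)).trace = (red2 τ * B).trace := by
    have : P ⊗ₖ B = (P ⊗ₖ (1 : Matrix (Fin d) (Fin d) ℂ)) *
        ((1 : Matrix (Fin d) (Fin d) ℂ) ⊗ₖ B) := by
      rw [← mul_kronecker_mul, one_mul, mul_one]
    rw [this, ← mul_assoc, hr, trace_mul_one_kron]
  rw [e1, hPA, smul_kronecker, Matrix.mul_smul, trace_smul, e2, smul_eq_mul]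

/-! ### Pure states -/

theorem proj_psd (Ψ : Fin d → ℂ) : (proj Ψ).PosSemidef := posSemidef_vecMulVec_self_star Ψ

theorem proj_trace {Ψ : Fin d → ℂ} (h : star Ψ ⬝ᵥ Ψ = 1) : (proj Ψ).trace = 1 := by
  rw [proj, trace_vecMulVec, dotProduct_comm, h]

/-- The cost between two pure states. -/
noncomputable def pc (H : Fin N → Matrix (Fin d) (Fin d) ℂ) (Ψ Φ : Fin d → ℂ) : ℝ :=
  1 / 2 * ∑ n, (((proj Ψ * (H n) ^ 2).trace).re + ((proj Φ * (H n) ^ 2).trace).re)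
    - ∑ n, ((proj Ψ * H n).trace * (proj Φ * H n).trace).re

theorem cost_pure (H : Fin N → Matrix (Fin d) (Fin d) ℂ) {Ψ Φ : Fin d → ℂ}
    (hΨ : star Ψ ⬝ᵥ Ψ = 1) {τ : Matrix (Fin d × Fin d) (Fin d × Fin d) ℂ}
    (h : IsCoupling false (proj Ψ) (proj Φ) τ) : cost H τ = pc H Ψ Φ := by
  rw [cost_eq H h, pc]
  congr 1
  refine Finset.sum_congr rfl fun n _ => ?_
  have h1 : red1 τ = vecMulVec (star Ψ) (star (star Ψ)) := by
    have := h.2
    simp at this
    rw [this.1, proj, transpose_vecMulVec, star_star]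
  have h2 : red2 τ = proj Φ := by
    have := h.2
    simp at this
    exact this.2
  have hw : star (star Ψ) ⬝ᵥ star Ψ = 1 := by
    rw [star_star, dotProduct_comm, hΨ]
  rw [trace_pure h.1.1 hw h1, h2]
  congr 2
  rw [proj, vecMulVec_mul, trace_vecMulVec, star_star, mulVec_transpose]

theorem prod_coupling {Ψ Φ : Fin d → ℂ} (hΨ : star Ψ ⬝ᵥ Ψ = 1) (hΦ : star Φ ⬝ᵥ Φ = 1) :
    IsCoupling false (proj Ψ) (proj Φ) ((proj Ψ)ᵀ ⊗ₖ proj Φ) := by
  refine ⟨⟨(proj_psd Ψ).transpose.kronecker (proj_psd Φ), ?_⟩, ?_⟩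
  · rw [trace_kronecker, trace_transpose, proj_trace hΨ, proj_trace hΦ, one_mul]
  · simp only [Bool.false_eq_true, if_false]
    constructor
    · ext i j
      simp only [red1, Matrix.of_apply, kroneckerMap_apply]
      rw [← Finset.mul_sum]
      have : ∑ a, proj Φ a a = 1 := proj_trace hΦ
      rw [this, mul_one]
    · ext a b
      simp only [red2, Matrix.of_apply, kroneckerMap_apply]
      rw [← Finset.sum_mul]
      have : ∑ a, (proj Ψ)ᵀ a a = 1 := by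
        have := proj_trace hΨ
        rw [← trace_transpose] at this
        exact this
      rw [this, one_mul]

theorem W_pure (H : Fin N → Matrix (Fin d) (Fin d) ℂ) {Ψ Φ : Fin d → ℂ}
    (hΨ : star Ψ ⬝ᵥ Ψ = 1) (hΦ : star Φ ⬝ᵥ Φ = 1) :
    W false H (proj Ψ) (proj Φ) = pc H Ψ Φ := by
  have : {c | ∃ τ, IsCoupling false (proj Ψ) (proj Φ) τ ∧ c = cost H τ} = {pc H Ψ Φ} := by
    ext c
    simp only [Set.mem_ofPred_eq, Set.mem_singleton_iff]
    constructor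
    · rintro ⟨τ, hτ, rfl⟩
      exact cost_pure H hΨ hτ
    · rintro rfl
      exact ⟨_, prod_coupling hΨ hΦ, (cost_pure H hΨ (prod_coupling hΨ hΦ)).symm⟩
  rw [W, this, csInf_singleton]

/-! ### The two conventions agree for real symmetric matrices -/

theorem kron_submatrix_swap (A B : Matrix (Fin d) (Fin d) ℂ) :
    (A ⊗ₖ B).submatrix Prod.swap Prod.swap = B ⊗ₖ A := by
  ext ⟨i, a⟩ ⟨j, b⟩
  simp [kroneckerMap_apply, mul_comm]

theorem cost_swap {H : Fin N → Matrix (Fin d) (Fin d) ℂ} (hT : ∀ n, (H n)ᵀ = H n)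
    (τ : Matrix (Fin d × Fin d) (Fin d × Fin d) ℂ) :
    cost H (τ.submatrix Prod.swap Prod.swap) = cost H τ := by
  unfold cost
  congr 1
  refine Finset.sum_congr rfl fun n _ => ?_
  rw [hT n]
  set C := (H n) ⊗ₖ (1 : Matrix (Fin d) (Fin d) ℂ)
    - (1 : Matrix (Fin d) (Fin d) ℂ) ⊗ₖ (H n) with hC
  have h1 : (C ^ 2).submatrix (Equiv.prodComm (Fin d) (Fin d)) (Equiv.prodComm (Fin d) (Fin d))
      = C ^ 2 := by
    rw [sq, ← submatrix_mul_equiv C C _ (Equiv.prodComm (Fin d) (Fin d)) _]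
    have : C.submatrix (Equiv.prodComm (Fin d) (Fin d)) (Equiv.prodComm (Fin d) (Fin d))
        = -C := by
      ext ⟨i, a⟩ ⟨j, b⟩
      simp [hC, kroneckerMap_apply, mul_comm]
    rw [this]
    simp
  have h2 : τ.submatrix Prod.swap Prod.swap * C ^ 2
      = (τ * C ^ 2).submatrix (Equiv.prodComm (Fin d) (Fin d))
        (Equiv.prodComm (Fin d) (Fin d)) := by
    rw [← submatrix_mul_equiv τ (C ^ 2) _ (Equiv.prodComm (Fin d) (Fin d)) _, h1]
    rfl
  rw [h2]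
  congr 1
  simp only [trace, diag, submatrix_apply]
  exact Equiv.sum_comp (Equiv.prodComm (Fin d) (Fin d)) (fun x => (τ * C ^ 2) x x)

theorem coupling_swap {ρ σ : Matrix (Fin d) (Fin d) ℂ} {sw : Bool}
    {τ : Matrix (Fin d × Fin d) (Fin d × Fin d) ℂ} (h : IsCoupling sw ρ σ τ) :
    IsCoupling (!sw) ρ σ (τ.submatrix Prod.swap Prod.swap) := by
  refine ⟨⟨h.1.1.submatrix _, ?_⟩, ?_⟩
  · rw [← h.1.2]
    simp only [trace, diag, submatrix_apply]
    exact Equiv.sum_comp (Equiv.prodComm (Fin d) (Fin d)) (fun x => τ x x)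
  · have h1 : red1 (τ.submatrix Prod.swap Prod.swap) = red2 τ := by
      ext i j; simp [red1, red2]
    have h2 : red2 (τ.submatrix Prod.swap Prod.swap) = red1 τ := by
      ext i j; simp [red1, red2]
    have h3 := h.2
    rw [h1, h2]
    cases sw
    · simpa using h3
    · simpa using h3

theorem W_swap {H : Fin N → Matrix (Fin d) (Fin d) ℂ} (hT : ∀ n, (H n)ᵀ = H n) :
    W true H = W false H := by
  funext ρ σ
  unfold W
  congr 1
  ext c
  simp only [Set.mem_ofPred_eq]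
  constructor
  · rintro ⟨τ, hτ, rfl⟩
    exact ⟨_, coupling_swap hτ, (cost_swap hT τ).symm⟩
  · rintro ⟨τ, hτ, rfl⟩
    exact ⟨_, coupling_swap hτ, (cost_swap hT τ).symm⟩

/-! ### The example -/

/-- `H₁ = 2X ⊕ X`, `H₂ = Z ⊕ 2Z`. -/
def Hex : Fin 2 → Matrix (Fin 4) (Fin 4) ℂ :=
  ![!![0, 2, 0, 0; 2, 0, 0, 0; 0, 0, 0, 1; 0, 0, 1, 0],
    !![1, 0, 0, 0; 0, -1, 0, 0; 0, 0, 2, 0; 0, 0, 0, -2]]

/-- Half the projection on the first two coordinates. -/
noncomputable def rhoE : Matrix (Fin 4) (Fin 4) ℂ := diagonal ![1/2, 1/2, 0, 0]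

/-- Half the projection on the last two coordinates. -/
noncomputable def sigE : Matrix (Fin 4) (Fin 4) ℂ := diagonal ![0, 0, 1/2, 1/2]

theorem Hex_herm : ∀ n, (Hex n).IsHermitian := by
  intro n
  ext i j
  fin_cases n <;> fin_cases i <;> fin_cases j <;> simp [Hex]

theorem Hex_symm : ∀ n, (Hex n)ᵀ = Hex n := by
  intro n
  ext i j
  fin_cases n <;> fin_cases i <;> fin_cases j <;> simp [Hex]

theorem Hex_sq : ∑ n, (Hex n) ^ 2 = (5 : ℂ) • (1 : Matrix (Fin 4) (Fin 4) ℂ) := by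
  ext i j
  simp only [Fin.sum_univ_two, sq, Matrix.add_apply, Matrix.mul_apply, Fin.sum_univ_four,
    Matrix.smul_apply, Matrix.one_apply]
  fin_cases i <;> fin_cases j <;> simp [Hex] <;> norm_num

theorem half_sum {ρ σ : Matrix (Fin 4) (Fin 4) ℂ} (hρ : ρ.trace = 1) (hσ : σ.trace = 1) :
    1 / 2 * ∑ n, (((ρ * (Hex n) ^ 2).trace).re + ((σ * (Hex n) ^ 2).trace).re) = 5 := by
  have key : ∀ ρ : Matrix (Fin 4) (Fin 4) ℂ, ρ.trace = 1 →
      ∑ n, ((ρ * (Hex n) ^ 2).trace).re = 5 := by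
    intro ρ h
    rw [← Complex.re_sum, ← trace_sum, ← Finset.mul_sum, Hex_sq, Matrix.mul_smul, mul_one,
      trace_smul, h]
    simp
  rw [Finset.sum_add_distrib, key ρ hρ, key σ hσ]
  norm_num

theorem rhoE_state : IsState rhoE := by
  refine ⟨PosSemidef.diagonal ?_, ?_⟩
  · intro i
    fin_cases i <;> simp
  · simp [rhoE, trace, Fin.sum_univ_four]
    norm_num

theorem sigE_state : IsState sigE := by
  refine ⟨PosSemidef.diagonal ?_, ?_⟩
  · intro i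
    fin_cases i <;> simp
  · simp [sigE, trace, Fin.sum_univ_four]
    norm_num

end Pool.Agent.R841.DPT
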