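import Mathlib

/-!
# Gaussian DAG ideals: leading forms of the trek polynomials (helper file)

`V` is a finite vertex set, `E` an edge relation, `rk` an injective numbering of the
vertices that increases along edges.  `Sys` is a symmetric matrix `s` of polynomials in the
parameters `a_v`, `λ_{kl}` satisfying the recursion `s i j = ∑_{k → j} λ_{kj} s i k` for
`rk i < rk j`, and `s v v = a_v + ε ∑_{k → v} λ_{kv} s v k`.
-/

set_option linter.unusedSectionVars false
set_option linter.unusedSimpArgs false
set_option linter.unusedVariables false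

open MvPolynomial

namespace Pool.Agent.R841.Dag

/-- Index type of the parameters. -/
abbrev Par {V : Type} (E : V → V → Prop) : Type := V ⊕ {p : V × V // E p.1 p.2}

section

variable {V : Type} [Fintype V] (K : Type) [Field K] (E : V → V → Prop)

open scoped Classical in
/-- the edge parameter, `0` for a non-edge -/
noncomputable def lam (k l : V) : MvPolynomial (Par E) K :=
  if h : E k l then X (Sum.inr ⟨(k, l), h⟩) else 0

variable {E} in
lemma lam_of_E {k l : V} (h : E k l) : lam K E k l = X (Sum.inr ⟨(k, l), h⟩) := by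
  simp [lam, h]

variable {E} in
lemma lam_of_not {k l : V} (h : ¬ E k l) : lam K E k l = 0 := by
  simp [lam, h]

/-- scale the edge parameters by a new variable `T` -/
noncomputable def toT : MvPolynomial (Par E) K →ₐ[K] Polynomial (MvPolynomial (Par E) K) :=
  aeval (Sum.elim (fun v => Polynomial.C (X (Sum.inl v)))
    (fun e => Polynomial.X * Polynomial.C (X (Sum.inr e))))

lemma toT_inl (v : V) : toT K E (X (Sum.inl v)) = Polynomial.C (X (Sum.inl v)) := by
  simp [toT]

lemma toT_inr (e : {p : V × V // E p.1 p.2}) :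
    toT K E (X (Sum.inr e)) = Polynomial.X * Polynomial.C (X (Sum.inr e)) := by
  simp [toT]

lemma toT_C (c : K) : toT K E (C c) = Polynomial.C (C c) := by
  have := (toT K E).commutes c
  rw [MvPolynomial.algebraMap_eq] at this
  rw [this]
  rfl

lemma toT_lam (k l : V) : toT K E (lam K E k l) = Polynomial.X * Polynomial.C (lam K E k l) := by
  by_cases h : E k l
  · rw [lam_of_E K h, toT_inr]
  · rw [lam_of_not K h]; simp

lemma toT_eval_one (f : MvPolynomial (Par E) K) : (toT K E f).eval 1 = f := by
  have h : (Polynomial.evalRingHom (1 : MvPolynomial (Par E) K)).comp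
      (toT K E : MvPolynomial (Par E) K →+* Polynomial (MvPolynomial (Par E) K)) =
      RingHom.id _ := by
    apply MvPolynomial.ringHom_ext
    · intro r
      simp [toT_C]
    · rintro (v | e)
      · simp [toT_inl]
      · simp [toT_inr]
  exact RingHom.congr_fun h f

lemma toT_injective : Function.Injective (toT K E) := by
  intro f g h
  rw [← toT_eval_one K E f, ← toT_eval_one K E g, h]

lemma toT_eq_zero {f : MvPolynomial (Par E) K} : toT K E f = 0 ↔ f = 0 :=
  map_eq_zero_iff _ (toT_injective K E)

/-- leading (lowest) form -/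
noncomputable def low (f : MvPolynomial (Par E) K) : MvPolynomial (Par E) K :=
  (toT K E f).trailingCoeff

/-- order in the edge parameters -/
noncomputable def ord (f : MvPolynomial (Par E) K) : ℕ := (toT K E f).natTrailingDegree

lemma low_mul (f g : MvPolynomial (Par E) K) : low K E (f * g) = low K E f * low K E g := by
  unfold low
  rw [map_mul, Polynomial.trailingCoeff_mul]

lemma low_eq_zero {f : MvPolynomial (Par E) K} : low K E f = 0 ↔ f = 0 := by
  unfold low
  rw [Polynomial.trailingCoeff_eq_zero, toT_eq_zero]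

lemma low_zero : low K E 0 = 0 := (low_eq_zero K E).2 rfl

lemma low_C (c : K) : low K E (C c) = C c := by
  unfold low
  rw [toT_C, Polynomial.trailingCoeff, Polynomial.natTrailingDegree_C, Polynomial.coeff_C_zero]

lemma low_one : low K E 1 = 1 := by
  have := low_C K E 1
  simpa using this

lemma low_pow (f : MvPolynomial (Par E) K) (n : ℕ) : low K E (f ^ n) = low K E f ^ n := by
  induction n with
  | zero => simp [low_one]
  | succ n ih => rw [pow_succ, low_mul, ih, pow_succ]

lemma coeff_lt_ord {f : MvPolynomial (Par E) K} {d : ℕ} (hd : d < ord K E f) :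
    (toT K E f).coeff d = 0 := Polynomial.coeff_eq_zero_of_lt_natTrailingDegree hd

lemma ord_le_of_coeff {f : MvPolynomial (Par E) K} {d : ℕ} (hd : (toT K E f).coeff d ≠ 0) :
    ord K E f ≤ d := Polynomial.natTrailingDegree_le_of_ne_zero hd

lemma ord_low_of_coeff {f : MvPolynomial (Par E) K} {d : ℕ} (hd : (toT K E f).coeff d ≠ 0)
    (hlt : ∀ e < d, (toT K E f).coeff e = 0) :
    ord K E f = d ∧ low K E f = (toT K E f).coeff d := by
  have h1 : ord K E f = d := by
    apply le_antisymm (ord_le_of_coeff K E hd)
    by_contra h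
    push Not at h
    have h2 := hlt _ h
    have h3 : low K E f = 0 := h2
    rw [low_eq_zero] at h3
    rw [h3] at hd
    simp at hd
  refine ⟨h1, ?_⟩
  rw [← h1]
  rfl

lemma low_eq_coeff_ord (f : MvPolynomial (Par E) K) :
    low K E f = (toT K E f).coeff (ord K E f) := rfl

variable {E}

/-- The system of trek polynomials. -/
structure Sys (E : V → V → Prop) (rk : V → ℕ) where
  /-- the matrix -/
  s : V → V → MvPolynomial (Par E) K
  /-- the parameter of the diagonal recursion -/
  eps : K
  symm : ∀ i j, s i j = s j i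
  recu : ∀ i j, rk i < rk j → s i j = ∑ k, lam K E k j * s i k
  diag : ∀ v, s v v = X (Sum.inl v) + C eps * ∑ k, lam K E k v * s v k

/-- level of a parameter -/
def lev (rk : V → ℕ) : Par E → ℕ := Sum.elim rk (fun e => rk e.1.2)

/-- polynomials in the parameters of level at most `m` -/
noncomputable def Lv (rk : V → ℕ) (m : ℕ) : Subalgebra K (MvPolynomial (Par E) K) :=
  supported K {w | lev rk w ≤ m}

lemma Lv_mono (rk : V → ℕ) {m m' : ℕ} (h : m ≤ m') : (Lv K rk m : Subalgebra K
    (MvPolynomial (Par E) K)) ≤ Lv K rk m' :=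
  supported_mono (fun _ hw => le_trans hw h)

lemma lam_mem_Lv {rk : V → ℕ} {k j : V} {m : ℕ} (h : rk j ≤ m) :
    lam K E k j ∈ (Lv K rk m : Subalgebra K (MvPolynomial (Par E) K)) := by
  by_cases hE : E k j
  · rw [lam_of_E K hE]
    exact Algebra.subset_adjoin ⟨_, h, rfl⟩
  · rw [lam_of_not K hE]
    exact Subalgebra.zero_mem _

variable {rk : V → ℕ} (S : Sys K E rk)

section basic

variable (hE : ∀ i j, E i j → rk i < rk j) (hrk : Function.Injective rk)

include hE hrk in
lemma s_mem_Lv : ∀ (m : ℕ) (i j : V), rk i ≤ m → rk j ≤ m → S.s i j ∈ (Lv K rk m : Subalgebra K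
    (MvPolynomial (Par E) K)) := by
  intro m
  induction m using Nat.strong_induction_on with
  | _ m ih =>
    -- the strictly increasing case
    have key : ∀ i j, rk i < rk j → rk j ≤ m → S.s i j ∈ (Lv K rk m : Subalgebra K
        (MvPolynomial (Par E) K)) := by
      intro i j hij hj
      rw [S.recu i j hij]
      apply Subalgebra.sum_mem
      intro k _
      by_cases hk : E k j
      · apply Subalgebra.mul_mem
        · exact lam_mem_Lv K hj
        · have hkj := hE k j hk
          have h1 := ih (rk j - 1) (by omega) i k (by omega) (by omega)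
          exact Lv_mono K rk (by omega) h1
      · rw [lam_of_not K hk, zero_mul]
        exact Subalgebra.zero_mem _
    intro i j hi hj
    rcases lt_trichotomy (rk i) (rk j) with h | h | h
    · exact key i j h hj
    · have h' := hrk h
      subst h'
      rw [S.diag]
      apply Subalgebra.add_mem
      · exact Algebra.subset_adjoin ⟨_, hi, rfl⟩
      · apply Subalgebra.mul_mem
        · exact Subalgebra.algebraMap_mem _ S.eps
        · apply Subalgebra.sum_mem
          intro k _
          by_cases hk : E k i
          · apply Subalgebra.mul_mem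
            · exact lam_mem_Lv K hj
            · rw [S.symm]
              exact key k i (hE k i hk) hi
          · rw [lam_of_not K hk, zero_mul]
            exact Subalgebra.zero_mem _
    · rw [S.symm]
      exact key j i h hi

lemma coeff_zero_sum (j : V) (g : V → MvPolynomial (Par E) K) :
    (toT K E (∑ k, lam K E k j * g k)).coeff 0 = 0 := by
  rw [map_sum, Polynomial.finsetSum_coeff]
  apply Finset.sum_eq_zero
  intro k _
  rw [map_mul, toT_lam, mul_assoc, Polynomial.coeff_X_mul_zero]

lemma coeff_succ_sum (j : V) (g : V → MvPolynomial (Par E) K) (d : ℕ) :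
    (toT K E (∑ k, lam K E k j * g k)).coeff (d + 1) =
      ∑ k, lam K E k j * (toT K E (g k)).coeff d := by
  rw [map_sum, Polynomial.finsetSum_coeff]
  apply Finset.sum_congr rfl
  intro k _
  rw [map_mul, toT_lam, mul_assoc, Polynomial.coeff_X_mul, Polynomial.coeff_C_mul]

lemma coeff_zero_diag (v : V) : (toT K E (S.s v v)).coeff 0 = X (Sum.inl v) := by
  rw [S.diag, map_add, map_mul, toT_C, toT_inl, Polynomial.coeff_add, Polynomial.coeff_C_zero,
    Polynomial.coeff_C_mul, coeff_zero_sum, mul_zero, add_zero]

include hrk in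
lemma coeff_zero_off {i j : V} (hij : i ≠ j) : (toT K E (S.s i j)).coeff 0 = 0 := by
  rcases lt_or_gt_of_ne (fun h => hij (hrk h)) with h | h
  · rw [S.recu i j h, coeff_zero_sum]
  · rw [S.symm, S.recu j i h, coeff_zero_sum]

lemma low_diag (v : V) : ord K E (S.s v v) = 0 ∧ low K E (S.s v v) = X (Sum.inl v) := by
  have h := coeff_zero_diag K S v
  have := ord_low_of_coeff K E (f := S.s v v) (d := 0) (by rw [h]; exact X_ne_zero _)
    (fun e he => absurd he (Nat.not_lt_zero e))
  rw [h] at this
  exact this

lemma s_diag_ne_zero (v : V) : S.s v v ≠ 0 := by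
  rw [Ne, ← low_eq_zero K E, (low_diag K S v).2]
  exact X_ne_zero _

include hrk hE in
lemma low_edge {k j : V} (h : E k j) : ord K E (S.s k j) = 1 ∧
    low K E (S.s k j) = X (Sum.inl k) * X (Sum.inr ⟨(k, j), h⟩) := by
  have h1 : (toT K E (S.s k j)).coeff 1 = X (Sum.inl k) * X (Sum.inr ⟨(k, j), h⟩) := by
    rw [S.recu k j (hE k j h), coeff_succ_sum K (E := E) j _ 0, Finset.sum_eq_single k]
    · rw [coeff_zero_diag, lam_of_E K h, mul_comm]
    · intro b _ hb
      rw [coeff_zero_off K S hrk hb.symm, mul_zero]
    · simp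
  have := ord_low_of_coeff K E (f := S.s k j) (d := 1)
    (by rw [h1]; exact mul_ne_zero (X_ne_zero _) (X_ne_zero _))
    (fun e he => by
      have : e = 0 := by omega
      subst this
      exact coeff_zero_off K S hrk (fun hk => by
        subst hk; exact absurd (hE _ _ h) (lt_irrefl _)))
  rw [h1] at this
  exact this

open scoped Classical in
/-- specialise the edges into `j`: the edge from `k` to `1`, the others to `0` -/
noncomputable def ev (j k : V) : MvPolynomial (Par E) K →ₐ[K] MvPolynomial (Par E) K :=
  aeval (Sum.elim (fun v => X (Sum.inl v))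
    (fun e => if e.1.2 = j then (if e.1.1 = k then 1 else 0) else X (Sum.inr e)))

open scoped Classical in
lemma ev_lam (j k k' : V) : ev K (E := E) j k (lam K E k' j) =
    if k' = k then (if E k j then 1 else 0) else 0 := by
  by_cases h : E k' j
  · rw [lam_of_E K h, ev, aeval_X]
    simp only [Sum.elim_inr, if_true]
    by_cases hk : k' = k
    · subst hk; simp [h]
    · simp [hk]
  · rw [lam_of_not K h, map_zero]
    by_cases hk : k' = k
    · subst hk; simp [h]
    · simp [hk]

variable (E) in
lemma agree_on_Lv {R : Type} [CommRing R] [Algebra K R] (F G : MvPolynomial (Par E) K →ₐ[K] R)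
    (m : ℕ) (h : ∀ w : Par E, lev rk w ≤ m → F (X w) = G (X w))
    {f : MvPolynomial (Par E) K} (hf : f ∈ (Lv K rk m : Subalgebra K _)) : F f = G f := by
  have : (Lv K rk m : Subalgebra K (MvPolynomial (Par E) K)) ≤ AlgHom.equalizer F G := by
    apply Algebra.adjoin_le
    rintro _ ⟨w, hw, rfl⟩
    exact h w hw
  exact this hf

lemma ev_fix {j k : V} {m : ℕ} (hm : m < rk j) {f : MvPolynomial (Par E) K}
    (hf : f ∈ (Lv K rk m : Subalgebra K _)) : ev K j k f = f := by
  have := agree_on_Lv K E (ev K j k) (AlgHom.id K _) m ?_ hf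
  · simpa using this
  · rintro (v | e) hw
    · simp [ev]
    · have : e.1.2 ≠ j := by
        rintro rfl
        simp [lev] at hw
        omega
      simp [ev, this]

lemma ev_fix_T {j k : V} {m : ℕ} (hm : m < rk j) {f : MvPolynomial (Par E) K}
    (hf : f ∈ (Lv K rk m : Subalgebra K _)) :
    (toT K E f).map ((ev K (E := E) j k).toRingHom) = toT K E f := by
  have := agree_on_Lv K E ((Polynomial.mapAlgHom (ev K j k)).comp (toT K E)) (toT K E) m ?_ hf
  · simpa using this
  · rintro (v | e) hw
    · simp [toT, ev]
    · have : e.1.2 ≠ j := by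
        rintro rfl
        simp [lev] at hw
        omega
      simp [toT, ev, this]

open scoped Classical in
include hE hrk in
lemma ev_s {i j : V} (k : V) (hij : rk i < rk j) :
    ev K j k (S.s i j) = if E k j then S.s i k else 0 := by
  rw [S.recu i j hij, map_sum, Finset.sum_eq_single k]
  · rw [map_mul, ev_lam]
    by_cases h : E k j
    · have hkj := hE k j h
      rw [ev_fix K (m := rk j - 1) (by omega)
        (s_mem_Lv K S hE hrk (rk j - 1) i k (by omega) (by omega))]
      simp [h]
    · simp [h]
  · intro b _ hb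
    rw [map_mul, ev_lam]
    simp [hb]
  · simp

open scoped Classical in
include hE hrk in
lemma ev_sT {i j : V} (k : V) (hij : rk i < rk j) :
    (toT K E (S.s i j)).map ((ev K (E := E) j k).toRingHom)
      = if E k j then Polynomial.X * toT K E (S.s i k) else 0 := by
  rw [S.recu i j hij, map_sum, Polynomial.map_sum, Finset.sum_eq_single k]
  · rw [map_mul, toT_lam, Polynomial.map_mul, Polynomial.map_mul, Polynomial.map_X,
      Polynomial.map_C]
    have h0 := ev_lam K (E := E) j k k
    rw [if_pos rfl] at h0
    have h1 : (ev K (E := E) j k).toRingHom (lam K E k j)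
      = if E k j then 1 else 0 := h0
    rw [h1]
    by_cases h : E k j
    · have hkj := hE k j h
      rw [ev_fix_T K (m := rk j - 1) (by omega)
        (s_mem_Lv K S hE hrk (rk j - 1) i k (by omega) (by omega))]
      simp [h]
    · simp [h]
  · intro b _ hb
    rw [map_mul, toT_lam, Polynomial.map_mul, Polynomial.map_mul, Polynomial.map_X,
      Polynomial.map_C]
    have h0 := ev_lam K (E := E) j k b
    rw [if_neg hb] at h0
    have h1 : (ev K (E := E) j k).toRingHom (lam K E b j)
      = 0 := h0
    rw [h1]
    simp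
  · simp

/-- `f` has a (scaled) monomial as its leading form. -/
def MonoLow (f : MvPolynomial (Par E) K) : Prop :=
  ∃ μ : Par E →₀ ℕ, ∃ c : K, c ≠ 0 ∧ low K E f = monomial μ c

include hE hrk in
theorem claimU {i j : V} (hij : rk i < rk j) (hm : MonoLow K (S.s i j)) :
    ∃ k, ∃ _ : E k j, S.s i k ≠ 0 ∧ ord K E (S.s i j) = ord K E (S.s i k) + 1 ∧
      low K E (S.s i j) = lam K E k j * low K E (S.s i k) ∧
      ∀ k', E k' j → k' ≠ k → S.s i k' ≠ 0 → ord K E (S.s i k) < ord K E (S.s i k') := by
  classical
  obtain ⟨μ, c, hc, hlow⟩ := hm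
  have hne : S.s i j ≠ 0 := by
    rw [Ne, ← low_eq_zero K E, hlow]
    simpa using hc
  have hijne : i ≠ j := by rintro rfl; exact lt_irrefl _ hij
  obtain ⟨d, hd⟩ : ∃ d, d = ord K E (S.s i j) := ⟨_, rfl⟩
  have hcoef : (toT K E (S.s i j)).coeff d = monomial μ c := by
    rw [hd]; exact hlow
  have hmne : (monomial μ c : MvPolynomial (Par E) K) ≠ 0 := by simpa using hc
  have hd0 : d ≠ 0 := by
    intro h0
    rw [h0, coeff_zero_off K S hrk hijne] at hcoef
    exact hmne hcoef.symm
  obtain ⟨d', rfl⟩ : ∃ d', d = d' + 1 := ⟨d - 1, by omega⟩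
  have hev : ∀ (k : V) (e : ℕ), ev K (E := E) j k ((toT K E (S.s i j)).coeff (e + 1)) =
      if E k j then (toT K E (S.s i k)).coeff e else 0 := by
    intro k e
    have h := congrArg (fun p => Polynomial.coeff p (e + 1)) (ev_sT K S hE hrk k hij)
    simp only [Polynomial.coeff_map] at h
    have h' : ev K (E := E) j k ((toT K E (S.s i j)).coeff (e + 1)) =
      (if E k j then Polynomial.X * toT K E (S.s i k) else 0).coeff (e + 1) := h
    rw [h']
    split_ifs with hk
    · rw [Polynomial.coeff_X_mul]
    · simp
  -- find the edge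
  have hEjj : ¬ E j j := fun h => absurd (hE _ _ h) (lt_irrefl _)
  have h0 := hev j d'
  rw [if_neg hEjj, hcoef] at h0
  have hprod : ∀ k, ev K (E := E) j k (monomial μ c) = C c * μ.prod (fun w n =>
      (Sum.elim (fun v => X (Sum.inl v))
        (fun e => if e.1.2 = j then (if e.1.1 = k then 1 else 0) else X (Sum.inr e)) w :
        MvPolynomial (Par E) K) ^ n) := by
    intro k
    unfold ev
    rw [aeval_monomial, MvPolynomial.algebraMap_eq]
  rw [hprod] at h0
  have hCc : (C c : MvPolynomial (Par E) K) ≠ 0 := by simpa using hc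
  have h1 := (mul_eq_zero.1 h0).resolve_left hCc
  rw [Finsupp.prod, Finset.prod_eq_zero_iff] at h1
  obtain ⟨w, hw, hw0⟩ := h1
  have hwμ : μ w ≠ 0 := Finsupp.mem_support_iff.1 hw
  have hw1 := pow_eq_zero_iff hwμ |>.1 hw0
  obtain ⟨e, rfl, hej⟩ : ∃ e : {p : V × V // E p.1 p.2}, w = Sum.inr e ∧ e.1.2 = j := by
    rcases w with v | e
    · simp at hw1
    · refine ⟨e, rfl, ?_⟩
      by_contra hne'
      simp [hne'] at hw1
  obtain ⟨⟨k, j'⟩, hkj⟩ := e
  simp only at hej
  subst hej
  simp only at hkj
  have hzero : ∀ k', k' ≠ k → ev K (E := E) j' k' (monomial μ c) = 0 := by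
    intro k' hk'
    rw [hprod, Finsupp.prod]
    rw [Finset.prod_eq_zero hw, mul_zero]
    simp only [Sum.elim_inr]
    rw [if_pos trivial, if_neg hk'.symm, zero_pow hwμ]
  have hother : ∀ k', E k' j' → k' ≠ k → (toT K E (S.s i k')).coeff d' = 0 := by
    intro k' hE' hk'
    have := hev k' d'
    rw [if_pos hE', hcoef, hzero k' hk'] at this
    exact this.symm
  have hsmall : ∀ k', E k' j' → ∀ e < d', (toT K E (S.s i k')).coeff e = 0 := by
    intro k' hE' e he
    have := hev k' e
    rw [if_pos hE', coeff_lt_ord K E (by omega), map_zero] at this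
    exact this.symm
  have hsum : (toT K E (S.s i j')).coeff (d' + 1) =
      lam K E k j' * (toT K E (S.s i k)).coeff d' := by
    rw [S.recu i j' hij, coeff_succ_sum, Finset.sum_eq_single k]
    · intro b _ hb
      by_cases hbE : E b j'
      · rw [hother b hbE hb, mul_zero]
      · rw [lam_of_not K hbE, zero_mul]
    · simp
  have hkne : (toT K E (S.s i k)).coeff d' ≠ 0 := by
    intro h
    rw [h, mul_zero, hcoef] at hsum
    exact hmne hsum
  obtain ⟨ho, hl⟩ := ord_low_of_coeff K E hkne (hsmall k hkj)
  refine ⟨k, hkj, ?_, ?_, ?_, ?_⟩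
  · intro h
    rw [h] at hkne
    simp at hkne
  · rw [← hd, ho]
  · rw [hl, ← hsum, hcoef, hlow]
  · intro k' hE' hk' hne'
    rw [ho]
    by_contra hle
    push Not at hle
    rcases Nat.lt_or_ge (ord K E (S.s i k')) d' with h | h
    · have h2 := hsmall k' hE' _ h
      have h3 : low K E (S.s i k') = 0 := h2
      exact hne' ((low_eq_zero K E).1 h3)
    · have h4 : ord K E (S.s i k') = d' := le_antisymm hle h
      have h2 := hother k' hE' hk'
      rw [← h4] at h2
      have h3 : low K E (S.s i k') = 0 := h2
      exact hne' ((low_eq_zero K E).1 h3)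

/-- leading form of a divisor of a monomial -/
lemma monoLow_of_dvd {f : MvPolynomial (Par E) K} {μ : Par E →₀ ℕ} {c : K} (hc : c ≠ 0)
    (h : low K E f ∣ monomial μ c) : MonoLow K f := by
  rw [dvd_monomial_iff_exists hc] at h
  obtain ⟨m, b, _, hb, hf⟩ := h
  exact ⟨m, b, fun h0 => hc (by rw [h0] at hb; exact zero_dvd_iff.1 hb), hf⟩

include hE hrk in
/-- vertices with a common ancestor have nonzero entry -/
lemma s_ne_zero_of_ca : ∀ (m : ℕ) (i j : V), rk i ≤ m → rk j ≤ m →
    (∃ a, Relation.ReflTransGen E a i ∧ Relation.ReflTransGen E a j) → S.s i j ≠ 0 := by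
  classical
  have hmono : ∀ {a b : V}, Relation.ReflTransGen E a b → rk a ≤ rk b := by
    intro a b h
    induction h with
    | refl => exact le_rfl
    | tail _ h2 ih => exact le_trans ih (hE _ _ h2).le
  intro m
  induction m using Nat.strong_induction_on with
  | _ m ih =>
    have key : ∀ i j, rk i < rk j → rk j ≤ m → (∃ a, Relation.ReflTransGen E a i ∧
        Relation.ReflTransGen E a j) → S.s i j ≠ 0 := by
      rintro i j hij hj ⟨a, hai, haj⟩ h0
      rcases Relation.ReflTransGen.cases_tail haj with h | ⟨k, hak, hkj⟩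
      · subst h
        exact absurd (hmono hai) (by omega)
      · have hk := hE _ _ hkj
        have h1 := ih (rk j - 1) (by omega) i k (by omega) (by omega) ⟨a, hai, hak⟩
        have h2 := ev_s K S hE hrk k hij
        rw [h0, map_zero, if_pos hkj] at h2
        exact h1 h2.symm
    rintro i j hi hj ⟨a, hai, haj⟩
    rcases lt_trichotomy (rk i) (rk j) with h | h | h
    · exact key i j h hj ⟨a, hai, haj⟩
    · have := hrk h
      subst this
      exact s_diag_ne_zero K S i
    · rw [S.symm]
      exact key j i h hi ⟨a, haj, hai⟩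

end basic

end

end Pool.Agent.R841.Dag
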