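import Pool.Agent.R841.DagToric

/-!
# Gaussian DAG ideals: separation by at most one vertex (helper file)
-/

set_option linter.unusedSectionVars false
set_option linter.unusedSimpArgs false
set_option linter.unusedVariables false

open MvPolynomial

namespace Pool.Agent.R841.Dag

section paths

variable {V : Type} {E : V → V → Prop}

/-- adjacency -/
def Adj (E : V → V → Prop) (a b : V) : Prop := E a b ∨ E b a

theorem ca_of_chain (D : V → Prop) (hD : ∀ x y, E x y → D y → D x) :
    ∀ (l : List V) (x z : V), (x :: l).IsChain (fun a b => E a b ∨ E b a) →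
    (∀ a c b, [a, c, b] <:+: (x :: l) → E a c → E b c → D c) → (x :: l).getLast? = some z →
    ((∃ a, Relation.ReflTransGen E a x ∧ Relation.ReflTransGen E a z) ∨
      (∃ a, Relation.ReflTransGen E a x ∧ D a)) ∧
    (∀ y l', l = y :: l' → E x y → (Relation.ReflTransGen E x z ∨ D x)) := by
  intro l
  induction l with
  | nil =>
    intro x z _ _ h
    simp at h
    subst h
    refine ⟨Or.inl ⟨x, Relation.ReflTransGen.refl, Relation.ReflTransGen.refl⟩, ?_⟩
    intro y l' h
    simp at h
  | cons y l' ih =>
    intro x z hch hcol hlast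
    rw [List.isChain_cons_cons] at hch
    obtain ⟨hxy, hch'⟩ := hch
    have hcol' : ∀ a c b, [a, c, b] <:+: (y :: l') → E a c → E b c → D c :=
      fun a c b hi => hcol a c b (hi.trans (List.suffix_cons x _).isInfix)
    have hlast' : (y :: l').getLast? = some z := by
      rw [← hlast]; simp
    obtain ⟨ih1, ih2⟩ := ih y z hch' hcol' hlast'
    have second : E x y → (Relation.ReflTransGen E x z ∨ D x) := by
      intro hE
      rcases l' with _ | ⟨y', l''⟩
      · simp at hlast'
        subst hlast'
        exact Or.inl (Relation.ReflTransGen.single hE)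
      · rw [List.isChain_cons_cons] at hch'
        rcases hch'.1 with h | h
        · rcases ih2 y' l'' rfl h with h' | h'
          · exact Or.inl (Relation.ReflTransGen.head hE h')
          · exact Or.inr (hD _ _ hE h')
        · have := hcol x y y' ⟨[], l'', by simp⟩ hE h
          exact Or.inr (hD _ _ hE this)
    refine ⟨?_, ?_⟩
    · rcases hxy with h | h
      · rcases second h with h' | h'
        · exact Or.inl ⟨x, Relation.ReflTransGen.refl, h'⟩
        · exact Or.inr ⟨x, Relation.ReflTransGen.refl, h'⟩
      · rcases ih1 with ⟨a, h1, h2⟩ | ⟨a, h1, h2⟩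
        · exact Or.inl ⟨a, h1.tail h, h2⟩
        · exact Or.inr ⟨a, h1.tail h, h2⟩
    · intro y1 l1 h1 hE
      rw [List.cons.injEq] at h1
      rw [← h1.1] at hE
      exact second hE

/-- the path is active given `v` -/
def Act (E : V → V → Prop) (v : V) (L : List V) : Prop :=
  ∀ a c b, [a, c, b] <:+: L → (¬ (E a c ∧ E b c) → c ≠ v) ∧
    ((E a c ∧ E b c) → Relation.ReflTransGen E c v)

lemma Act.reverse {v : V} {L : List V} (h : Act E v L) : Act E v L.reverse := by
  intro a c b hi
  have : [b, c, a] <:+: L := by
    have h1 : [b, c, a].reverse <:+: L.reverse := by simpa using hi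
    exact List.reverse_infix.1 h1
  obtain ⟨h1, h2⟩ := h b c a this
  exact ⟨fun h3 => h1 (fun h4 => h3 ⟨h4.2, h4.1⟩), fun h3 => h2 ⟨h3.2, h3.1⟩⟩

lemma isChain_reverse_adj {L : List V} (h : L.IsChain (fun a b => E a b ∨ E b a)) :
    L.reverse.IsChain (fun a b => E a b ∨ E b a) := by
  rw [List.isChain_reverse]
  exact h.imp (fun a b hab => hab.symm)

end paths

section sep

variable {V : Type} [Fintype V] (K : Type) [Field K] {E : V → V → Prop} {rk : V → ℕ}
  (S : Sys K E rk) (hE : ∀ i j, E i j → rk i < rk j) (hrk : Function.Injective rk)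

include hE in
lemma rk_le_of_rtg {a b : V} (h : Relation.ReflTransGen E a b) : rk a ≤ rk b := by
  induction h with
  | refl => exact le_rfl
  | tail _ h2 ih => exact le_trans ih (hE _ _ h2).le

open scoped Classical in
/-- shift the parameter `a_v` by one -/
noncomputable def sh (v : V) : MvPolynomial (Par E) K →ₐ[K] MvPolynomial (Par E) K :=
  aeval (Sum.elim (fun u => if u = v then X (Sum.inl v) + 1 else X (Sum.inl u))
    (fun e => X (Sum.inr e)))

lemma sh_fix {v : V} {m : ℕ} (hm : m < rk v) {f : MvPolynomial (Par E) K}
    (hf : f ∈ (Lv K rk m : Subalgebra K _)) : sh K v f = f := by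
  have := agree_on_Lv K E (sh K v) (AlgHom.id K _) m ?_ hf
  · simpa using this
  · rintro (u | e) hw
    · have : u ≠ v := by
        rintro rfl
        simp [lev] at hw
        omega
      simp [sh, this]
    · simp [sh]

lemma sh_lam (v k l : V) : sh K v (lam K E k l) = lam K E k l := by
  by_cases h : E k l
  · rw [lam_of_E K h]; simp [sh]
  · rw [lam_of_not K h, map_zero]

include hE hrk in
lemma sh_sum (v i : V) (hi : rk i ≤ rk v) :
    sh K v (∑ k, lam K E k v * S.s i k) = ∑ k, lam K E k v * S.s i k := by
  rw [map_sum]
  apply Finset.sum_congr rfl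
  intro k _
  rw [map_mul, sh_lam]
  by_cases h : E k v
  · have hk := hE _ _ h
    rcases Nat.lt_or_ge (rk i) (rk v) with h1 | h1
    · rw [sh_fix K (m := rk v - 1) (by omega)
        (s_mem_Lv K S hE hrk (rk v - 1) i k (by omega) (by omega))]
    · have hiv : i = v := hrk (le_antisymm hi h1)
      subst hiv
      rw [S.symm, S.recu k i hk, map_sum]
      congr 1
      apply Finset.sum_congr rfl
      intro k' _
      rw [map_mul, sh_lam]
      by_cases h' : E k' i
      · have hk' := hE _ _ h'
        rw [sh_fix K (m := rk i - 1) (by omega)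
          (s_mem_Lv K S hE hrk (rk i - 1) k k' (by omega) (by omega))]
      · rw [lam_of_not K h', zero_mul, zero_mul]
  · rw [lam_of_not K h, zero_mul, zero_mul]

include hE hrk in
lemma sh_s {v i : V} (hi : rk i < rk v) : sh K v (S.s i v) = S.s i v := by
  rw [S.recu i v hi, sh_sum K S hE hrk v i hi.le]

include hE hrk in
lemma sh_diag (v : V) : sh K v (S.s v v) = S.s v v + 1 := by
  have h1 : sh K v (X (Sum.inl v) : MvPolynomial (Par E) K) = X (Sum.inl v) + 1 := by
    simp [sh]
  have h2 : sh K v (C S.eps : MvPolynomial (Par E) K) = C S.eps := (sh K v).commutes _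
  conv_lhs => rw [S.diag]
  rw [map_add, map_mul, h1, h2, sh_sum K S hE hrk v v le_rfl]
  conv_rhs => rw [S.diag]
  ring

include hE hrk in
theorem cl0 {i j : V} (h0 : S.s i j = 0) {L : List V}
    (hch : L.IsChain (fun a b => E a b ∨ E b a)) (hhead : L.head? = some i)
    (hlast : L.getLast? = some j) :
    ∃ a c b, [a, c, b] <:+: L ∧ E a c ∧ E b c := by
  by_contra hcon
  push Not at hcon
  obtain ⟨l, rfl⟩ := List.head?_eq_some_iff.1 hhead
  have := (ca_of_chain (E := E) (fun _ => False) (fun _ _ _ h => h) l i j hch
    (fun a c b hi h1 h2 => hcon a c b hi h1 h2) hlast).1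
  rcases this with h | ⟨_, _, h⟩
  · exact s_ne_zero_of_ca K S hE hrk (max (rk i) (rk j)) i j (le_max_left _ _) (le_max_right _ _)
      h h0
  · exact h

include hE hrk in
theorem cl1 : ∀ (m : ℕ) (i j v : V) (L : List V), rk i ≤ m → rk j ≤ m → rk v ≤ m → i ≠ v →
    j ≠ v → i ≠ j → L.IsChain (fun a b => E a b ∨ E b a) → L.head? = some i →
    L.getLast? = some j → Act E v L → S.s i j * S.s v v ≠ S.s i v * S.s j v := by
  classical
  have hDv : ∀ v x y : V, E x y → Relation.ReflTransGen E y v → Relation.ReflTransGen E x v :=
    fun v x y h1 h2 => Relation.ReflTransGen.head h1 h2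
  have hnz : ∀ i j : V, (∃ a, Relation.ReflTransGen E a i ∧ Relation.ReflTransGen E a j) →
      S.s i j ≠ 0 := fun i j h => s_ne_zero_of_ca K S hE hrk (max (rk i) (rk j)) i j
        (le_max_left _ _) (le_max_right _ _) h
  intro m
  induction m using Nat.strong_induction_on with
  | _ m ih =>
    -- the case where `i` has the largest rank
    have caseb : ∀ (i j v : V) (L : List V), rk i ≤ m → rk j < rk i → rk v < rk i →
        j ≠ v → L.IsChain (fun a b => E a b ∨ E b a) → L.head? = some i →
        L.getLast? = some j → Act E v L → S.s i j * S.s v v ≠ S.s i v * S.s j v := by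
      intro i j v L hi hj hv hjv hch hhead hlast hact hrel
      obtain ⟨l, rfl⟩ := List.head?_eq_some_iff.1 hhead
      rcases l with _ | ⟨k, l'⟩
      · simp at hlast
        subst hlast
        exact lt_irrefl _ hj
      have hca := (ca_of_chain (E := E) (fun c => Relation.ReflTransGen E c v) (hDv v) (k :: l')
        i j hch (fun a c b hi h1 h2 => (hact a c b hi).2 ⟨h1, h2⟩) hlast).2 k l' rfl
      have hnE : ¬ E i k := by
        intro h
        rcases hca h with h' | h'
        · exact absurd (rk_le_of_rtg hE h') (by omega)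
        · exact absurd (rk_le_of_rtg hE h') (by omega)
      rw [List.isChain_cons_cons] at hch
      have hki : E k i := hch.1.resolve_left hnE
      have hk := hE _ _ hki
      have hkv : k ≠ v := by
        rcases l' with _ | ⟨z, l''⟩
        · simp at hlast
          rw [hlast]; exact hjv
        · exact (hact i k z ⟨[], l'', by simp⟩).1 (fun h => hnE h.1)
      have hlast' : (k :: l').getLast? = some j := by
        rw [← hlast]; simp
      have hact' : Act E v (k :: l') :=
        fun a c b hi => hact a c b (hi.trans (List.suffix_cons i _).isInfix)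
      have e1 : ev K i k (S.s i j) = S.s j k := by
        rw [S.symm, ev_s K S hE hrk k hj, if_pos hki]
      have e2 : ev K i k (S.s i v) = S.s v k := by
        rw [S.symm, ev_s K S hE hrk k hv, if_pos hki]
      have e3 : ev K i k (S.s v v) = S.s v v :=
        ev_fix K (m := rk v) hv (s_mem_Lv K S hE hrk _ v v le_rfl le_rfl)
      have e4 : ev K i k (S.s j v) = S.s j v :=
        ev_fix K (m := max (rk j) (rk v)) (max_lt hj hv)
          (s_mem_Lv K S hE hrk _ j v (le_max_left _ _) (le_max_right _ _))
      have hrel' := congrArg (ev K i k) hrel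
      rw [map_mul, map_mul, e1, e2, e3, e4] at hrel'
      by_cases hkj : k = j
      · subst hkj
        have g1 := congrArg (fun f => (toT K E f).coeff 0) hrel'
        simp only [map_mul, Polynomial.mul_coeff_zero, coeff_zero_diag] at g1
        rw [coeff_zero_off K S hrk hjv, mul_zero] at g1
        exact mul_ne_zero (X_ne_zero _) (X_ne_zero _) g1
      · refine ih (rk i - 1) (by omega) k j v (k :: l') (by omega) (by omega) (by omega) hkv hjv
          hkj hch.2 rfl hlast' hact' ?_
        rw [S.symm k j, S.symm k v]
        exact hrel'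
    intro i j v L hi hj hv hiv hjv hij hch hhead hlast hact hrel
    have hne_iv : rk i ≠ rk v := fun h => hiv (hrk h)
    have hne_jv : rk j ≠ rk v := fun h => hjv (hrk h)
    have hne_ij : rk i ≠ rk j := fun h => hij (hrk h)
    have hchr := isChain_reverse_adj hch
    have hheadr : L.reverse.head? = some j := by rw [List.head?_reverse]; exact hlast
    have hlastr : L.reverse.getLast? = some i := by rw [List.getLast?_reverse]; exact hhead
    have hactr := hact.reverse
    by_cases h1 : rk j < rk i ∧ rk v < rk i
    · exact caseb i j v L hi h1.1 h1.2 hjv hch hhead hlast hact hrel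
    by_cases h2 : rk i < rk j ∧ rk v < rk j
    · refine caseb j i v L.reverse hj h2.1 h2.2 hiv hchr hheadr hlastr hactr ?_
      rw [S.symm j i, hrel]; ring
    -- `v` has the largest rank
    have hiv' : rk i < rk v := by omega
    have hjv' : rk j < rk v := by omega
    have f1 := congrArg (sh K v) hrel
    rw [map_mul, map_mul, sh_s K S hE hrk hiv', sh_s K S hE hrk hjv', sh_diag K S hE hrk,
      sh_fix K (m := max (rk i) (rk j)) (max_lt hiv' hjv')
        (s_mem_Lv K S hE hrk _ i j (le_max_left _ _) (le_max_right _ _)), ← hrel] at f1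
    have hzero : S.s i j = 0 := by linear_combination f1
    have hprod : S.s i v * S.s j v = 0 := by rw [← hrel, hzero, zero_mul]
    have c1 : S.s i v ≠ 0 := by
      obtain ⟨l, rfl⟩ := List.head?_eq_some_iff.1 hhead
      rcases (ca_of_chain (E := E) (fun c => Relation.ReflTransGen E c v) (hDv v) l
        i j hch (fun a c b hi h1 h2 => (hact a c b hi).2 ⟨h1, h2⟩) hlast).1 with h | h
      · exact absurd hzero (hnz i j h)
      · exact hnz i v h
    have c2 : S.s j v ≠ 0 := by
      obtain ⟨l, hl⟩ := List.head?_eq_some_iff.1 hheadr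
      rw [hl] at hchr hlastr hactr
      rcases (ca_of_chain (E := E) (fun c => Relation.ReflTransGen E c v) (hDv v) l
        j i hchr (fun a c b hi h1 h2 => (hactr a c b hi).2 ⟨h1, h2⟩) hlastr).1 with h | h
      · exact absurd (by rw [S.symm]; exact hzero) (hnz j i h)
      · exact hnz j v h
    exact mul_ne_zero c1 c2 hprod

end sep

end Pool.Agent.R841.Dag
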