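import Pool.Agent.R841.DagCore

/-!
# Gaussian DAG ideals: consequences of being toric (helper file)
-/

set_option linter.unusedSectionVars false
set_option linter.unusedSimpArgs false
set_option linter.unusedVariables false

open MvPolynomial

namespace Pool.Agent.R841.Dag

section pb

variable {K : Type} [Field K] {Z τ ρ : Type}

/-- two-monomial property of the kernel of `φ` -/
def PB (φ : MvPolynomial Z K →ₐ[K] MvPolynomial ρ K) : Prop :=
  ∀ f : MvPolynomial Z K, φ f = 0 → f ≠ 0 → (∀ u ∈ f.support, φ (monomial u 1) ≠ 0) →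
    ∃ u ∈ f.support, ∃ v ∈ f.support, u ≠ v ∧ ∃ c : K, φ (monomial u 1) = C c * φ (monomial v 1)

/-- an algebra map sending variables to monomials or `0` does so on monomials -/
lemma monomialMap_monomial {χ : MvPolynomial Z K →ₐ[K] MvPolynomial τ K}
    (hχ : ∀ z, χ (X z) = 0 ∨ ∃ e, χ (X z) = monomial e 1) (u : Z →₀ ℕ) :
    χ (monomial u 1) = 0 ∨ ∃ e, χ (monomial u 1) = monomial e 1 := by
  induction u using Finsupp.induction_linear with
  | zero =>
    right
    exact ⟨0, by rw [← C_apply, map_one, map_one, ← C_apply, map_one]⟩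
  | add f g hf hg =>
    have : (monomial (f + g) 1 : MvPolynomial Z K) = monomial f 1 * monomial g 1 := by
      rw [monomial_mul, one_mul]
    rw [this, map_mul]
    rcases hf with hf | ⟨e, hf⟩
    · left; rw [hf, zero_mul]
    · rcases hg with hg | ⟨e', hg⟩
      · left; rw [hg, mul_zero]
      · right; exact ⟨e + e', by rw [hf, hg, monomial_mul, one_mul]⟩
  | single z n =>
    have : (monomial (Finsupp.single z n) 1 : MvPolynomial Z K) = X z ^ n := by
      rw [X_pow_eq_monomial]
    rw [this, map_pow]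
    rcases hχ z with h | ⟨e, h⟩
    · rcases Nat.eq_zero_or_pos n with h0 | h0
      · right; exact ⟨0, by rw [h0, pow_zero]; rfl⟩
      · left; rw [h, zero_pow (by omega)]
    · right; exact ⟨n • e, by rw [h, monomial_pow, one_pow]⟩

lemma map_eq_sum (χ : MvPolynomial Z K →ₐ[K] MvPolynomial τ K) (f : MvPolynomial Z K) :
    χ f = ∑ u ∈ f.support, C (coeff u f) * χ (monomial u 1) := by
  conv_lhs => rw [f.as_sum]
  rw [map_sum]
  apply Finset.sum_congr rfl
  intro u _
  have h1 : (monomial u (coeff u f) : MvPolynomial Z K) = C (coeff u f) * monomial u 1 := by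
    rw [C_mul_monomial, mul_one]
  have h2 : χ (C (coeff u f)) = C (coeff u f) := χ.commutes _
  rw [h1, map_mul, h2]

/-- kernels of monomial-or-zero maps have the two-monomial property -/
theorem PB_of_monomialMap {χ : MvPolynomial Z K →ₐ[K] MvPolynomial τ K}
    {φ : MvPolynomial Z K →ₐ[K] MvPolynomial ρ K}
    (hχ : ∀ z, χ (X z) = 0 ∨ ∃ e, χ (X z) = monomial e 1)
    (hker : ∀ f, χ f = 0 ↔ φ f = 0) : PB φ := by
  classical
  intro f hf hne hsupp
  obtain ⟨u, hu⟩ : f.support.Nonempty := by
    rwa [Finset.nonempty_iff_ne_empty, Ne, support_eq_empty]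
  have hχf : χ f = 0 := (hker f).2 hf
  have hnz : ∀ v ∈ f.support, ∃ e, χ (monomial v 1) = monomial e 1 := by
    intro v hv
    rcases monomialMap_monomial hχ v with h | h
    · exact absurd ((hker _).1 h) (hsupp v hv)
    · exact h
  obtain ⟨e, he⟩ := hnz u hu
  by_contra hcon
  push Not at hcon
  have hsum : ∑ v ∈ f.support, coeff v f * coeff e (χ (monomial v 1)) = 0 := by
    have := congrArg (coeff e) hχf
    rw [map_eq_sum, coeff_sum, coeff_zero] at this
    rw [← this]
    apply Finset.sum_congr rfl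
    intro v _
    rw [coeff_C_mul]
  rw [Finset.sum_eq_single u] at hsum
  · rw [he, coeff_monomial, if_pos rfl, mul_one] at hsum
    exact (mem_support_iff.1 hu) hsum
  · intro v hv hvu
    obtain ⟨e', he'⟩ := hnz v hv
    by_cases hee : e' = e
    · exfalso
      subst hee
      have h0 : χ (monomial v 1 - monomial u 1) = 0 := by
        rw [map_sub, he, he', sub_self]
      have h1 := (hker _).1 h0
      rw [map_sub, sub_eq_zero] at h1
      exact hcon v hv u hu hvu 1 (by rw [h1, C_1, one_mul])
    · rw [he', coeff_monomial, if_neg hee, mul_zero]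
  · intro h; exact absurd hu h

/-- ideals generated by polynomials with at most two terms have the two-monomial property -/
theorem PB_of_binomial {φ : MvPolynomial Z K →ₐ[K] MvPolynomial ρ K}
    {B : Set (MvPolynomial Z K)} (hB : ∀ b ∈ B, b.support.card ≤ 2)
    (hker : Ideal.span B = RingHom.ker φ) : PB φ := by
  classical
  intro f hf hne hsupp
  obtain ⟨u, hu⟩ : f.support.Nonempty := by
    rwa [Finset.nonempty_iff_ne_empty, Ne, support_eq_empty]
  by_contra hcon
  push Not at hcon
  set cl : (Z →₀ ℕ) → Prop := fun w => φ (monomial w 1) ≠ 0 ∧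
    ∃ c : K, φ (monomial w 1) = C c * φ (monomial u 1) with hcl
  set ℓ : MvPolynomial Z K →ₗ[K] MvPolynomial ρ K := (basisMonomials Z K).constr K
    (fun w => if cl w then φ (monomial w 1) else 0) with hℓ
  have hℓ1 : ∀ w, ℓ (monomial w 1) = if cl w then φ (monomial w 1) else 0 := by
    intro w
    have := (basisMonomials Z K).constr_basis K (fun w => if cl w then φ (monomial w 1) else 0) w
    rw [coe_basisMonomials] at this
    exact this
  have hℓ2 : ∀ w (a : K), ℓ (monomial w a) = C a * (if cl w then φ (monomial w 1) else 0) := by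
    intro w a
    have h1 : (monomial w a : MvPolynomial Z K) = a • monomial w 1 := by
      rw [smul_monomial, smul_eq_mul, mul_one]
    rw [h1, map_smul, hℓ1, smul_eq_C_mul]
  have hφ2 : ∀ w (a : K), φ (monomial w a) = C a * φ (monomial w 1) := by
    intro w a
    have h1 : (monomial w a : MvPolynomial Z K) = a • monomial w 1 := by
      rw [smul_monomial, smul_eq_mul, mul_one]
    rw [h1, map_smul, smul_eq_C_mul]
  -- transport of the class
  have htr : ∀ w w' : Z →₀ ℕ, ∀ c c' : K, c ≠ 0 → c' ≠ 0 →
      C c * φ (monomial w 1) + C c' * φ (monomial w' 1) = 0 → cl w → cl w' := by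
    intro w w' c c' hc hc' h hw
    have hCc : (C c : MvPolynomial ρ K) ≠ 0 := by simpa using hc
    have hCc' : (C c' : MvPolynomial ρ K) ≠ 0 := by simpa using hc'
    refine ⟨?_, ?_⟩
    · intro h0
      rw [h0, mul_zero, add_zero] at h
      exact hw.1 ((mul_eq_zero.1 h).resolve_left hCc)
    · obtain ⟨d, hd⟩ := hw.2
      refine ⟨-(c'⁻¹ * c * d), ?_⟩
      have h1 : (C c' : MvPolynomial ρ K) * C (c'⁻¹) = 1 := by
        rw [← C_mul, mul_inv_cancel₀ hc', C_1]
      apply mul_left_cancel₀ hCc'
      have h2 : C c' * φ (monomial w' 1) = - (C c * φ (monomial w 1)) := by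
        rw [eq_neg_iff_add_eq_zero, add_comm]; exact h
      rw [h2, hd, C_neg, C_mul, C_mul]
      calc -(C c * (C d * φ (monomial u 1))) = -((1 : MvPolynomial ρ K) * C c * C d
            * φ (monomial u 1)) := by ring
        _ = C c' * (-(C c'⁻¹ * C c * C d) * φ (monomial u 1)) := by rw [← h1]; ring
  have hkill : ∀ x ∈ Ideal.span B, ∀ r, ℓ (r * x) = 0 := by
    intro x hx
    induction hx using Submodule.span_induction with
    | mem b hb =>
      intro r
      have hφb : φ b = 0 := by
        have : b ∈ RingHom.ker φ := by rw [← hker]; exact Ideal.subset_span hb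
        exact this
      induction r using MvPolynomial.induction_on' with
      | add p q hp hq => rw [add_mul, map_add, hp, hq, add_zero]
      | monomial m a =>
        have hexp : monomial m a * b = ∑ w ∈ b.support, monomial (m + w) (a * coeff w b) := by
          conv_lhs => rw [b.as_sum]
          rw [Finset.mul_sum]
          apply Finset.sum_congr rfl
          intro w _
          rw [monomial_mul]
        have h1 : ∑ w ∈ b.support, C (a * coeff w b) * φ (monomial (m + w) 1) = 0 := by
          have := congrArg φ hexp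
          rw [map_mul, hφb, mul_zero, map_sum] at this
          rw [this]
          apply Finset.sum_congr rfl
          intro w _
          rw [hφ2 (m + w) (a * coeff w b)]
        rw [hexp, map_sum]
        simp_rw [hℓ2]
        rcases eq_or_ne a 0 with ha | ha
        · apply Finset.sum_eq_zero
          intro w _
          rw [ha, zero_mul, C_0, zero_mul]
        have hclass : ∀ w ∈ b.support, ∀ w' ∈ b.support, cl (m + w) → cl (m + w') := by
          intro w hw w' hw' h
          by_cases hww : w = w'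
          · rwa [← hww]
          · have hcard : b.support = {w, w'} := by
              symm
              apply Finset.eq_of_subset_of_card_le
              · intro x hx
                rw [Finset.mem_insert, Finset.mem_singleton] at hx
                rcases hx with rfl | rfl <;> assumption
              · rw [Finset.card_pair hww]; exact hB b hb
            rw [hcard, Finset.sum_pair hww] at h1
            exact htr _ _ _ _ (mul_ne_zero ha (mem_support_iff.1 hw))
              (mul_ne_zero ha (mem_support_iff.1 hw')) h1 h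
        by_cases hex : ∃ w ∈ b.support, cl (m + w)
        · obtain ⟨w, hw, hclw⟩ := hex
          refine Eq.trans ?_ h1
          apply Finset.sum_congr rfl
          intro w' hw'
          rw [if_pos (hclass w hw w' hw' hclw)]
        · push Not at hex
          apply Finset.sum_eq_zero
          intro w hw
          rw [if_neg (hex w hw), mul_zero]
    | zero => intro r; rw [mul_zero, map_zero]
    | add x y _ _ hx hy => intro r; rw [mul_add, map_add, hx, hy, add_zero]
    | smul a x _ hx =>
      intro r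
      rw [smul_eq_mul, ← mul_assoc]
      exact hx _
  have h0 : ℓ f = 0 := by
    have := hkill f (by rw [hker]; exact hf) 1
    rwa [one_mul] at this
  have h1 : ℓ f = C (coeff u f) * φ (monomial u 1) := by
    conv_lhs => rw [f.as_sum]
    rw [map_sum, Finset.sum_eq_single u]
    · rw [hℓ2, if_pos ⟨hsupp u hu, 1, by rw [C_1, one_mul]⟩]
    · intro w hw hwu
      rw [hℓ2, if_neg, mul_zero]
      rintro ⟨_, c, hc⟩
      exact hcon w hw u hu hwu c hc
    · intro h; exact absurd hu h
  rw [h0] at h1
  rcases mul_eq_zero.1 h1.symm with h | h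
  · exact (mem_support_iff.1 hu) (by simpa using h)
  · exact hsupp u hu h

end pb

section toric

variable {V : Type} [Fintype V] (K : Type) [Field K] {E : V → V → Prop} {rk : V → ℕ}
  (S : Sys K E rk)

/-- the generators: diagonal entries and edge entries -/
noncomputable def gen : Par E → MvPolynomial (Par E) K :=
  Sum.elim (fun v => S.s v v) (fun e => S.s e.1.1 e.1.2)

/-- exponents of the leading forms of the generators -/
noncomputable def del : Par E → (Par E →₀ ℕ) :=
  Sum.elim (fun v => Finsupp.single (Sum.inl v) 1)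
    (fun e => Finsupp.single (Sum.inl e.1.1) 1 + Finsupp.single (Sum.inr e) 1)

/-- monomials in the generators -/
noncomputable def GG (α : Par E →₀ ℕ) : MvPolynomial (Par E) K :=
  α.prod (fun w n => gen K S w ^ n)

/-- exponent of the leading form of `GG` -/
noncomputable def tau (α : Par E →₀ ℕ) : Par E →₀ ℕ := α.sum (fun w n => n • del w)

lemma GG_zero : GG K S 0 = 1 := Finsupp.prod_zero_index

lemma GG_add (α β : Par E →₀ ℕ) : GG K S (α + β) = GG K S α * GG K S β := by
  classical
  unfold GG
  rw [Finsupp.prod_add_index']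
  · intro a; rw [pow_zero]
  · intro a b c; rw [pow_add]

lemma GG_nsmul (n : ℕ) (α : Par E →₀ ℕ) : GG K S (n • α) = GG K S α ^ n := by
  induction n with
  | zero => rw [zero_smul, GG_zero, pow_zero]
  | succ n ih => rw [add_smul, one_smul, GG_add, ih, pow_succ]

lemma tau_add (α β : Par E →₀ ℕ) : tau (α + β) = tau α + tau β := by
  classical
  unfold tau
  rw [Finsupp.sum_add_index']
  · intro a; rw [zero_smul]
  · intro a b c; rw [add_smul]

lemma tau_apply (α : Par E →₀ ℕ) (x : Par E) : tau α x = α.sum (fun w n => n * del w x) := by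
  unfold tau
  rw [Finsupp.sum, Finsupp.sum, Finsupp.finsetSum_apply]
  apply Finset.sum_congr rfl
  intro w _
  simp

lemma tau_inr (α : Par E →₀ ℕ) (e : {p : V × V // E p.1 p.2}) :
    tau α (Sum.inr e) = α (Sum.inr e) := by
  classical
  rw [tau_apply, Finsupp.sum, Finset.sum_eq_single (Sum.inr e)]
  · simp [del]
  · rintro (v | e') _ hb
    · simp [del]
    · have : e' ≠ e := fun h => hb (by rw [h])
      simp [del, this]
  · intro h
    rw [Finsupp.notMem_support_iff.1 h, zero_mul]

lemma tau_injective : Function.Injective (tau : (Par E →₀ ℕ) → (Par E →₀ ℕ)) := by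
  classical
  intro α β h
  have hr : ∀ e, α (Sum.inr e) = β (Sum.inr e) := by
    intro e
    rw [← tau_inr α, ← tau_inr β, h]
  have : Fintype {p : V × V // E p.1 p.2} := Fintype.ofFinite _
  have hs : ∀ (γ : Par E →₀ ℕ) (v : V), tau γ (Sum.inl v) = γ (Sum.inl v) +
      ∑ e : {p : V × V // E p.1 p.2}, γ (Sum.inr e) * del (Sum.inr e) (Sum.inl v) := by
    intro γ v
    rw [tau_apply, Finsupp.sum_fintype _ _ (fun i => by rw [zero_mul]), Fintype.sum_sum_type]
    congr 1
    rw [Finset.sum_eq_single v]
    · simp [del]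
    · intro b _ hb
      have : ¬ (b = v) := hb
      simp [del, Finsupp.single_apply, this]
    · simp
  ext w
  rcases w with v | e
  · have h1 := hs α v
    have h2 := hs β v
    rw [h] at h1
    rw [h1] at h2
    have h3 : ∑ e : {p : V × V // E p.1 p.2}, α (Sum.inr e) * del (Sum.inr e) (Sum.inl v) =
        ∑ e : {p : V × V // E p.1 p.2}, β (Sum.inr e) * del (Sum.inr e) (Sum.inl v) :=
      Finset.sum_congr rfl (fun e _ => by rw [hr])
    omega
  · exact hr e

variable (hE : ∀ i j, E i j → rk i < rk j) (hrk : Function.Injective rk)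

include hE hrk in
lemma low_gen (w : Par E) : low K E (gen K S w) = monomial (del w) 1 := by
  rcases w with v | e
  · exact (low_diag K S v).2
  · have := (low_edge K S hE hrk e.2).2
    change low K E (S.s e.1.1 e.1.2) = monomial (Finsupp.single (Sum.inl e.1.1) 1 +
      Finsupp.single (Sum.inr e) 1) 1
    rw [this, X, X, monomial_mul, one_mul]

/-- `low` as a monoid homomorphism -/
noncomputable def lowHom (E : V → V → Prop) :
    MvPolynomial (Par E) K →* MvPolynomial (Par E) K where
  toFun := low K E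
  map_one' := low_one K E
  map_mul' := low_mul K E

include hE hrk in
lemma low_GG (α : Par E →₀ ℕ) : low K E (GG K S α) = monomial (tau α) 1 := by
  unfold tau
  rw [monomial_finsupp_sum_index, C_1, one_mul]
  change lowHom K E (GG K S α) = _
  unfold GG
  rw [Finsupp.prod, Finsupp.prod, map_prod]
  apply Finset.prod_congr rfl
  intro w _
  rw [map_pow]
  change (low K E (gen K S w)) ^ _ = _
  rw [low_gen K S hE hrk, monomial_pow, one_pow]

include hE hrk in
lemma GG_ne_zero (α : Par E →₀ ℕ) : GG K S α ≠ 0 := by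
  rw [Ne, ← low_eq_zero K E, low_GG K S hE hrk]
  simp

/-- `X` has a power which, up to generators, is a monomial in the generators -/
def Alg (x : MvPolynomial (Par E) K) : Prop :=
  ∃ m : ℕ, 1 ≤ m ∧ ∃ (α β : Par E →₀ ℕ) (c : K), c ≠ 0 ∧ x ^ m * GG K S α = C c * GG K S β

lemma alg_one : Alg K S 1 := ⟨1, le_rfl, 0, 0, 1, one_ne_zero, by simp⟩

lemma alg_gen (w : Par E) : Alg K S (gen K S w) :=
  ⟨1, le_rfl, 0, Finsupp.single w 1, 1, one_ne_zero, by
    rw [GG_zero, mul_one, pow_one, C_1, one_mul, GG, Finsupp.prod_single_index, pow_one]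
    rw [pow_zero]⟩

lemma alg_mul {x y : MvPolynomial (Par E) K} (hx : Alg K S x) (hy : Alg K S y) :
    Alg K S (x * y) := by
  obtain ⟨m, hm, α, β, c, hc, h⟩ := hx
  obtain ⟨m', hm', α', β', c', hc', h'⟩ := hy
  refine ⟨m * m', Nat.mul_pos hm hm', m' • α + m • α', m' • β + m • β', c ^ m' * c' ^ m,
    mul_ne_zero (pow_ne_zero _ hc) (pow_ne_zero _ hc'), ?_⟩
  rw [GG_add, GG_add, GG_nsmul, GG_nsmul, GG_nsmul, GG_nsmul, C_mul, C_pow, C_pow, mul_pow]
  have h1 : (x ^ m * GG K S α) ^ m' = (C c * GG K S β) ^ m' := by rw [h]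
  have h2 : (y ^ m' * GG K S α') ^ m = (C c' * GG K S β') ^ m := by rw [h']
  calc x ^ (m * m') * y ^ (m * m') * (GG K S α ^ m' * GG K S α' ^ m)
      = (x ^ m * GG K S α) ^ m' * (y ^ m' * GG K S α') ^ m := by
        rw [mul_pow, mul_pow, ← pow_mul, ← pow_mul, mul_comm m' m]; ring
    _ = (C c * GG K S β) ^ m' * (C c' * GG K S β') ^ m := by rw [h1, h2]
    _ = _ := by ring

lemma alg_pow {x : MvPolynomial (Par E) K} (hx : Alg K S x) (n : ℕ) : Alg K S (x ^ n) := by
  induction n with
  | zero => rw [pow_zero]; exact alg_one K S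
  | succ n ih => rw [pow_succ]; exact alg_mul K S ih hx

include hE hrk in
lemma alg_monoLow {x : MvPolynomial (Par E) K} (hx : Alg K S x) : MonoLow K x := by
  obtain ⟨m, hm, α, β, c, hc, h⟩ := hx
  have h1 := congrArg (low K E) h
  rw [low_mul, low_pow, low_GG K S hE hrk, low_mul, low_C, low_GG K S hE hrk, C_mul_monomial,
    mul_one] at h1
  apply monoLow_of_dvd K hc (μ := tau β)
  rw [← h1]
  exact Dvd.dvd.mul_right (dvd_pow_self _ (by omega)) _

include hE hrk in
/-- Lemma T -/
theorem eq_of_low_eq {x y : MvPolynomial (Par E) K} (hx : Alg K S x) (hy : Alg K S y)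
    (hxy : low K E x = low K E y) : x = y := by
  have hx0 : x ≠ 0 := by
    obtain ⟨μ, c, hc, h⟩ := alg_monoLow K S hE hrk hx
    rw [Ne, ← low_eq_zero K E, h]; simpa using hc
  have hy0 : y ≠ 0 := by
    rw [Ne, ← low_eq_zero K E, ← hxy, low_eq_zero]; exact hx0
  have hGne := fun γ => GG_ne_zero K S hE hrk γ
  obtain ⟨m, hm, α, β, c, hc, h⟩ := hx
  obtain ⟨m', hm', α', β', c', hc', h'⟩ := hy
  -- common exponent
  obtain ⟨L, hL, a, b, a', b', d, d', hd, hd', e1, e2⟩ : ∃ L : ℕ, L ≠ 0 ∧
      ∃ (a b a' b' : Par E →₀ ℕ) (d d' : K), d ≠ 0 ∧ d' ≠ 0 ∧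
      x ^ L * GG K S a = C d * GG K S b ∧ y ^ L * GG K S a' = C d' * GG K S b' := by
    refine ⟨m * m', Nat.mul_ne_zero (by omega) (by omega), m' • α, m' • β, m • α', m • β',
      c ^ m', c' ^ m, pow_ne_zero _ hc, pow_ne_zero _ hc', ?_, ?_⟩
    · have h1 : (x ^ m * GG K S α) ^ m' = (C c * GG K S β) ^ m' := by rw [h]
      rw [GG_nsmul, GG_nsmul, C_pow, ← mul_pow, ← h1, mul_pow, ← pow_mul]
    · have h2 : (y ^ m' * GG K S α') ^ m = (C c' * GG K S β') ^ m := by rw [h']
      rw [GG_nsmul, GG_nsmul, C_pow, ← mul_pow, ← h2, mul_pow, ← pow_mul, mul_comm m m']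
  have f1 := congrArg (low K E) e1
  have f2 := congrArg (low K E) e2
  rw [low_mul, low_pow, low_GG K S hE hrk, low_mul, low_C, low_GG K S hE hrk, C_mul_monomial,
    mul_one] at f1 f2
  rw [← hxy] at f2
  have f3 : (monomial (tau (b + a')) d : MvPolynomial (Par E) K) =
      monomial (tau (b' + a)) d' := by
    rw [tau_add, tau_add]
    have g1 : (monomial (tau b + tau a') d : MvPolynomial (Par E) K) =
        monomial (tau b) d * monomial (tau a') 1 := by rw [monomial_mul, mul_one]
    have g2 : (monomial (tau b' + tau a) d' : MvPolynomial (Par E) K) =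
        monomial (tau b') d' * monomial (tau a) 1 := by rw [monomial_mul, mul_one]
    rw [g1, g2, ← f1, ← f2]; ring
  rw [monomial_eq_monomial_iff] at f3
  rcases f3 with ⟨f3, f4⟩ | ⟨f3, _⟩
  swap
  · exact absurd f3 hd
  have f5 := tau_injective f3
  subst f4
  have f6 : x ^ L * GG K S a * GG K S b' = y ^ L * GG K S a' * GG K S b := by
    rw [e1, e2]; ring
  have f7 : x ^ L * GG K S (b' + a) = y ^ L * GG K S (b + a') := by
    rw [GG_add, GG_add]
    calc x ^ L * (GG K S b' * GG K S a) = x ^ L * GG K S a * GG K S b' := by ring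
      _ = y ^ L * GG K S a' * GG K S b := f6
      _ = _ := by ring
  rw [← f5] at f7
  have f8 : x ^ L = y ^ L := mul_right_cancel₀ (hGne _) f7
  have d1 : x ∣ y := (IsIntegrallyClosed.pow_dvd_pow_iff hL).1 (by rw [f8])
  have d2 : y ∣ x := (IsIntegrallyClosed.pow_dvd_pow_iff hL).1 (by rw [f8])
  obtain ⟨u, hu⟩ := associated_of_dvd_dvd d1 d2
  obtain ⟨r, _, hr⟩ := isUnit_iff_eq_C_of_isReduced.1 u.isUnit
  rw [hr] at hu
  have h9 := congrArg (low K E) hu
  rw [low_mul, low_C, ← hxy] at h9
  have h10 : low K E x * C r = low K E x * 1 := by rw [h9, mul_one]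
  have h11 := mul_left_cancel₀ (by rw [Ne, low_eq_zero]; exact hx0) h10
  rw [h11, mul_one] at hu
  exact hu

/-! ### the toric hypothesis -/

variable {Z : Type} {ix : V → V → Z}
  (hix : ∀ i j k l, ix i j = ix k l → (i = k ∧ j = l) ∨ (i = l ∧ j = k))
  {φ : MvPolynomial Z K →ₐ[K] MvPolynomial (Par E) K}
  (hφ : ∀ i j, φ (X (ix i j)) = S.s i j)

/-- indices of the chosen coordinates -/
def selIx (ix : V → V → Z) (p q : V) : Option (Par E) → Z
  | none => ix p q
  | some (Sum.inl v) => ix v v
  | some (Sum.inr e) => ix e.1.1 e.1.2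

/-- values of the chosen coordinates -/
noncomputable def selVal (p q : V) : Option (Par E) → MvPolynomial (Par E) K
  | none => S.s p q
  | some w => gen K S w

include hE hix in
lemma selIx_injective {p q : V} (hpq : p ≠ q) (h1 : ¬ E p q) (h2 : ¬ E q p) :
    Function.Injective (selIx (E := E) ix p q) := by
  have hloop : ∀ v, ¬ E v v := fun v h => lt_irrefl _ (hE v v h)
  have hv : ∀ v, ix p q ≠ ix v v := by
    intro v h
    rcases hix _ _ _ _ h with ⟨rfl, rfl⟩ | ⟨rfl, rfl⟩ <;> exact hpq rfl
  have he : ∀ e : {p : V × V // E p.1 p.2}, ix p q ≠ ix e.1.1 e.1.2 := by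
    intro e h
    rcases hix _ _ _ _ h with ⟨rfl, rfl⟩ | ⟨rfl, rfl⟩
    · exact h1 e.2
    · exact h2 e.2
  have hve : ∀ (v : V) (e : {p : V × V // E p.1 p.2}), ix v v ≠ ix e.1.1 e.1.2 := by
    intro v e h
    rcases hix _ _ _ _ h with ⟨h3, h4⟩ | ⟨h3, h4⟩
    · have := e.2; rw [← h3, ← h4] at this; exact hloop _ this
    · have := e.2; rw [← h3, ← h4] at this; exact hloop _ this
  rintro (_ | v | e) (_ | v' | e') h
  · rfl
  · exact absurd h (hv v')
  · exact absurd h (he e')
  · exact absurd h.symm (hv v)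
  · rcases hix _ _ _ _ h with ⟨rfl, _⟩ | ⟨rfl, _⟩ <;> rfl
  · exact absurd h (hve v e')
  · exact absurd h.symm (he e)
  · exact absurd h.symm (hve v' e)
  · rcases hix _ _ _ _ h with ⟨h3, h4⟩ | ⟨h3, h4⟩
    · have : e = e' := Subtype.ext (Prod.ext h3 h4)
      rw [this]
    · exfalso
      have a1 := hE _ _ e.2
      have a2 := hE _ _ e'.2
      rw [h3, h4] at a1
      omega

include hφ in
lemma selVal_eq (p q : V) (o : Option (Par E)) :
    φ (X (selIx ix p q o)) = selVal K S p q o := by
  rcases o with _ | v | e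
  · exact hφ p q
  · exact hφ v v
  · exact hφ e.1.1 e.1.2

lemma exists_relation (x : Option (Par E) → MvPolynomial (Par E) K) :
    ∃ F : MvPolynomial (Option (Par E)) K, F ≠ 0 ∧ aeval x F = 0 := by
  by_contra hcon
  push Not at hcon
  have hind : AlgebraicIndependent K x := by
    rw [algebraicIndependent_iff]
    intro p hp
    by_contra hp0
    exact hcon p hp0 hp
  have h1 := hind.cardinalMk_le_trdeg
  rw [MvPolynomial.trdeg_of_isDomain, Cardinal.lift_id, Cardinal.mk_option] at h1
  have hfin : Finite (Par E) := inferInstance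
  have h2 : Cardinal.mk (Par E) < Cardinal.aleph0 := Cardinal.lt_aleph0_of_finite _
  obtain ⟨n, hn⟩ := Cardinal.lt_aleph0.1 h2
  rw [hn] at h1
  have h3 : ((n + 1 : ℕ) : Cardinal.{0}) ≤ ((n : ℕ) : Cardinal.{0}) := by
    rw [Nat.cast_add, Nat.cast_one]; exact h1
  have h4 : n + 1 ≤ n := Nat.cast_le.1 h3
  omega

include hE hrk in
lemma relR_aux {x : MvPolynomial (Par E) K} (hx : x ≠ 0) {a b : ℕ} {α β : Par E →₀ ℕ} {c : K}
    (h : x ^ a * GG K S α = C c * (x ^ b * GG K S β)) (hab : b < a) : Alg K S x := by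
  refine ⟨a - b, by omega, α, β, c, ?_, ?_⟩
  · rintro rfl
    rw [C_0, zero_mul] at h
    exact mul_ne_zero (pow_ne_zero _ hx) (GG_ne_zero K S hE hrk _) h
  · have hxb : x ^ b ≠ 0 := pow_ne_zero _ hx
    apply mul_left_cancel₀ hxb
    calc x ^ b * (x ^ (a - b) * GG K S α) = x ^ (b + (a - b)) * GG K S α := by
          rw [pow_add]; ring
      _ = x ^ a * GG K S α := by rw [show b + (a - b) = a by omega]
      _ = C c * (x ^ b * GG K S β) := h
      _ = _ := by ring

include hE hrk hix hφ in
/-- Lemma R -/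
theorem relR (hPB : PB φ) {p q : V} (hpq : p ≠ q) (h1 : ¬ E p q) (h2 : ¬ E q p)
    (hne : S.s p q ≠ 0) : Alg K S (S.s p q) := by
  classical
  obtain ⟨F, hF0, hF⟩ := exists_relation K (selVal K S p q)
  have hinj := selIx_injective hE hix hpq h1 h2
  have hcomp : ∀ G : MvPolynomial (Option (Par E)) K,
      φ (rename (selIx ix p q) G) = aeval (selVal K S p q) G := by
    intro G
    have : φ.comp (rename (selIx ix p q)) = aeval (selVal K S p q) := by
      apply MvPolynomial.algHom_ext
      intro o
      rw [AlgHom.comp_apply, rename_X, selVal_eq K S hφ, aeval_X]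
    rw [← this]
    rfl
  have hval : ∀ u : Option (Par E) →₀ ℕ,
      aeval (selVal K S p q) (monomial u (1 : K)) = S.s p q ^ (u none) * GG K S u.some := by
    intro u
    rw [aeval_monomial, map_one, one_mul, Finsupp.prod_option_index]
    · rfl
    · intro o; rw [pow_zero]
    · intro o a b; rw [pow_add]
  set f := rename (selIx ix p q) F with hf
  have hf0 : f ≠ 0 := by
    intro h
    apply hF0
    apply rename_injective _ hinj
    rw [← hf, h, map_zero]
  have hφf : φ f = 0 := by rw [hf, hcomp, hF]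
  have hsupp : ∀ u ∈ f.support, ∃ u0 : Option (Par E) →₀ ℕ,
      u = Finsupp.mapDomain (selIx ix p q) u0 ∧
      φ (monomial u 1) = S.s p q ^ (u0 none) * GG K S u0.some := by
    intro u hu
    rw [hf, support_rename_of_injective hinj, Finset.mem_image] at hu
    obtain ⟨u0, _, rfl⟩ := hu
    refine ⟨u0, rfl, ?_⟩
    rw [← hval, ← hcomp, rename_monomial]
  have hnz : ∀ u ∈ f.support, φ (monomial u 1) ≠ 0 := by
    intro u hu
    obtain ⟨u0, _, h⟩ := hsupp u hu
    rw [h]
    exact mul_ne_zero (pow_ne_zero _ hne) (GG_ne_zero K S hE hrk _)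
  obtain ⟨u, hu, v, hv, huv, c, hc⟩ := hPB f hφf hf0 hnz
  obtain ⟨u0, rfl, hu1⟩ := hsupp u hu
  obtain ⟨v0, rfl, hv1⟩ := hsupp v hv
  have hc0 : c ≠ 0 := by
    rintro rfl
    rw [C_0, zero_mul] at hc
    exact hnz _ hu hc
  rw [hu1, hv1] at hc
  rcases lt_trichotomy (u0 none) (v0 none) with hlt | heq | hgt
  · apply relR_aux K S hE hrk hne (a := v0 none) (b := u0 none) (α := v0.some) (β := u0.some)
      (c := c⁻¹) _ hlt
    rw [hc, ← mul_assoc, ← C_mul, inv_mul_cancel₀ hc0, C_1, one_mul]
  · exfalso
    apply huv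
    congr 1
    rw [heq] at hc
    have h3 : GG K S u0.some = C c * GG K S v0.some := by
      apply mul_left_cancel₀ (pow_ne_zero (v0 none) hne)
      rw [hc]; ring
    have h4 := congrArg (low K E) h3
    rw [low_mul, low_C, low_GG K S hE hrk, low_GG K S hE hrk, C_mul_monomial, mul_one,
      monomial_eq_monomial_iff] at h4
    rcases h4 with ⟨h4, _⟩ | ⟨h4, _⟩
    · have h5 := tau_injective h4
      ext o
      rcases o with _ | w
      · exact heq
      · have := DFunLike.congr_fun h5 w
        simpa using this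
    · exact absurd h4 one_ne_zero
  · exact relR_aux K S hE hrk hne hc hgt

include hE hrk hix hφ in
/-- every nonzero entry is algebraic over the generators in the monomial sense -/
theorem alg_s (hPB : PB φ) {p q : V} (hne : S.s p q ≠ 0) : Alg K S (S.s p q) := by
  by_cases hpq : p = q
  · subst hpq; exact alg_gen K S (Sum.inl p)
  by_cases h1 : E p q
  · exact alg_gen K S (Sum.inr ⟨(p, q), h1⟩)
  by_cases h2 : E q p
  · rw [S.symm]; exact alg_gen K S (Sum.inr ⟨(q, p), h2⟩)
  exact relR K S hE hrk hix hφ hPB hpq h1 h2 hne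

include hE hrk hix hφ in
theorem monoLow_s (hPB : PB φ) {p q : V} (hne : S.s p q ≠ 0) : MonoLow K (S.s p q) :=
  alg_monoLow K S hE hrk (alg_s K S hE hrk hix hφ hPB hne)

include hE hrk hix hφ in
theorem alg_monomial (hPB : PB φ) (hsurj : ∀ z, ∃ i j, z = ix i j) (u : Z →₀ ℕ)
    (hne : φ (monomial u 1) ≠ 0) : Alg K S (φ (monomial u 1)) := by
  classical
  induction u using Finsupp.induction_linear with
  | zero =>
    have : (monomial (0 : Z →₀ ℕ) (1 : K)) = 1 := rfl
    rw [this, map_one]
    exact alg_one K S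
  | add f g hf hg =>
    have : (monomial (f + g) 1 : MvPolynomial Z K) = monomial f 1 * monomial g 1 := by
      rw [monomial_mul, one_mul]
    rw [this, map_mul] at hne ⊢
    exact alg_mul K S (hf (left_ne_zero_of_mul hne)) (hg (right_ne_zero_of_mul hne))
  | single z n =>
    have : (monomial (Finsupp.single z n) 1 : MvPolynomial Z K) = X z ^ n := by
      rw [X_pow_eq_monomial]
    rw [this, map_pow] at hne ⊢
    rcases Nat.eq_zero_or_pos n with h0 | h0
    · subst h0; rw [pow_zero]; exact alg_one K S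
    · apply alg_pow
      obtain ⟨i, j, rfl⟩ := hsurj z
      rw [hφ] at hne ⊢
      exact alg_s K S hE hrk hix hφ hPB (fun h => hne (by rw [h, zero_pow (by omega)]))

include hE hrk hix hφ in
/-- the key relation -/
theorem rel3 (hPB : PB φ) {i j : V} (hij : rk i < rk j) (hnE : ¬ E i j) (hne : S.s i j ≠ 0) :
    ∃ k, E k j ∧ k ≠ i ∧ S.s i j * S.s k k = S.s i k * S.s k j := by
  obtain ⟨k, hkj, hikne, _, hlow, _⟩ := claimU K S hE hrk hij
    (monoLow_s K S hE hrk hix hφ hPB hne)
  refine ⟨k, hkj, fun h => hnE (h ▸ hkj), ?_⟩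
  have hkjne : S.s k j ≠ 0 := by
    rw [Ne, ← low_eq_zero K E, (low_edge K S hE hrk hkj).2]
    exact mul_ne_zero (X_ne_zero _) (X_ne_zero _)
  apply eq_of_low_eq K S hE hrk
  · exact alg_mul K S (alg_s K S hE hrk hix hφ hPB hne)
      (alg_s K S hE hrk hix hφ hPB (s_diag_ne_zero K S k))
  · exact alg_mul K S (alg_s K S hE hrk hix hφ hPB hikne)
      (alg_s K S hE hrk hix hφ hPB hkjne)
  · rw [low_mul, low_mul, hlow, (low_diag K S k).2, (low_edge K S hE hrk hkj).2,
      lam_of_E K hkj]
    ring

end toric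

end Pool.Agent.R841.Dag
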