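import Mathlib

set_option autoImplicit false

/-!
MP_4362c3_ag: the characteristic `p` core and the specialisation argument.
-/

open MvPolynomial

namespace Pool.Agent.R841.Fermat

/-- the Fermat polynomial `∑ xᵢ^m` -/
noncomputable def F (m : ℕ) (R : Type*) [CommSemiring R] : MvPolynomial (Fin m) R :=
  ∑ i, X i ^ m

section charp

variable {κ : Type*} [Field κ] {p : ℕ} [hp : Fact p.Prime] [CharP κ p] {m : ℕ}

/-- the exponent `(c, …, c)` -/
noncomputable def cst (m c : ℕ) : Fin m →₀ ℕ := Finsupp.equivFunOnFinite.symm (fun _ => c)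

@[simp] lemma cst_apply (m c : ℕ) (i : Fin m) : cst m c i = c := rfl

lemma degree_cst (m c : ℕ) : (cst m c).degree = m * c := by
  rw [Finsupp.degree_eq_sum]; simp

lemma F_homog : (F m κ).IsHomogeneous m := by
  apply IsHomogeneous.sum
  intro i _
  have := (isHomogeneous_X κ i).pow m
  rwa [one_mul] at this

lemma coeff_F_pow (a : ℕ) (ha : p - 1 = m * a) (hm : m ≠ 0) :
    coeff (cst m (p - 1)) (F m κ ^ (p - 1)) ≠ 0 := by
  classical
  rw [F, Finset.sum_pow_eq_sum_piAntidiag, coeff_sum]
  rw [Finset.sum_eq_single (fun _ => a)]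
  · have h1 : (∏ i : Fin m, ((X i : MvPolynomial (Fin m) κ) ^ m) ^ a) =
        monomial (cst m (p - 1)) 1 := by
      have h2 : (monomial (cst m (p - 1)) 1 : MvPolynomial (Fin m) κ) =
          ∏ i : Fin m, X i ^ (p - 1) := by
        rw [monomial_eq]
        simp [Finsupp.prod_fintype]
      rw [h2]
      apply Finset.prod_congr rfl
      intro i _
      rw [← pow_mul, ha]
    rw [h1]
    rw [← C_eq_coe_nat, coeff_C_mul, coeff_monomial, if_pos rfl, mul_one]
    intro h0
    have h3 := (CharP.cast_eq_zero_iff κ p _).mp h0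
    have h4 := Nat.multinomial_spec (Finset.univ : Finset (Fin m)) (fun _ => a)
    have h5 : p ∣ (∑ i : Fin m, a).factorial := by
      rw [← h4]; exact h3.mul_left _
    rw [Finset.sum_const, Finset.card_univ, Fintype.card_fin, smul_eq_mul, ← ha] at h5
    have h6 := (hp.out.dvd_factorial).mp h5
    have := hp.out.one_lt
    omega
  · intro k hk hne
    have h1 : (∏ i : Fin m, ((X i : MvPolynomial (Fin m) κ) ^ m) ^ k i) =
        monomial (Finsupp.equivFunOnFinite.symm (fun i => m * k i)) 1 := by
      rw [monomial_eq]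
      simp [Finsupp.prod_fintype, ← pow_mul]
    rw [h1, ← C_eq_coe_nat, coeff_C_mul, coeff_monomial, if_neg, mul_zero]
    intro h2
    apply hne
    funext i
    have h3 := DFunLike.congr_fun h2 i
    simp only [Finsupp.equivFunOnFinite_symm_apply_apply, cst_apply] at h3
    rw [ha] at h3
    exact Nat.eq_of_mul_eq_mul_left (Nat.pos_of_ne_zero hm) h3
  · intro h
    exfalso
    apply h
    rw [Finset.mem_piAntidiag]
    refine ⟨?_, fun i _ => Finset.mem_univ i⟩
    simp [ha]

omit hp in
/-- coefficients of `∂ᵢ G` at exponents which are `-1` modulo `p` vanish -/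
lemma coeff_pderiv_zero (G : MvPolynomial (Fin m) κ) (i : Fin m) (e : Fin m →₀ ℕ)
    (he : p ∣ e i + 1) : coeff e (pderiv i G) = 0 := by
  rw [coeff_pderiv]
  have : ((e i : κ) + 1) = ((e i + 1 : ℕ) : κ) := by push_cast; ring
  rw [this, (CharP.cast_eq_zero_iff κ p _).mpr he, mul_zero]

theorem core (a : ℕ) (ha : p - 1 = m * a) (hm : m ≠ 0) (P : Fin m → MvPolynomial (Fin m) κ)
    (Q : MvPolynomial (Fin m) κ)
    (h : Q ^ 2 = F m κ * ∑ i, (Q * pderiv i (P i) - P i * pderiv i Q)) : Q = 0 := by
  classical
  have hp1 := hp.out.one_lt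
  have hpp : (p : MvPolynomial (Fin m) κ) = 0 := by
    rw [← C_eq_coe_nat, CharP.cast_eq_zero, C_0]
  have hd : ∀ (i : Fin m) (G : MvPolynomial (Fin m) κ), pderiv i (G ^ p) = 0 := by
    intro i G
    rw [pderiv_pow, hpp]; ring
  have h1 : Q ^ p * F m κ ^ (p - 1) =
      ∑ i, pderiv i (P i * Q ^ (p - 1) * F m κ ^ p) := by
    have h2 : ∀ i, pderiv i (P i * Q ^ (p - 1) * F m κ ^ p) =
        F m κ ^ (p - 1) * Q ^ (p - 2) *
          (F m κ * (Q * pderiv i (P i) - P i * pderiv i Q)) := by
      intro i
      rw [pderiv_mul, hd, mul_zero, add_zero, pderiv_mul, pderiv_pow]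
      have e1 : ((p - 1 : ℕ) : MvPolynomial (Fin m) κ) = -1 := by
        have : ((p - 1 : ℕ) : MvPolynomial (Fin m) κ) + 1 = 0 := by
          rw [← hpp]
          have : ((p - 1 + 1 : ℕ) : MvPolynomial (Fin m) κ) = (p : MvPolynomial (Fin m) κ) := by
            congr 1; omega
          rw [← this]; push_cast; ring
        linear_combination this
      rw [e1]
      have e2 : Q ^ (p - 1) = Q ^ (p - 2) * Q := by
        rw [← pow_succ]; congr 1; omega
      have e3 : F m κ ^ p = F m κ ^ (p - 1) * F m κ := by
        rw [← pow_succ]; congr 1; omega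
      have e4 : p - 1 - 1 = p - 2 := by omega
      rw [e4, e2, e3]
      ring
    rw [Finset.sum_congr rfl (fun i _ => h2 i), ← Finset.mul_sum, ← Finset.mul_sum, ← h]
    have e5 : Q ^ p = Q ^ (p - 2) * Q ^ 2 := by
      rw [← pow_add]; congr 1; omega
    rw [e5]; ring
  by_contra hQ
  obtain ⟨α, hα⟩ : ∃ α, coeff α Q ≠ 0 := by
    by_contra h0
    push Not at h0
    apply hQ
    ext α
    rw [h0, coeff_zero]
  have h3 := congrArg (coeff (p • α + cst m (p - 1))) h1
  rw [coeff_sum, Finset.sum_eq_zero] at h3
  · have h4 : Q ^ p = ∑ β ∈ Q.support, monomial (p • β) (coeff β Q ^ p) := by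
      conv_lhs => rw [Q.as_sum]
      rw [sum_pow_char p]
      apply Finset.sum_congr rfl
      intro β _
      rw [monomial_pow]
    rw [h4, Finset.sum_mul, coeff_sum, Finset.sum_eq_single α] at h3
    · rw [coeff_monomial_mul', if_pos (by simp), add_tsub_cancel_left] at h3
      rcases mul_eq_zero.mp h3 with h5 | h5
      · exact hα (pow_eq_zero_iff (by omega) |>.mp h5)
      · exact coeff_F_pow a ha hm h5
    · intro β _ hβ
      rw [coeff_monomial_mul']
      split_ifs with hle
      · have h5 : coeff (p • α + cst m (p - 1) - p • β) (F m κ ^ (p - 1)) = 0 := by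
          by_contra h6
          have h7 : (p • α + cst m (p - 1) - p • β).degree = m * (p - 1) := by
            by_contra h7
            exact h6 (((F_homog (κ := κ) (m := m)).pow (p - 1)).coeff_eq_zero h7)
          apply hβ
          set e := p • α + cst m (p - 1) - p • β with he
          have h8 : e + p • β = p • α + cst m (p - 1) := tsub_add_cancel_of_le hle
          have h9 : ∀ i, p - 1 ≤ e i := by
            intro i
            have h10 : e i + p * β i = p * α i + (p - 1) := by
              have := DFunLike.congr_fun h8 i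
              simpa using this
            by_contra hlt
            push Not at hlt
            have h11 : p * α i < p * β i := by omega
            have h12 : α i + 1 ≤ β i := Nat.lt_of_mul_lt_mul_left h11
            have h13 : p * (α i + 1) ≤ p * β i := Nat.mul_le_mul_left _ h12
            rw [mul_add, mul_one] at h13
            omega
          have h10 : ∑ i, e i = ∑ i : Fin m, (p - 1) := by
            rw [Finsupp.degree_eq_sum] at h7
            rw [h7]; simp
          have h11 : ∀ i ∈ (Finset.univ : Finset (Fin m)), p - 1 = e i :=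
            (Finset.sum_eq_sum_iff_of_le (fun i _ => h9 i)).mp h10.symm
          ext i
          have h12 : e i + p * β i = p * α i + (p - 1) := by
            have := DFunLike.congr_fun h8 i
            simpa using this
          have h13 := h11 i (Finset.mem_univ i)
          have h14 : p * β i = p * α i := by omega
          exact Nat.eq_of_mul_eq_mul_left (by omega) h14
        rw [h5, mul_zero]
      · rfl
    · intro h5
      exact absurd (mem_support_iff.mpr hα) h5
  · intro i _
    apply coeff_pderiv_zero (p := p)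
    simp only [Finsupp.coe_add, Finsupp.coe_smul, Pi.add_apply, Pi.smul_apply, smul_eq_mul,
      cst_apply]
    refine ⟨α i + 1, ?_⟩
    rw [mul_add, mul_one]; omega

end charp

end Pool.Agent.R841.Fermat
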