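import Mathlib

set_option autoImplicit false

/-!
Specialisation of finitely generated subrings of a field of characteristic zero to fields of
characteristic `p`, for all but finitely many primes `p`.
-/

namespace Pool.Agent.R841.Fermat

universe u

lemma exists_field (A : Type u) [CommRing A] [Nontrivial A] [Algebra ℚ A]
    [hFT : Algebra.FiniteType ℚ A] :
    ∃ (E : Type u) (_ : Field E) (_ : Algebra ℚ E) (_ : Algebra.FiniteType ℚ E),
      Nonempty (A →ₐ[ℚ] E) := by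
  obtain ⟨M, hM⟩ := Ideal.exists_maximal A
  have h1 : Algebra.FiniteType ℚ (A ⧸ M) :=
    Algebra.FiniteType.of_surjective (Ideal.Quotient.mkₐ ℚ M) (Ideal.Quotient.mkₐ_surjective ℚ M)
  exact ⟨A ⧸ M, Ideal.Quotient.field M, Ideal.instAlgebraQuotient ℚ M, h1,
    ⟨Ideal.Quotient.mkₐ ℚ M⟩⟩

lemma exists_numField {k : Type u} [Field k] [CharZero k] (s : Finset k) :
    ∃ (E : Type u) (_ : Field E) (_ : Algebra ℚ E) (_ : Algebra.IsAlgebraic ℤ E),
      Nonempty (Algebra.adjoin ℤ (s : Set k) →+* E) := by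
  have hle : ∀ x ∈ Algebra.adjoin ℤ (s : Set k), x ∈ Algebra.adjoin ℚ (s : Set k) := by
    intro x hx
    have h1 : Algebra.adjoin ℤ (s : Set k) ≤
      (Algebra.adjoin ℚ (s : Set k)).restrictScalars ℤ := Algebra.adjoin_le Algebra.subset_adjoin
    exact h1 hx
  have inc : Algebra.adjoin ℤ (s : Set k) →+* Algebra.adjoin ℚ (s : Set k) :=
    (Algebra.adjoin ℤ (s : Set k)).val.toRingHom.codRestrict (Algebra.adjoin ℚ (s : Set k))
      (fun x => hle x.1 x.2)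
  have hFT : Algebra.FiniteType ℚ (Algebra.adjoin ℚ (s : Set k)) :=
    (Subalgebra.fg_iff_finiteType _).mp (Subalgebra.fg_adjoin_finset s)
  obtain ⟨E, _, _, hFT2, ⟨φ⟩⟩ := exists_field (Algebra.adjoin ℚ (s : Set k))
  have hfin : Module.Finite ℚ E := finite_of_finite_type_of_isJacobsonRing ℚ E
  have halgQ : Algebra.IsAlgebraic ℚ E := Algebra.IsAlgebraic.of_finite ℚ E
  have halg : Algebra.IsAlgebraic ℤ E := (IsFractionRing.comap_isAlgebraic_iff (A := ℤ)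
    (K := ℚ) (C := E)).2 halgQ
  exact ⟨E, inferInstance, inferInstance, halg, ⟨(φ : _ →+* E).comp inc⟩⟩

lemma exists_denominator {k : Type u} [Field k] (s : Finset k) (E : Type u) [Field E]
    [Algebra.IsAlgebraic ℤ E] (ψ : Algebra.adjoin ℤ (s : Set k) →+* E) :
    ∃ y : ℤ, y ≠ 0 ∧ ∀ r, ∃ j : ℕ, IsIntegral ℤ (y ^ j • ψ r) := by
  classical
  let T : Finset E := s.attach.image fun x => ψ ⟨x.1, Algebra.subset_adjoin x.2⟩
  obtain ⟨y, hy0, hy⟩ := Algebra.IsAlgebraic.exists_integral_multiples ℤ T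
  refine ⟨y, hy0, ?_⟩
  rintro ⟨x, hx⟩
  refine Algebra.adjoin_induction (R := ℤ) (s := (s : Set k))
    (p := fun x hx => ∃ j : ℕ, IsIntegral ℤ (y ^ j • ψ ⟨x, hx⟩)) ?_ ?_ ?_ ?_ hx
  · intro x hx
    refine ⟨1, ?_⟩
    rw [pow_one]
    apply hy
    exact Finset.mem_image.mpr ⟨⟨x, hx⟩, Finset.mem_attach _ _, rfl⟩
  · intro r
    refine ⟨0, ?_⟩
    rw [pow_zero, one_smul]
    have : ψ ⟨algebraMap ℤ k r, algebraMap_mem _ r⟩ = algebraMap ℤ E r := by
      have h1 : (⟨algebraMap ℤ k r, algebraMap_mem _ r⟩ : Algebra.adjoin ℤ (s : Set k)) =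
        (r : Algebra.adjoin ℤ (s : Set k)) := by
        apply Subtype.ext
        simp
      rw [h1, map_intCast]
      simp
    rw [this]
    exact isIntegral_algebraMap
  · rintro x z hx hz ⟨i, hi⟩ ⟨j, hj⟩
    refine ⟨i + j, ?_⟩
    have h1 : ψ ⟨x + z, add_mem hx hz⟩ = ψ ⟨x, hx⟩ + ψ ⟨z, hz⟩ := by
      rw [← map_add]; rfl
    rw [h1, smul_add]
    apply IsIntegral.add
    · rw [pow_add, mul_comm, mul_smul]
      exact hi.smul _
    · rw [pow_add, mul_smul]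
      exact hj.smul _
  · rintro x z hx hz ⟨i, hi⟩ ⟨j, hj⟩
    refine ⟨i + j, ?_⟩
    have h1 : ψ ⟨x * z, mul_mem hx hz⟩ = ψ ⟨x, hx⟩ * ψ ⟨z, hz⟩ := by
      rw [← map_mul]; rfl
    rw [h1, pow_add, ← smul_mul_smul_comm]
    exact hi.mul hj

lemma nonunit_of {R E : Type u} [CommRing R] [Field E] [Algebra ℚ E] (ψ : R →+* E) (y : ℤ)
    (hall : ∀ r, ∃ j : ℕ, IsIntegral ℤ (y ^ j • ψ r)) (p : ℕ) (hp : p.Prime)
    (hpN : ¬ p ∣ y.natAbs) : ¬ IsUnit (p : R) := by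
  intro hu
  obtain ⟨r, hr⟩ := hu.exists_right_inv
  obtain ⟨j, hj⟩ := hall r
  have h1 : (p : E) * ψ r = 1 := by
    have := congrArg ψ hr
    rwa [map_mul, map_natCast, map_one] at this
  have hp0 : (p : E) ≠ 0 := by
    intro h0
    rw [h0, zero_mul] at h1
    exact zero_ne_one h1
  have h2 : y ^ j • ψ r = algebraMap ℚ E ((y : ℚ) ^ j / p) := by
    rw [map_div₀, map_pow, map_intCast, map_natCast, eq_div_iff hp0, zsmul_eq_mul]
    push_cast
    linear_combination ((y : E) ^ j) * h1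
  rw [h2, isIntegral_algebraMap_iff (algebraMap ℚ E).injective,
    IsIntegrallyClosed.isIntegral_iff] at hj
  obtain ⟨c, hc⟩ := hj
  have hpQ : (p : ℚ) ≠ 0 := Nat.cast_ne_zero.mpr hp.ne_zero
  rw [eq_div_iff hpQ] at hc
  have h3 : c * (p : ℤ) = y ^ j := by
    have h4 : ((c * (p : ℤ) : ℤ) : ℚ) = ((y ^ j : ℤ) : ℚ) := by
      push_cast
      exact hc
    exact_mod_cast h4
  have h4 : (p : ℤ) ∣ y ^ j := ⟨c, by rw [← h3]; ring⟩
  have h5 : (p : ℤ) ∣ y := (Nat.prime_iff_prime_int.mp hp).dvd_of_dvd_pow h4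
  exact hpN (Int.natCast_dvd.mp h5)

lemma exists_charP {R : Type u} [CommRing R] (p : ℕ) (hp : p.Prime) (hnu : ¬ IsUnit (p : R)) :
    ∃ (κ : Type u) (_ : Field κ) (_ : CharP κ p), Nonempty (R →+* κ) := by
  obtain ⟨I, hI, hpI⟩ := exists_max_ideal_of_mem_nonunits hnu
  refine ⟨R ⧸ I, Ideal.Quotient.field I, ?_, ⟨Ideal.Quotient.mk I⟩⟩
  rw [CharP.charP_iff_prime_eq_zero hp]
  have := Ideal.Quotient.eq_zero_iff_mem.mpr hpI
  simpa using this

theorem spec {k : Type u} [Field k] [CharZero k] (s : Finset k) :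
    ∃ N : ℕ, N ≠ 0 ∧ ∀ p : ℕ, p.Prime → ¬ p ∣ N →
      ∃ (κ : Type u) (_ : Field κ) (_ : CharP κ p),
        Nonempty (Algebra.adjoin ℤ (s : Set k) →+* κ) := by
  obtain ⟨E, _, _, halg, ⟨ψ⟩⟩ := exists_numField s
  obtain ⟨y, hy0, hall⟩ := exists_denominator s E ψ
  exact ⟨y.natAbs, Int.natAbs_ne_zero.mpr hy0, fun p hp hpN =>
    exists_charP p hp (nonunit_of ψ y hall p hp hpN)⟩

end Pool.Agent.R841.Fermat
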