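import Mathlib

set_option autoImplicit false
set_option linter.unusedVariables false
set_option linter.unusedTactic false

/-! Decomposition of the three-leaf claw for the group `Z2 x Z2`: the finite case analysis. -/

namespace Pool.Agent.R841.K3

theorem core0 {x00 x01 x02 x03 x10 x11 x12 x13 x20 x21 x22 x23 z00 z01 z02 z03 z10 z11 z12 z13 z20 z21 z22 z23 d : ℕ}
    (hx0 : x00 + x01 + x02 + x03 = d)
    (hx1 : x10 + x11 + x12 + x13 = d)
    (hx2 : x20 + x21 + x22 + x23 = d)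
    (hz0 : z00 + z01 + z02 + z03 = d)
    (hz1 : z10 + z11 + z12 + z13 = d)
    (hz2 : z20 + z21 + z22 + z23 = d)
    (e00 : x01 + x03 = z01 + z03)
    (e01 : x02 + x03 = z11 + z13)
    (e02 : x01 + x02 = z21 + z23)
    (e10 : x11 + x13 = z02 + z03)
    (e11 : x12 + x13 = z12 + z13)
    (e12 : x11 + x12 = z22 + z23)
    (e20 : x21 + x23 = z01 + z02)
    (e21 : x22 + x23 = z11 + z12)
    (e22 : x21 + x22 = z21 + z22)
    (h_x00 : 0 < x00) (h_z00 : 0 < z00)
    (H0 : 0 < x00 → 0 < x10 → 0 < x20 → 0 < z00 → 0 < z10 → 0 < z20 → False)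
    (H1 : 0 < x00 → 0 < x11 → 0 < x21 → 0 < z02 → 0 < z10 → 0 < z22 → False)
    (H2 : 0 < x00 → 0 < x12 → 0 < x22 → 0 < z00 → 0 < z12 → 0 < z22 → False)
    (H3 : 0 < x00 → 0 < x13 → 0 < x23 → 0 < z02 → 0 < z12 → 0 < z20 → False)
    (H4 : 0 < x01 → 0 < x10 → 0 < x21 → 0 < z01 → 0 < z10 → 0 < z21 → False)
    (H5 : 0 < x01 → 0 < x11 → 0 < x20 → 0 < z03 → 0 < z10 → 0 < z23 → False)
    (H6 : 0 < x01 → 0 < x12 → 0 < x23 → 0 < z01 → 0 < z12 → 0 < z23 → False)
    (H7 : 0 < x01 → 0 < x13 → 0 < x22 → 0 < z03 → 0 < z12 → 0 < z21 → False)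
    (H8 : 0 < x02 → 0 < x10 → 0 < x22 → 0 < z00 → 0 < z11 → 0 < z21 → False)
    (H9 : 0 < x02 → 0 < x11 → 0 < x23 → 0 < z02 → 0 < z11 → 0 < z23 → False)
    (H10 : 0 < x02 → 0 < x12 → 0 < x20 → 0 < z00 → 0 < z13 → 0 < z23 → False)
    (H11 : 0 < x02 → 0 < x13 → 0 < x21 → 0 < z02 → 0 < z13 → 0 < z21 → False)
    (H12 : 0 < x03 → 0 < x10 → 0 < x23 → 0 < z01 → 0 < z11 → 0 < z20 → False)
    (H13 : 0 < x03 → 0 < x11 → 0 < x22 → 0 < z03 → 0 < z11 → 0 < z22 → False)
    (H14 : 0 < x03 → 0 < x12 → 0 < x21 → 0 < z01 → 0 < z13 → 0 < z22 → False)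
    (H15 : 0 < x03 → 0 < x13 → 0 < x20 → 0 < z03 → 0 < z13 → 0 < z20 → False)
    : False := by
  rcases Nat.eq_zero_or_pos x10 with h_x10 | h_x10
  · skip
    rcases Nat.eq_zero_or_pos x12 with h_x12 | h_x12
    · skip
      clear H0 H1 H2 H3 H4 H5 H6 H7 H8 H9 H10 H11 H12 H13 H14 H15; omega
    · skip
      rcases Nat.eq_zero_or_pos z12 with h_z12 | h_z12
      · skip
        rcases Nat.eq_zero_or_pos z13 with h_z13 | h_z13
        · skip
          clear H0 H1 H2 H3 H4 H5 H6 H7 H8 H9 H10 H11 H12 H13 H14 H15; omega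
        · skip
          rcases Nat.eq_zero_or_pos x02 with h_x02 | h_x02
          · skip
            clear H0 H1 H2 H3 H4 H5 H6 H7 H8 H9 H10 H11 H12 H13 H14 H15; omega
          · skip
            rcases Nat.eq_zero_or_pos x20 with h_x20 | h_x20
            · skip
              clear H0 H1 H2 H3 H4 H5 H6 H7 H8 H9 H10 H11 H12 H13 H14 H15; omega
            · skip
              rcases Nat.eq_zero_or_pos z23 with h_z23 | h_z23
              · skip
                clear H0 H1 H2 H3 H4 H5 H6 H7 H8 H9 H10 H11 H12 H13 H14 H15; omega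
              · skip
                exact H10 h_x02 h_x12 h_x20 h_z00 h_z13 h_z23
      · skip
        rcases Nat.eq_zero_or_pos z22 with h_z22 | h_z22
        · skip
          rcases Nat.eq_zero_or_pos x13 with h_x13 | h_x13
          · skip
            clear H0 H1 H2 H3 H4 H5 H6 H7 H8 H9 H10 H11 H12 H13 H14 H15; omega
          · skip
            rcases Nat.eq_zero_or_pos x23 with h_x23 | h_x23
            · skip
              clear H0 H1 H2 H3 H4 H5 H6 H7 H8 H9 H10 H11 H12 H13 H14 H15; omega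
            · skip
              rcases Nat.eq_zero_or_pos z02 with h_z02 | h_z02
              · skip
                clear H0 H1 H2 H3 H4 H5 H6 H7 H8 H9 H10 H11 H12 H13 H14 H15; omega
              · skip
                rcases Nat.eq_zero_or_pos z20 with h_z20 | h_z20
                · skip
                  clear H0 H1 H2 H3 H4 H5 H6 H7 H8 H9 H10 H11 H12 H13 H14 H15; omega
                · skip
                  exact H3 h_x00 h_x13 h_x23 h_z02 h_z12 h_z20
        · skip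
          rcases Nat.eq_zero_or_pos x22 with h_x22 | h_x22
          · skip
            rcases Nat.eq_zero_or_pos z13 with h_z13 | h_z13
            · skip
              clear H0 H1 H2 H3 H4 H5 H6 H7 H8 H9 H10 H11 H12 H13 H14 H15; omega
            · skip
              rcases Nat.eq_zero_or_pos z23 with h_z23 | h_z23
              · skip
                clear H0 H1 H2 H3 H4 H5 H6 H7 H8 H9 H10 H11 H12 H13 H14 H15; omega
              · skip
                rcases Nat.eq_zero_or_pos x02 with h_x02 | h_x02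
                · skip
                  clear H0 H1 H2 H3 H4 H5 H6 H7 H8 H9 H10 H11 H12 H13 H14 H15; omega
                · skip
                  rcases Nat.eq_zero_or_pos x20 with h_x20 | h_x20
                  · skip
                    clear H0 H1 H2 H3 H4 H5 H6 H7 H8 H9 H10 H11 H12 H13 H14 H15; omega
                  · skip
                    exact H10 h_x02 h_x12 h_x20 h_z00 h_z13 h_z23
          · skip
            exact H2 h_x00 h_x12 h_x22 h_z00 h_z12 h_z22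
  · skip
    rcases Nat.eq_zero_or_pos x20 with h_x20 | h_x20
    · skip
      rcases Nat.eq_zero_or_pos x22 with h_x22 | h_x22
      · skip
        clear H0 H1 H2 H3 H4 H5 H6 H7 H8 H9 H10 H11 H12 H13 H14 H15; omega
      · skip
        rcases Nat.eq_zero_or_pos z11 with h_z11 | h_z11
        · skip
          rcases Nat.eq_zero_or_pos z12 with h_z12 | h_z12
          · skip
            clear H0 H1 H2 H3 H4 H5 H6 H7 H8 H9 H10 H11 H12 H13 H14 H15; omega
          · skip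
            rcases Nat.eq_zero_or_pos x12 with h_x12 | h_x12
            · skip
              clear H0 H1 H2 H3 H4 H5 H6 H7 H8 H9 H10 H11 H12 H13 H14 H15; omega
            · skip
              rcases Nat.eq_zero_or_pos z22 with h_z22 | h_z22
              · skip
                clear H0 H1 H2 H3 H4 H5 H6 H7 H8 H9 H10 H11 H12 H13 H14 H15; omega
              · skip
                exact H2 h_x00 h_x12 h_x22 h_z00 h_z12 h_z22
        · skip
          rcases Nat.eq_zero_or_pos z21 with h_z21 | h_z21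
          · skip
            rcases Nat.eq_zero_or_pos z22 with h_z22 | h_z22
            · skip
              clear H0 H1 H2 H3 H4 H5 H6 H7 H8 H9 H10 H11 H12 H13 H14 H15; omega
            · skip
              rcases Nat.eq_zero_or_pos x12 with h_x12 | h_x12
              · skip
                clear H0 H1 H2 H3 H4 H5 H6 H7 H8 H9 H10 H11 H12 H13 H14 H15; omega
              · skip
                rcases Nat.eq_zero_or_pos z12 with h_z12 | h_z12
                · skip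
                  clear H0 H1 H2 H3 H4 H5 H6 H7 H8 H9 H10 H11 H12 H13 H14 H15; omega
                · skip
                  exact H2 h_x00 h_x12 h_x22 h_z00 h_z12 h_z22
          · skip
            rcases Nat.eq_zero_or_pos x02 with h_x02 | h_x02
            · skip
              rcases Nat.eq_zero_or_pos z12 with h_z12 | h_z12
              · skip
                clear H0 H1 H2 H3 H4 H5 H6 H7 H8 H9 H10 H11 H12 H13 H14 H15; omega
              · skip
                rcases Nat.eq_zero_or_pos z22 with h_z22 | h_z22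
                · skip
                  clear H0 H1 H2 H3 H4 H5 H6 H7 H8 H9 H10 H11 H12 H13 H14 H15; omega
                · skip
                  rcases Nat.eq_zero_or_pos x12 with h_x12 | h_x12
                  · skip
                    clear H0 H1 H2 H3 H4 H5 H6 H7 H8 H9 H10 H11 H12 H13 H14 H15; omega
                  · skip
                    exact H2 h_x00 h_x12 h_x22 h_z00 h_z12 h_z22
            · skip
              exact H8 h_x02 h_x10 h_x22 h_z00 h_z11 h_z21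
    · skip
      rcases Nat.eq_zero_or_pos z10 with h_z10 | h_z10
      · skip
        rcases Nat.eq_zero_or_pos x02 with h_x02 | h_x02
        · skip
          rcases Nat.eq_zero_or_pos z12 with h_z12 | h_z12
          · skip
            clear H0 H1 H2 H3 H4 H5 H6 H7 H8 H9 H10 H11 H12 H13 H14 H15; omega
          · skip
            rcases Nat.eq_zero_or_pos x12 with h_x12 | h_x12
            · skip
              clear H0 H1 H2 H3 H4 H5 H6 H7 H8 H9 H10 H11 H12 H13 H14 H15; omega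
            · skip
              rcases Nat.eq_zero_or_pos x22 with h_x22 | h_x22
              · skip
                clear H0 H1 H2 H3 H4 H5 H6 H7 H8 H9 H10 H11 H12 H13 H14 H15; omega
              · skip
                rcases Nat.eq_zero_or_pos z22 with h_z22 | h_z22
                · skip
                  clear H0 H1 H2 H3 H4 H5 H6 H7 H8 H9 H10 H11 H12 H13 H14 H15; omega
                · skip
                  exact H2 h_x00 h_x12 h_x22 h_z00 h_z12 h_z22
        · skip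
          rcases Nat.eq_zero_or_pos x12 with h_x12 | h_x12
          · skip
            rcases Nat.eq_zero_or_pos z11 with h_z11 | h_z11
            · skip
              clear H0 H1 H2 H3 H4 H5 H6 H7 H8 H9 H10 H11 H12 H13 H14 H15; omega
            · skip
              rcases Nat.eq_zero_or_pos x22 with h_x22 | h_x22
              · skip
                clear H0 H1 H2 H3 H4 H5 H6 H7 H8 H9 H10 H11 H12 H13 H14 H15; omega
              · skip
                rcases Nat.eq_zero_or_pos z21 with h_z21 | h_z21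
                · skip
                  clear H0 H1 H2 H3 H4 H5 H6 H7 H8 H9 H10 H11 H12 H13 H14 H15; omega
                · skip
                  exact H8 h_x02 h_x10 h_x22 h_z00 h_z11 h_z21
          · skip
            rcases Nat.eq_zero_or_pos z13 with h_z13 | h_z13
            · skip
              clear H0 H1 H2 H3 H4 H5 H6 H7 H8 H9 H10 H11 H12 H13 H14 H15; omega
            · skip
              rcases Nat.eq_zero_or_pos z23 with h_z23 | h_z23
              · skip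
                rcases Nat.eq_zero_or_pos x22 with h_x22 | h_x22
                · skip
                  clear H0 H1 H2 H3 H4 H5 H6 H7 H8 H9 H10 H11 H12 H13 H14 H15; omega
                · skip
                  rcases Nat.eq_zero_or_pos z11 with h_z11 | h_z11
                  · skip
                    clear H0 H1 H2 H3 H4 H5 H6 H7 H8 H9 H10 H11 H12 H13 H14 H15; omega
                  · skip
                    rcases Nat.eq_zero_or_pos z21 with h_z21 | h_z21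
                    · skip
                      clear H0 H1 H2 H3 H4 H5 H6 H7 H8 H9 H10 H11 H12 H13 H14 H15; omega
                    · skip
                      exact H8 h_x02 h_x10 h_x22 h_z00 h_z11 h_z21
              · skip
                exact H10 h_x02 h_x12 h_x20 h_z00 h_z13 h_z23
      · skip
        rcases Nat.eq_zero_or_pos z20 with h_z20 | h_z20
        · skip
          rcases Nat.eq_zero_or_pos x01 with h_x01 | h_x01
          · skip
            rcases Nat.eq_zero_or_pos x02 with h_x02 | h_x02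
            · skip
              clear H0 H1 H2 H3 H4 H5 H6 H7 H8 H9 H10 H11 H12 H13 H14 H15; omega
            · skip
              rcases Nat.eq_zero_or_pos x12 with h_x12 | h_x12
              · skip
                clear H0 H1 H2 H3 H4 H5 H6 H7 H8 H9 H10 H11 H12 H13 H14 H15; omega
              · skip
                rcases Nat.eq_zero_or_pos z13 with h_z13 | h_z13
                · skip
                  clear H0 H1 H2 H3 H4 H5 H6 H7 H8 H9 H10 H11 H12 H13 H14 H15; omega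
                · skip
                  rcases Nat.eq_zero_or_pos z23 with h_z23 | h_z23
                  · skip
                    clear H0 H1 H2 H3 H4 H5 H6 H7 H8 H9 H10 H11 H12 H13 H14 H15; omega
                  · skip
                    exact H10 h_x02 h_x12 h_x20 h_z00 h_z13 h_z23
          · skip
            rcases Nat.eq_zero_or_pos x11 with h_x11 | h_x11
            · skip
              rcases Nat.eq_zero_or_pos z21 with h_z21 | h_z21
              · skip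
                clear H0 H1 H2 H3 H4 H5 H6 H7 H8 H9 H10 H11 H12 H13 H14 H15; omega
              · skip
                rcases Nat.eq_zero_or_pos x21 with h_x21 | h_x21
                · skip
                  clear H0 H1 H2 H3 H4 H5 H6 H7 H8 H9 H10 H11 H12 H13 H14 H15; omega
                · skip
                  rcases Nat.eq_zero_or_pos z01 with h_z01 | h_z01
                  · skip
                    clear H0 H1 H2 H3 H4 H5 H6 H7 H8 H9 H10 H11 H12 H13 H14 H15; omega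
                  · skip
                    exact H4 h_x01 h_x10 h_x21 h_z01 h_z10 h_z21
            · skip
              rcases Nat.eq_zero_or_pos z23 with h_z23 | h_z23
              · skip
                clear H0 H1 H2 H3 H4 H5 H6 H7 H8 H9 H10 H11 H12 H13 H14 H15; omega
              · skip
                rcases Nat.eq_zero_or_pos z03 with h_z03 | h_z03
                · skip
                  rcases Nat.eq_zero_or_pos x02 with h_x02 | h_x02
                  · skip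
                    clear H0 H1 H2 H3 H4 H5 H6 H7 H8 H9 H10 H11 H12 H13 H14 H15; omega
                  · skip
                    rcases Nat.eq_zero_or_pos x12 with h_x12 | h_x12
                    · skip
                      clear H0 H1 H2 H3 H4 H5 H6 H7 H8 H9 H10 H11 H12 H13 H14 H15; omega
                    · skip
                      rcases Nat.eq_zero_or_pos z13 with h_z13 | h_z13
                      · skip
                        clear H0 H1 H2 H3 H4 H5 H6 H7 H8 H9 H10 H11 H12 H13 H14 H15; omega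
                      · skip
                        exact H10 h_x02 h_x12 h_x20 h_z00 h_z13 h_z23
                · skip
                  exact H5 h_x01 h_x11 h_x20 h_z03 h_z10 h_z23
        · skip
          exact H0 h_x00 h_x10 h_x20 h_z00 h_z10 h_z20


theorem core {x00 x01 x02 x03 x10 x11 x12 x13 x20 x21 x22 x23 z00 z01 z02 z03 z10 z11 z12 z13 z20 z21 z22 z23 d : ℕ}
    (hx0 : x00 + x01 + x02 + x03 = d)
    (hx1 : x10 + x11 + x12 + x13 = d)
    (hx2 : x20 + x21 + x22 + x23 = d)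
    (hz0 : z00 + z01 + z02 + z03 = d)
    (hz1 : z10 + z11 + z12 + z13 = d)
    (hz2 : z20 + z21 + z22 + z23 = d)
    (e00 : x01 + x03 = z01 + z03)
    (e01 : x02 + x03 = z11 + z13)
    (e02 : x01 + x02 = z21 + z23)
    (e10 : x11 + x13 = z02 + z03)
    (e11 : x12 + x13 = z12 + z13)
    (e12 : x11 + x12 = z22 + z23)
    (e20 : x21 + x23 = z01 + z02)
    (e21 : x22 + x23 = z11 + z12)
    (e22 : x21 + x22 = z21 + z22)
    (hd : 0 < d)
    (H0 : 0 < x00 → 0 < x10 → 0 < x20 → 0 < z00 → 0 < z10 → 0 < z20 → False)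
    (H1 : 0 < x00 → 0 < x11 → 0 < x21 → 0 < z02 → 0 < z10 → 0 < z22 → False)
    (H2 : 0 < x00 → 0 < x12 → 0 < x22 → 0 < z00 → 0 < z12 → 0 < z22 → False)
    (H3 : 0 < x00 → 0 < x13 → 0 < x23 → 0 < z02 → 0 < z12 → 0 < z20 → False)
    (H4 : 0 < x01 → 0 < x10 → 0 < x21 → 0 < z01 → 0 < z10 → 0 < z21 → False)
    (H5 : 0 < x01 → 0 < x11 → 0 < x20 → 0 < z03 → 0 < z10 → 0 < z23 → False)
    (H6 : 0 < x01 → 0 < x12 → 0 < x23 → 0 < z01 → 0 < z12 → 0 < z23 → False)
    (H7 : 0 < x01 → 0 < x13 → 0 < x22 → 0 < z03 → 0 < z12 → 0 < z21 → False)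
    (H8 : 0 < x02 → 0 < x10 → 0 < x22 → 0 < z00 → 0 < z11 → 0 < z21 → False)
    (H9 : 0 < x02 → 0 < x11 → 0 < x23 → 0 < z02 → 0 < z11 → 0 < z23 → False)
    (H10 : 0 < x02 → 0 < x12 → 0 < x20 → 0 < z00 → 0 < z13 → 0 < z23 → False)
    (H11 : 0 < x02 → 0 < x13 → 0 < x21 → 0 < z02 → 0 < z13 → 0 < z21 → False)
    (H12 : 0 < x03 → 0 < x10 → 0 < x23 → 0 < z01 → 0 < z11 → 0 < z20 → False)
    (H13 : 0 < x03 → 0 < x11 → 0 < x22 → 0 < z03 → 0 < z11 → 0 < z22 → False)
    (H14 : 0 < x03 → 0 < x12 → 0 < x21 → 0 < z01 → 0 < z13 → 0 < z22 → False)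
    (H15 : 0 < x03 → 0 < x13 → 0 < x20 → 0 < z03 → 0 < z13 → 0 < z20 → False)
    : False := by
  have h : 0 < x00 ∨ 0 < x01 ∨ 0 < x02 ∨ 0 < x03 := by
    clear H0 H1 H2 H3 H4 H5 H6 H7 H8 H9 H10 H11 H12 H13 H14 H15; omega
  rcases h with ha | ha | ha | ha
  · have h : 0 < z00 ∨ 0 < z02 := by
      clear H0 H1 H2 H3 H4 H5 H6 H7 H8 H9 H10 H11 H12 H13 H14 H15; omega
    rcases h with hb | hb
    · exact core0 (x00 := x00) (x01 := x01) (x02 := x02) (x03 := x03) (x10 := x10) (x11 := x11) (x12 := x12) (x13 := x13) (x20 := x20) (x21 := x21) (x22 := x22) (x23 := x23) (z00 := z00) (z01 := z01) (z02 := z02) (z03 := z03) (z10 := z10) (z11 := z11) (z12 := z12) (z13 := z13) (z20 := z20) (z21 := z21) (z22 := z22) (z23 := z23) (d := d)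
        (by clear H0 H1 H2 H3 H4 H5 H6 H7 H8 H9 H10 H11 H12 H13 H14 H15; omega) (by clear H0 H1 H2 H3 H4 H5 H6 H7 H8 H9 H10 H11 H12 H13 H14 H15; omega) (by clear H0 H1 H2 H3 H4 H5 H6 H7 H8 H9 H10 H11 H12 H13 H14 H15; omega) (by clear H0 H1 H2 H3 H4 H5 H6 H7 H8 H9 H10 H11 H12 H13 H14 H15; omega) (by clear H0 H1 H2 H3 H4 H5 H6 H7 H8 H9 H10 H11 H12 H13 H14 H15; omega) (by clear H0 H1 H2 H3 H4 H5 H6 H7 H8 H9 H10 H11 H12 H13 H14 H15; omega) (by clear H0 H1 H2 H3 H4 H5 H6 H7 H8 H9 H10 H11 H12 H13 H14 H15; omega) (by clear H0 H1 H2 H3 H4 H5 H6 H7 H8 H9 H10 H11 H12 H13 H14 H15; omega) (by clear H0 H1 H2 H3 H4 H5 H6 H7 H8 H9 H10 H11 H12 H13 H14 H15; omega) (by clear H0 H1 H2 H3 H4 H5 H6 H7 H8 H9 H10 H11 H12 H13 H14 H15; omega) (by clear H0 H1 H2 H3 H4 H5 H6 H7 H8 H9 H10 H11 H12 H13 H14 H15; omega) (by clear H0 H1 H2 H3 H4 H5 H6 H7 H8 H9 H10 H11 H12 H13 H14 H15; omega) (by clear H0 H1 H2 H3 H4 H5 H6 H7 H8 H9 H10 H11 H12 H13 H14 H15; omega)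 (by clear H0 H1 H2 H3 H4 H5 H6 H7 H8 H9 H10 H11 H12 H13 H14 H15; omega) (by clear H0 H1 H2 H3 H4 H5 H6 H7 H8 H9 H10 H11 H12 H13 H14 H15; omega) ha hb H0 H1 H2 H3 H4 H5 H6 H7 H8 H9 H10 H11 H12 H13 H14 H15
    · exact core0 (x00 := x00) (x01 := x01) (x02 := x02) (x03 := x03) (x10 := x11) (x11 := x10) (x12 := x13) (x13 := x12) (x20 := x21) (x21 := x20) (x22 := x23) (x23 := x22) (z00 := z02) (z01 := z03) (z02 := z00) (z03 := z01) (z10 := z10) (z11 := z11) (z12 := z12) (z13 := z13) (z20 := z22) (z21 := z23) (z22 := z20) (z23 := z21) (d := d)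
        (by clear H0 H1 H2 H3 H4 H5 H6 H7 H8 H9 H10 H11 H12 H13 H14 H15; omega) (by clear H0 H1 H2 H3 H4 H5 H6 H7 H8 H9 H10 H11 H12 H13 H14 H15; omega) (by clear H0 H1 H2 H3 H4 H5 H6 H7 H8 H9 H10 H11 H12 H13 H14 H15; omega) (by clear H0 H1 H2 H3 H4 H5 H6 H7 H8 H9 H10 H11 H12 H13 H14 H15; omega) (by clear H0 H1 H2 H3 H4 H5 H6 H7 H8 H9 H10 H11 H12 H13 H14 H15; omega) (by clear H0 H1 H2 H3 H4 H5 H6 H7 H8 H9 H10 H11 H12 H13 H14 H15; omega) (by clear H0 H1 H2 H3 H4 H5 H6 H7 H8 H9 H10 H11 H12 H13 H14 H15; omega) (by clear H0 H1 H2 H3 H4 H5 H6 H7 H8 H9 H10 H11 H12 H13 H14 H15; omega) (by clear H0 H1 H2 H3 H4 H5 H6 H7 H8 H9 H10 H11 H12 H13 H14 H15; omega) (by clear H0 H1 H2 H3 H4 H5 H6 H7 H8 H9 H10 H11 H12 H13 H14 H15; omega) (by clear H0 H1 H2 H3 H4 H5 H6 H7 H8 H9 H10 H11 H12 H13 H14 H15; omega) (by clear H0 H1 H2 H3 H4 H5 H6 H7 H8 H9 H10 H11 H12 H13 H14 H15; omega) (by clear H0 H1 H2 H3 H4 H5 H6 H7 H8 H9 H10 H11 H12 H13 H14 H15; omega)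 (by clear H0 H1 H2 H3 H4 H5 H6 H7 H8 H9 H10 H11 H12 H13 H14 H15; omega) (by clear H0 H1 H2 H3 H4 H5 H6 H7 H8 H9 H10 H11 H12 H13 H14 H15; omega) ha hb H1 H0 H3 H2 H5 H4 H7 H6 H9 H8 H11 H10 H13 H12 H15 H14
  · have h : 0 < z01 ∨ 0 < z03 := by
      clear H0 H1 H2 H3 H4 H5 H6 H7 H8 H9 H10 H11 H12 H13 H14 H15; omega
    rcases h with hb | hb
    · exact core0 (x00 := x01) (x01 := x00) (x02 := x03) (x03 := x02) (x10 := x10) (x11 := x11) (x12 := x12) (x13 := x13) (x20 := x21) (x21 := x20) (x22 := x23) (x23 := x22) (z00 := z01) (z01 := z00) (z02 := z03) (z03 := z02) (z10 := z10) (z11 := z11) (z12 := z12) (z13 := z13) (z20 := z21) (z21 := z20) (z22 := z23) (z23 := z22) (d := d)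
        (by clear H0 H1 H2 H3 H4 H5 H6 H7 H8 H9 H10 H11 H12 H13 H14 H15; omega) (by clear H0 H1 H2 H3 H4 H5 H6 H7 H8 H9 H10 H11 H12 H13 H14 H15; omega) (by clear H0 H1 H2 H3 H4 H5 H6 H7 H8 H9 H10 H11 H12 H13 H14 H15; omega) (by clear H0 H1 H2 H3 H4 H5 H6 H7 H8 H9 H10 H11 H12 H13 H14 H15; omega) (by clear H0 H1 H2 H3 H4 H5 H6 H7 H8 H9 H10 H11 H12 H13 H14 H15; omega) (by clear H0 H1 H2 H3 H4 H5 H6 H7 H8 H9 H10 H11 H12 H13 H14 H15; omega) (by clear H0 H1 H2 H3 H4 H5 H6 H7 H8 H9 H10 H11 H12 H13 H14 H15; omega) (by clear H0 H1 H2 H3 H4 H5 H6 H7 H8 H9 H10 H11 H12 H13 H14 H15; omega) (by clear H0 H1 H2 H3 H4 H5 H6 H7 H8 H9 H10 H11 H12 H13 H14 H15; omega) (by clear H0 H1 H2 H3 H4 H5 H6 H7 H8 H9 H10 H11 H12 H13 H14 H15; omega) (by clear H0 H1 H2 H3 H4 H5 H6 H7 H8 H9 H10 H11 H12 H13 H14 H15; omega) (by clear H0 H1 H2 H3 H4 H5 H6 H7 H8 H9 H10 H11 H12 H13 H14 H15; omega) (by clear H0 H1 H2 H3 H4 H5 H6 H7 H8 H9 H10 H11 H12 H13 H14 H15; omega)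 (by clear H0 H1 H2 H3 H4 H5 H6 H7 H8 H9 H10 H11 H12 H13 H14 H15; omega) (by clear H0 H1 H2 H3 H4 H5 H6 H7 H8 H9 H10 H11 H12 H13 H14 H15; omega) ha hb H4 H5 H6 H7 H0 H1 H2 H3 H12 H13 H14 H15 H8 H9 H10 H11
    · exact core0 (x00 := x01) (x01 := x00) (x02 := x03) (x03 := x02) (x10 := x11) (x11 := x10) (x12 := x13) (x13 := x12) (x20 := x20) (x21 := x21) (x22 := x22) (x23 := x23) (z00 := z03) (z01 := z02) (z02 := z01) (z03 := z00) (z10 := z10) (z11 := z11) (z12 := z12) (z13 := z13) (z20 := z23) (z21 := z22) (z22 := z21) (z23 := z20) (d := d)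
        (by clear H0 H1 H2 H3 H4 H5 H6 H7 H8 H9 H10 H11 H12 H13 H14 H15; omega) (by clear H0 H1 H2 H3 H4 H5 H6 H7 H8 H9 H10 H11 H12 H13 H14 H15; omega) (by clear H0 H1 H2 H3 H4 H5 H6 H7 H8 H9 H10 H11 H12 H13 H14 H15; omega) (by clear H0 H1 H2 H3 H4 H5 H6 H7 H8 H9 H10 H11 H12 H13 H14 H15; omega) (by clear H0 H1 H2 H3 H4 H5 H6 H7 H8 H9 H10 H11 H12 H13 H14 H15; omega) (by clear H0 H1 H2 H3 H4 H5 H6 H7 H8 H9 H10 H11 H12 H13 H14 H15; omega) (by clear H0 H1 H2 H3 H4 H5 H6 H7 H8 H9 H10 H11 H12 H13 H14 H15; omega) (by clear H0 H1 H2 H3 H4 H5 H6 H7 H8 H9 H10 H11 H12 H13 H14 H15; omega) (by clear H0 H1 H2 H3 H4 H5 H6 H7 H8 H9 H10 H11 H12 H13 H14 H15; omega) (by clear H0 H1 H2 H3 H4 H5 H6 H7 H8 H9 H10 H11 H12 H13 H14 H15; omega) (by clear H0 H1 H2 H3 H4 H5 H6 H7 H8 H9 H10 H11 H12 H13 H14 H15; omega) (by clear H0 H1 H2 H3 H4 H5 H6 H7 H8 H9 H10 H11 H12 H13 H14 H15; omega) (by clear H0 H1 H2 H3 H4 H5 H6 H7 H8 H9 H10 H11 H12 H13 H14 H15; omega)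 (by clear H0 H1 H2 H3 H4 H5 H6 H7 H8 H9 H10 H11 H12 H13 H14 H15; omega) (by clear H0 H1 H2 H3 H4 H5 H6 H7 H8 H9 H10 H11 H12 H13 H14 H15; omega) ha hb H5 H4 H7 H6 H1 H0 H3 H2 H13 H12 H15 H14 H9 H8 H11 H10
  · have h : 0 < z00 ∨ 0 < z02 := by
      clear H0 H1 H2 H3 H4 H5 H6 H7 H8 H9 H10 H11 H12 H13 H14 H15; omega
    rcases h with hb | hb
    · exact core0 (x00 := x02) (x01 := x03) (x02 := x00) (x03 := x01) (x10 := x10) (x11 := x11) (x12 := x12) (x13 := x13) (x20 := x22) (x21 := x23) (x22 := x20) (x23 := x21) (z00 := z00) (z01 := z01) (z02 := z02) (z03 := z03) (z10 := z11) (z11 := z10) (z12 := z13) (z13 := z12) (z20 := z21) (z21 := z20) (z22 := z23) (z23 := z22) (d := d)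
        (by clear H0 H1 H2 H3 H4 H5 H6 H7 H8 H9 H10 H11 H12 H13 H14 H15; omega) (by clear H0 H1 H2 H3 H4 H5 H6 H7 H8 H9 H10 H11 H12 H13 H14 H15; omega) (by clear H0 H1 H2 H3 H4 H5 H6 H7 H8 H9 H10 H11 H12 H13 H14 H15; omega) (by clear H0 H1 H2 H3 H4 H5 H6 H7 H8 H9 H10 H11 H12 H13 H14 H15; omega) (by clear H0 H1 H2 H3 H4 H5 H6 H7 H8 H9 H10 H11 H12 H13 H14 H15; omega) (by clear H0 H1 H2 H3 H4 H5 H6 H7 H8 H9 H10 H11 H12 H13 H14 H15; omega) (by clear H0 H1 H2 H3 H4 H5 H6 H7 H8 H9 H10 H11 H12 H13 H14 H15; omega) (by clear H0 H1 H2 H3 H4 H5 H6 H7 H8 H9 H10 H11 H12 H13 H14 H15; omega) (by clear H0 H1 H2 H3 H4 H5 H6 H7 H8 H9 H10 H11 H12 H13 H14 H15; omega) (by clear H0 H1 H2 H3 H4 H5 H6 H7 H8 H9 H10 H11 H12 H13 H14 H15; omega) (by clear H0 H1 H2 H3 H4 H5 H6 H7 H8 H9 H10 H11 H12 H13 H14 H15; omega) (by clear H0 H1 H2 H3 H4 H5 H6 H7 H8 H9 H10 H11 H12 H13 H14 H15; omega) (by clear H0 H1 H2 H3 H4 H5 H6 H7 H8 H9 H10 H11 H12 H13 H14 H15; omega)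 (by clear H0 H1 H2 H3 H4 H5 H6 H7 H8 H9 H10 H11 H12 H13 H14 H15; omega) (by clear H0 H1 H2 H3 H4 H5 H6 H7 H8 H9 H10 H11 H12 H13 H14 H15; omega) ha hb H8 H9 H10 H11 H12 H13 H14 H15 H0 H1 H2 H3 H4 H5 H6 H7
    · exact core0 (x00 := x02) (x01 := x03) (x02 := x00) (x03 := x01) (x10 := x11) (x11 := x10) (x12 := x13) (x13 := x12) (x20 := x23) (x21 := x22) (x22 := x21) (x23 := x20) (z00 := z02) (z01 := z03) (z02 := z00) (z03 := z01) (z10 := z11) (z11 := z10) (z12 := z13) (z13 := z12) (z20 := z23) (z21 := z22) (z22 := z21) (z23 := z20) (d := d)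
        (by clear H0 H1 H2 H3 H4 H5 H6 H7 H8 H9 H10 H11 H12 H13 H14 H15; omega) (by clear H0 H1 H2 H3 H4 H5 H6 H7 H8 H9 H10 H11 H12 H13 H14 H15; omega) (by clear H0 H1 H2 H3 H4 H5 H6 H7 H8 H9 H10 H11 H12 H13 H14 H15; omega) (by clear H0 H1 H2 H3 H4 H5 H6 H7 H8 H9 H10 H11 H12 H13 H14 H15; omega) (by clear H0 H1 H2 H3 H4 H5 H6 H7 H8 H9 H10 H11 H12 H13 H14 H15; omega) (by clear H0 H1 H2 H3 H4 H5 H6 H7 H8 H9 H10 H11 H12 H13 H14 H15; omega) (by clear H0 H1 H2 H3 H4 H5 H6 H7 H8 H9 H10 H11 H12 H13 H14 H15; omega) (by clear H0 H1 H2 H3 H4 H5 H6 H7 H8 H9 H10 H11 H12 H13 H14 H15; omega) (by clear H0 H1 H2 H3 H4 H5 H6 H7 H8 H9 H10 H11 H12 H13 H14 H15; omega) (by clear H0 H1 H2 H3 H4 H5 H6 H7 H8 H9 H10 H11 H12 H13 H14 H15; omega) (by clear H0 H1 H2 H3 H4 H5 H6 H7 H8 H9 H10 H11 H12 H13 H14 H15; omega) (by clear H0 H1 H2 H3 H4 H5 H6 H7 H8 H9 H10 H11 H12 H13 H14 H15; omega) (by clear H0 H1 H2 H3 H4 H5 H6 H7 H8 H9 H10 H11 H12 H13 H14 H15; omega)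 (by clear H0 H1 H2 H3 H4 H5 H6 H7 H8 H9 H10 H11 H12 H13 H14 H15; omega) (by clear H0 H1 H2 H3 H4 H5 H6 H7 H8 H9 H10 H11 H12 H13 H14 H15; omega) ha hb H9 H8 H11 H10 H13 H12 H15 H14 H1 H0 H3 H2 H5 H4 H7 H6
  · have h : 0 < z01 ∨ 0 < z03 := by
      clear H0 H1 H2 H3 H4 H5 H6 H7 H8 H9 H10 H11 H12 H13 H14 H15; omega
    rcases h with hb | hb
    · exact core0 (x00 := x03) (x01 := x02) (x02 := x01) (x03 := x00) (x10 := x10) (x11 := x11) (x12 := x12) (x13 := x13) (x20 := x23) (x21 := x22) (x22 := x21) (x23 := x20) (z00 := z01) (z01 := z00) (z02 := z03) (z03 := z02) (z10 := z11) (z11 := z10) (z12 := z13) (z13 := z12) (z20 := z20) (z21 := z21) (z22 := z22) (z23 := z23) (d := d)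
        (by clear H0 H1 H2 H3 H4 H5 H6 H7 H8 H9 H10 H11 H12 H13 H14 H15; omega) (by clear H0 H1 H2 H3 H4 H5 H6 H7 H8 H9 H10 H11 H12 H13 H14 H15; omega) (by clear H0 H1 H2 H3 H4 H5 H6 H7 H8 H9 H10 H11 H12 H13 H14 H15; omega) (by clear H0 H1 H2 H3 H4 H5 H6 H7 H8 H9 H10 H11 H12 H13 H14 H15; omega) (by clear H0 H1 H2 H3 H4 H5 H6 H7 H8 H9 H10 H11 H12 H13 H14 H15; omega) (by clear H0 H1 H2 H3 H4 H5 H6 H7 H8 H9 H10 H11 H12 H13 H14 H15; omega) (by clear H0 H1 H2 H3 H4 H5 H6 H7 H8 H9 H10 H11 H12 H13 H14 H15; omega) (by clear H0 H1 H2 H3 H4 H5 H6 H7 H8 H9 H10 H11 H12 H13 H14 H15; omega) (by clear H0 H1 H2 H3 H4 H5 H6 H7 H8 H9 H10 H11 H12 H13 H14 H15; omega) (by clear H0 H1 H2 H3 H4 H5 H6 H7 H8 H9 H10 H11 H12 H13 H14 H15; omega) (by clear H0 H1 H2 H3 H4 H5 H6 H7 H8 H9 H10 H11 H12 H13 H14 H15; omega) (by clear H0 H1 H2 H3 H4 H5 H6 H7 H8 H9 H10 H11 H12 H13 H14 H15; omega) (by clear H0 H1 H2 H3 H4 H5 H6 H7 H8 H9 H10 H11 H12 H13 H14 H15; omega)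 (by clear H0 H1 H2 H3 H4 H5 H6 H7 H8 H9 H10 H11 H12 H13 H14 H15; omega) (by clear H0 H1 H2 H3 H4 H5 H6 H7 H8 H9 H10 H11 H12 H13 H14 H15; omega) ha hb H12 H13 H14 H15 H8 H9 H10 H11 H4 H5 H6 H7 H0 H1 H2 H3
    · exact core0 (x00 := x03) (x01 := x02) (x02 := x01) (x03 := x00) (x10 := x11) (x11 := x10) (x12 := x13) (x13 := x12) (x20 := x22) (x21 := x23) (x22 := x20) (x23 := x21) (z00 := z03) (z01 := z02) (z02 := z01) (z03 := z00) (z10 := z11) (z11 := z10) (z12 := z13) (z13 := z12) (z20 := z22) (z21 := z23) (z22 := z20) (z23 := z21) (d := d)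
        (by clear H0 H1 H2 H3 H4 H5 H6 H7 H8 H9 H10 H11 H12 H13 H14 H15; omega) (by clear H0 H1 H2 H3 H4 H5 H6 H7 H8 H9 H10 H11 H12 H13 H14 H15; omega) (by clear H0 H1 H2 H3 H4 H5 H6 H7 H8 H9 H10 H11 H12 H13 H14 H15; omega) (by clear H0 H1 H2 H3 H4 H5 H6 H7 H8 H9 H10 H11 H12 H13 H14 H15; omega) (by clear H0 H1 H2 H3 H4 H5 H6 H7 H8 H9 H10 H11 H12 H13 H14 H15; omega) (by clear H0 H1 H2 H3 H4 H5 H6 H7 H8 H9 H10 H11 H12 H13 H14 H15; omega) (by clear H0 H1 H2 H3 H4 H5 H6 H7 H8 H9 H10 H11 H12 H13 H14 H15; omega) (by clear H0 H1 H2 H3 H4 H5 H6 H7 H8 H9 H10 H11 H12 H13 H14 H15; omega) (by clear H0 H1 H2 H3 H4 H5 H6 H7 H8 H9 H10 H11 H12 H13 H14 H15; omega) (by clear H0 H1 H2 H3 H4 H5 H6 H7 H8 H9 H10 H11 H12 H13 H14 H15; omega) (by clear H0 H1 H2 H3 H4 H5 H6 H7 H8 H9 H10 H11 H12 H13 H14 H15; omega) (by clear H0 H1 H2 H3 H4 H5 H6 H7 H8 H9 H10 H11 H12 H13 H14 H15; omega) (by clear H0 H1 H2 H3 H4 H5 H6 H7 H8 H9 H10 H11 H12 H13 H14 H15; omega)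 (by clear H0 H1 H2 H3 H4 H5 H6 H7 H8 H9 H10 H11 H12 H13 H14 H15; omega) (by clear H0 H1 H2 H3 H4 H5 H6 H7 H8 H9 H10 H11 H12 H13 H14 H15; omega) ha hb H13 H12 H15 H14 H9 H8 H11 H10 H5 H4 H7 H6 H1 H0 H3 H2



end Pool.Agent.R841.K3
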