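import Mathlib
import Pool.Agent.R841.K3Core

set_option autoImplicit false

/-! Decomposition of the claws for the group `Z2 x Z2`. -/

namespace Pool.Agent.R841.K3

/-- the group -/
abbrev G := ZMod 2 × ZMod 2

/-- the three nontrivial characters, with values `0, 1` -/
def lam (c : Fin 3) (g : G) : ZMod 2 := ![g.1, g.2, g.1 + g.2] c

/-- the characters as natural numbers -/
def lamN (c : Fin 3) (g : G) : ℕ := (lam c g).val

theorem sum_G {M : Type*} [AddCommMonoid M] (f : G → M) :
    ∑ g, f g = f (0, 0) + f (1, 0) + f (0, 1) + f (1, 1) := by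
  have h : (Finset.univ : Finset G) = {(0, 0), (1, 0), (0, 1), (1, 1)} := by decide
  rw [h, Finset.sum_insert (by decide), Finset.sum_insert (by decide),
    Finset.sum_insert (by decide), Finset.sum_singleton]
  simp only [add_assoc]

/-- number of `j` with `φ j = h` -/
def cnt {d : ℕ} (φ : Fin d → G) (h : G) : ℕ := ∑ j, if φ j = h then 1 else 0

theorem cnt_cons {d : ℕ} (a : G) (φ : Fin d → G) (h : G) :
    cnt (Fin.cons a φ : Fin (d + 1) → G) h = (if a = h then 1 else 0) + cnt φ h := by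
  unfold cnt
  rw [Fin.sum_univ_succ]
  simp

theorem cnt_comp {d : ℕ} (φ : Fin d → G) (σ : Equiv.Perm (Fin d)) (h : G) :
    cnt (fun j => φ (σ j)) h = cnt φ h := by
  unfold cnt
  exact Equiv.sum_comp σ (fun j => if φ j = h then 1 else 0)

theorem cnt_eq_card {d : ℕ} (φ : Fin d → G) (h : G) :
    cnt φ h = Fintype.card {j // φ j = h} := by
  unfold cnt
  rw [Fintype.card_subtype, Finset.card_filter]

theorem exists_perm {d : ℕ} (φ ψ : Fin d → G) (h : ∀ g, cnt φ g = cnt ψ g) :
    ∃ σ : Equiv.Perm (Fin d), ∀ j, φ (σ j) = ψ j := by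
  have e : ∀ g, Nonempty ({j // ψ j = g} ≃ {j // φ j = g}) := fun g => by
    rw [← Fintype.card_eq, ← cnt_eq_card, ← cnt_eq_card, h g]
  refine ⟨(Equiv.sigmaFiberEquiv ψ).symm.trans
    ((Equiv.sigmaCongrRight fun g => (e g).some).trans (Equiv.sigmaFiberEquiv φ)), ?_⟩
  intro j
  exact ((e (ψ j)).some ⟨j, rfl⟩).2

theorem exists_cnt (d : ℕ) : ∀ x : G → ℕ, ∑ g, x g = d → ∃ φ : Fin d → G, ∀ g, cnt φ g = x g := by
  induction d with
  | zero =>
    intro x hx
    refine ⟨Fin.elim0, fun g => ?_⟩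
    have := (Finset.sum_eq_zero_iff.1 hx) g (Finset.mem_univ g)
    rw [this]
    rfl
  | succ d ih =>
    intro x hx
    have : ∃ g, 0 < x g := by
      by_contra hcon
      push Not at hcon
      have : ∑ g, x g = 0 := Finset.sum_eq_zero fun g _ => Nat.le_zero.1 (hcon g)
      omega
    obtain ⟨g, hg⟩ := this
    have hxs : ∀ h, x h = (x h - if g = h then 1 else 0) + if g = h then 1 else 0 := by
      intro h
      split_ifs with hh
      · subst hh; omega
      · omega
    obtain ⟨φ, hφ⟩ := ih (fun h => x h - if g = h then 1 else 0) (by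
      have h1 : ∑ h, x h = ∑ h, ((x h - if g = h then 1 else 0) + if g = h then 1 else 0) :=
        Finset.sum_congr rfl fun h _ => hxs h
      rw [Finset.sum_add_distrib, Finset.sum_ite_eq, if_pos (Finset.mem_univ _)] at h1
      omega)
    refine ⟨Fin.cons g φ, fun h => ?_⟩
    have h8 := hxs h
    rw [cnt_cons, hφ]
    beta_reduce
    omega

/-- the linear system for the three-leaf claw -/
def Sys (d : ℕ) (x z : Fin 3 → G → ℕ) : Prop :=
  (∀ i, ∑ g, x i g = d) ∧ (∀ c, ∑ k, z c k = d) ∧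
    ∀ i c, ∑ g, lamN c g * x i g = ∑ k, lamN i k * z c k

/-- conclusion for the three-leaf claw -/
def Dec (d : ℕ) (x : Fin 3 → G → ℕ) : Prop :=
  ∃ φ : Fin 3 → Fin d → G, (∀ i g, cnt (φ i) g = x i g) ∧ ∀ j, φ 0 j + φ 1 j + φ 2 j = 0

theorem lam_net (g1 g2 : G) (i c : Fin 3) :
    lamN c ((![g1, g2, g1 + g2] : Fin 3 → G) i) = lamN i (lam c g1, lam c g2) := by
  revert g1 g2 i c
  decide

theorem self_add (g : G) : g + g = 0 := by
  revert g
  decide

theorem step {d : ℕ} (ih : ∀ x z, Sys d x z → Dec d x) (x z : Fin 3 → G → ℕ)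
    (h : Sys (d + 1) x z) (g1 g2 : G) (h0 : 0 < x 0 g1) (h1 : 0 < x 1 g2)
    (h2 : 0 < x 2 (g1 + g2)) (hz : ∀ c, 0 < z c (lam c g1, lam c g2)) : Dec (d + 1) x := by
  obtain ⟨hx, hzs, he⟩ := h
  set g : Fin 3 → G := ![g1, g2, g1 + g2] with hgdef
  set k : Fin 3 → G := fun c => (lam c g1, lam c g2) with hkdef
  have hxg : ∀ i, 0 < x i (g i) := by
    intro i
    fin_cases i
    · exact h0
    · exact h1
    · exact h2
  have hxs : ∀ i h, x i h = (x i h - if g i = h then 1 else 0) + if g i = h then 1 else 0 := by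
    intro i h
    split_ifs with hh
    · have := hxg i
      rw [hh] at this
      omega
    · omega
  have hzks : ∀ c h, z c h = (z c h - if k c = h then 1 else 0) + if k c = h then 1 else 0 := by
    intro i h
    split_ifs with hh
    · have := hz i
      rw [← hh]
      change 0 < z i (k i) at this
      omega
    · omega
  have e1 : ∀ i (w : G → ℕ), ∑ h, w h * x i h =
      ∑ h, w h * (x i h - if g i = h then 1 else 0) + w (g i) := by
    intro i w
    have h1 : ∑ h, w h * x i h =
        ∑ h, (w h * (x i h - if g i = h then 1 else 0) + w h * if g i = h then 1 else 0) :=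
      Finset.sum_congr rfl fun h _ => by rw [← mul_add, ← hxs i h]
    rw [h1, Finset.sum_add_distrib]
    simp
  have e2 : ∀ c (w : G → ℕ), ∑ h, w h * z c h =
      ∑ h, w h * (z c h - if k c = h then 1 else 0) + w (k c) := by
    intro c w
    have h1 : ∑ h, w h * z c h =
        ∑ h, (w h * (z c h - if k c = h then 1 else 0) + w h * if k c = h then 1 else 0) :=
      Finset.sum_congr rfl fun h _ => by rw [← mul_add, ← hzks c h]
    rw [h1, Finset.sum_add_distrib]
    simp
  obtain ⟨φ, hφ, hs⟩ := ih (fun i h => x i h - if g i = h then 1 else 0)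
    (fun c h => z c h - if k c = h then 1 else 0) (by
      refine ⟨fun i => ?_, fun c => ?_, fun i c => ?_⟩
      · have := e1 i (fun _ => 1)
        simp only [one_mul] at this
        have h3 := hx i
        beta_reduce
        omega
      · have := e2 c (fun _ => 1)
        simp only [one_mul] at this
        have h3 := hzs c
        beta_reduce
        omega
      · have h4 := e1 i (lamN c)
        have h5 := e2 c (lamN i)
        have h6 := he i c
        have h7 : lamN c (g i) = lamN i (k c) := lam_net g1 g2 i c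
        rw [h4, h5, h7] at h6
        exact Nat.add_right_cancel h6)
  refine ⟨fun i => Fin.cons (g i) (φ i), fun i h => ?_, fun j => ?_⟩
  · have h8 := hxs i h
    rw [cnt_cons, hφ]
    beta_reduce
    omega
  · refine Fin.cases ?_ (fun j => ?_) j
    · show g1 + g2 + (g1 + g2) = 0
      exact self_add _
    · exact hs j

theorem claw3 : ∀ (d : ℕ) (x z : Fin 3 → G → ℕ), Sys d x z → Dec d x := by
  intro d
  induction d with
  | zero =>
    intro x z h
    refine ⟨fun _ => Fin.elim0, fun i g => ?_, fun j => j.elim0⟩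
    have := (Finset.sum_eq_zero_iff.1 (h.1 i)) g (Finset.mem_univ g)
    rw [this]
    rfl
  | succ d ih =>
    intro x z h
    by_contra hcon
    have key := fun g1 g2 a b c e => hcon (step ih x z h g1 g2 a b c e)
    obtain ⟨hx, hz, he⟩ := h
    simp only [sum_G] at hx hz he
    have L : ∀ c, lamN c (0, 0) = 0 := by decide
    have l01 : lamN 0 (1, 0) = 1 := by decide
    have l02 : lamN 0 (0, 1) = 0 := by decide
    have l03 : lamN 0 (1, 1) = 1 := by decide
    have l11 : lamN 1 (1, 0) = 0 := by decide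
    have l12 : lamN 1 (0, 1) = 1 := by decide
    have l13 : lamN 1 (1, 1) = 1 := by decide
    have l21 : lamN 2 (1, 0) = 1 := by decide
    have l22 : lamN 2 (0, 1) = 1 := by decide
    have l23 : lamN 2 (1, 1) = 0 := by decide
    have e00 := he 0 0
    have e01 := he 0 1
    have e02 := he 0 2
    have e10 := he 1 0
    have e11 := he 1 1
    have e12 := he 1 2
    have e20 := he 2 0
    have e21 := he 2 1
    have e22 := he 2 2
    simp only [L, l01, l02, l03, l11, l12, l13, l21, l22, l23, zero_mul, one_mul, zero_add,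
      add_zero] at e00 e01 e02 e10 e11 e12 e20 e21 e22
    have F : ∀ (g1 g2 : G), 0 < x 0 g1 → 0 < x 1 g2 → 0 < x 2 (g1 + g2) →
        0 < z 0 (lam 0 g1, lam 0 g2) → 0 < z 1 (lam 1 g1, lam 1 g2) →
        0 < z 2 (lam 2 g1, lam 2 g2) → False := by
      intro g1 g2 a b c e0 e1 e2
      refine key g1 g2 a b c ?_
      intro i
      fin_cases i
      · exact e0
      · exact e1
      · exact e2
    exact core (x00 := x 0 (0, 0)) (x01 := x 0 (1, 0)) (x02 := x 0 (0, 1)) (x03 := x 0 (1, 1))
      (x10 := x 1 (0, 0)) (x11 := x 1 (1, 0)) (x12 := x 1 (0, 1)) (x13 := x 1 (1, 1))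
      (x20 := x 2 (0, 0)) (x21 := x 2 (1, 0)) (x22 := x 2 (0, 1)) (x23 := x 2 (1, 1))
      (z00 := z 0 (0, 0)) (z01 := z 0 (1, 0)) (z02 := z 0 (0, 1)) (z03 := z 0 (1, 1))
      (z10 := z 1 (0, 0)) (z11 := z 1 (1, 0)) (z12 := z 1 (0, 1)) (z13 := z 1 (1, 1))
      (z20 := z 2 (0, 0)) (z21 := z 2 (1, 0)) (z22 := z 2 (0, 1)) (z23 := z 2 (1, 1))
      (d := d + 1) (hx 0) (hx 1) (hx 2) (hz 0) (hz 1) (hz 2)
      e00 e01 e02 e10 e11 e12 e20 e21 e22 (Nat.succ_pos d)
      (F (0, 0) (0, 0)) (F (0, 0) (1, 0)) (F (0, 0) (0, 1)) (F (0, 0) (1, 1))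
      (F (1, 0) (0, 0)) (F (1, 0) (1, 0)) (F (1, 0) (0, 1)) (F (1, 0) (1, 1))
      (F (0, 1) (0, 0)) (F (0, 1) (1, 0)) (F (0, 1) (0, 1)) (F (0, 1) (1, 1))
      (F (1, 1) (0, 0)) (F (1, 1) (1, 0)) (F (1, 1) (0, 1)) (F (1, 1) (1, 1))

end Pool.Agent.R841.K3
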