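import Mathlib
import Pool.Agent.R841.K3Claw

set_option autoImplicit false

/-! The splitting lemma for the claws. -/

namespace Pool.Agent.R841.K3

variable {ι : Type*} [DecidableEq ι]

/-- the slack of the set `A` -/
def V (s A : Finset ι) (d : ℤ) (y : ι → ℤ) : ℤ := ∑ i ∈ s, if i ∈ A then d - y i else y i

/-- the inequalities of a row -/
def Tet (d a b c : ℤ) : Prop := a ≤ b + c ∧ b ≤ a + c ∧ c ≤ a + b ∧ a + b + c ≤ 2 * d

/-- the conditions on a column -/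
def Adm (N : Finset ι) (d : ℤ) (y : ι → ℤ) : Prop :=
  Even (∑ i ∈ N, y i) ∧ ∀ A ⊆ N, Odd A.card → d ≤ V N A d y

theorem star (s A B : Finset ι) (d : ℤ) (y1 y2 y3 : ι → ℤ)
    (h : ∀ i ∈ s, Tet d (y1 i) (y2 i) (y3 i)) :
    V s (symmDiff A B) d y1 ≤ V s A d y2 + V s B d y3 := by
  unfold V
  rw [← Finset.sum_add_distrib]
  refine Finset.sum_le_sum fun i hi => ?_
  obtain ⟨h1, h2, h3, h4⟩ := h i hi
  by_cases hA : i ∈ A <;> by_cases hB : i ∈ B <;>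
    simp only [Finset.mem_symmDiff, hA, hB, not_true, not_false_eq_true, and_true, and_false,
      or_true, or_false, if_true, if_false, true_and, false_and, or_self] <;> omega

theorem V_insert {s A : Finset ι} {i : ι} (hi : i ∉ s) (d : ℤ) (y : ι → ℤ) :
    V (insert i s) A d y = (if i ∈ A then d - y i else y i) + V s A d y := by
  unfold V
  rw [Finset.sum_insert hi]

theorem V_congr {s A B : Finset ι} (d : ℤ) (y y' : ι → ℤ) (h : ∀ i ∈ s, (i ∈ A ↔ i ∈ B))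
    (hy : ∀ i ∈ s, y i = y' i) : V s A d y = V s B d y' := by
  unfold V
  refine Finset.sum_congr rfl fun i hi => ?_
  simp only [h i hi, hy i hi]

theorem V_parity {s A : Finset ι} (hA : A ⊆ s) (d : ℤ) (y : ι → ℤ) :
    ∃ m : ℤ, V s A d y = ∑ i ∈ s, y i + d * A.card - 2 * m := by
  refine ⟨∑ i ∈ A, y i, ?_⟩
  unfold V
  have h1 : ∑ i ∈ s, (if i ∈ A then d - y i else y i) =
      ∑ i ∈ s, (y i + if i ∈ A then d - 2 * y i else 0) := by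
    refine Finset.sum_congr rfl fun i _ => ?_
    split_ifs <;> ring
  rw [h1, Finset.sum_add_distrib, ← Finset.sum_filter, Finset.filter_mem_eq_inter,
    Finset.inter_eq_right.2 hA, Finset.sum_sub_distrib, Finset.sum_const, ← Finset.mul_sum]
  simp only [nsmul_eq_mul]
  ring

theorem card_symm (A B : Finset ι) :
    (symmDiff A B).card + 2 * (A ∩ B).card = A.card + B.card := by
  have h1 : (symmDiff A B).card = (A \ B).card + (B \ A).card := by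
    rw [symmDiff_def, Finset.sup_eq_union, Finset.card_union_of_disjoint]
    exact disjoint_sdiff_sdiff
  have h2 := Finset.card_sdiff_add_card_inter A B
  have h3 := Finset.card_sdiff_add_card_inter B A
  rw [Finset.inter_comm B A] at h3
  omega

theorem symm_sub {s A B : Finset ι} (hA : A ⊆ s) (hB : B ⊆ s) : symmDiff A B ⊆ s := by
  intro i hi
  rcases Finset.mem_symmDiff.1 hi with h | h
  · exact hA h.1
  · exact hB h.1

theorem V_opp (s A B : Finset ι) (hs : A ⊆ s ∧ B ⊆ s) (hodd : Odd (symmDiff A B).card) (d : ℤ)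
    (hd : 0 ≤ d) (y : ι → ℤ) (hy : ∀ i ∈ s, 0 ≤ y i ∧ y i ≤ d) : d ≤ V s A d y + V s B d y := by
  have h0 : 1 ≤ (symmDiff A B).card := hodd.pos
  have h1 : ∑ i ∈ s, (if i ∈ symmDiff A B then d else 0) ≤ V s A d y + V s B d y := by
    unfold V
    rw [← Finset.sum_add_distrib]
    refine Finset.sum_le_sum fun i hi => ?_
    obtain ⟨h1, h2⟩ := hy i hi
    by_cases hA : i ∈ A <;> by_cases hB : i ∈ B <;>
      simp only [Finset.mem_symmDiff, hA, hB, not_true, not_false_eq_true, and_true, and_false,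
        or_true, or_false, if_true, if_false, true_and, false_and, or_self] <;> omega
  rw [← Finset.sum_filter, Finset.filter_mem_eq_inter,
    Finset.inter_eq_right.2 (symm_sub hs.1 hs.2), Finset.sum_const, nsmul_eq_mul] at h1
  have h2 : (1 : ℤ) * d ≤ ((symmDiff A B).card : ℤ) * d :=
    mul_le_mul_of_nonneg_right (by exact_mod_cast h0) hd
  linarith

/-- the box lemma -/
theorem box (d l0 l1 l2 u0 u1 u2 : ℤ) (h0 : l0 ≤ u0) (h1 : l1 ≤ u1) (h2 : l2 ≤ u2)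
    (p0 : 0 ≤ l0) (p1 : 0 ≤ l1) (p2 : 0 ≤ l2) (q0 : u0 ≤ d) (q1 : u1 ≤ d) (q2 : u2 ≤ d)
    (e0 : (u0 - l0) % 2 = 0) (e1 : (u1 - l1) % 2 = 0) (e2 : (u2 - l2) % 2 = 0)
    (e : (l0 + l1 + l2) % 2 = 0)
    (t0 : l0 ≤ u1 + u2) (t1 : l1 ≤ u0 + u2) (t2 : l2 ≤ u0 + u1) (t : l0 + l1 + l2 ≤ 2 * d) :
    ∃ a b c : ℤ, l0 ≤ a ∧ a ≤ u0 ∧ l1 ≤ b ∧ b ≤ u1 ∧ l2 ≤ c ∧ c ≤ u2 ∧
      (a - l0) % 2 = 0 ∧ (b - l1) % 2 = 0 ∧ (c - l2) % 2 = 0 ∧ Tet d a b c := by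
  unfold Tet
  by_cases c0 : l0 > l1 + l2
  · by_cases c1 : l0 - l1 - l2 ≤ u1 - l1
    · exact ⟨l0, l0 - l2, l2, by omega⟩
    · exact ⟨l0, u1, l0 - u1, by omega⟩
  · by_cases c1 : l1 > l0 + l2
    · by_cases c2 : l1 - l0 - l2 ≤ u0 - l0
      · exact ⟨l1 - l2, l1, l2, by omega⟩
      · exact ⟨u0, l1, l1 - u0, by omega⟩
    · by_cases c2 : l2 > l0 + l1
      · by_cases c3 : l2 - l0 - l1 ≤ u0 - l0
        · exact ⟨l2 - l1, l1, l2, by omega⟩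
        · exact ⟨u0, l2 - u0, l2, by omega⟩
      · exact ⟨l0, l1, l2, by omega⟩

theorem exists_max3 (a b c : ℤ) : ∃ m, a ≤ m ∧ b ≤ m ∧ c ≤ m ∧ (m = a ∨ m = b ∨ m = c) := by
  by_cases h1 : a ≤ b <;> by_cases h2 : b ≤ c <;> by_cases h3 : a ≤ c
  · exact ⟨c, by omega⟩
  · exact ⟨c, by omega⟩
  · exact ⟨b, by omega⟩
  · exact ⟨b, by omega⟩
  · exact ⟨c, by omega⟩
  · exact ⟨a, by omega⟩
  · exact ⟨a, by omega⟩
  · exact ⟨a, by omega⟩

theorem exists_min3 (a b c : ℤ) : ∃ m, m ≤ a ∧ m ≤ b ∧ m ≤ c ∧ (m = a ∨ m = b ∨ m = c) := by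
  obtain ⟨m, h⟩ := exists_max3 (-a) (-b) (-c)
  exact ⟨-m, by omega⟩

/-- the facts about one column -/
structure Col (d P Q U O : ℤ) : Prop where
  c1 : d ≤ O + P + Q
  c2 : P + Q ≤ d + O
  c3 : P - Q ≤ U
  c4 : Q - P ≤ U
  c5 : d ≤ O + U

/-- the conditions needed for the triangle inequality -/
theorem tri {d Pa Qa Ua Oa Pb Qb Ub Ob Pc Qc Uc Oc la ub uc : ℤ}
    (ha : Col d Pa Qa Ua Oa) (hb : Col d Pb Qb Ub Ob) (hc : Col d Pc Qc Uc Oc)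
    (hP : Tet d Pa Pb Pc) (hQ : Tet d Qa Qb Qc)
    (s1 : Ua ≤ Ub + Uc) (s2 : Oc ≤ Oa + Ub) (s3 : Ob ≤ Oa + Uc)
    (hl : la = Pa - Qa ∨ la = Qa - Pa ∨ la = d - Oa)
    (hub : ub = Pb + Qb ∨ ub = 2 * d - Pb - Qb ∨ ub = Ub)
    (huc : uc = Pc + Qc ∨ uc = 2 * d - Pc - Qc ∨ uc = Uc) : la ≤ ub + uc := by
  obtain ⟨a1, a2, a3, a4, a5⟩ := ha
  obtain ⟨b1, b2, b3, b4, b5⟩ := hb
  obtain ⟨c1, c2, c3, c4, c5⟩ := hc
  obtain ⟨p1, p2, p3, p4⟩ := hP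
  obtain ⟨q1, q2, q3, q4⟩ := hQ
  rcases hl with rfl | rfl | rfl <;> rcases hub with rfl | rfl | rfl <;>
    rcases huc with rfl | rfl | rfl <;> omega

/-- the condition needed for the fourth inequality -/
theorem tot {d Pa Qa Ua Oa Pb Qb Ub Ob Pc Qc Uc Oc la lb lc : ℤ}
    (ha : Col d Pa Qa Ua Oa) (hb : Col d Pb Qb Ub Ob) (hc : Col d Pc Qc Uc Oc)
    (hP : Tet d Pa Pb Pc) (hQ : Tet d Qa Qb Qc)
    (s1 : Ua ≤ Ob + Oc) (s2 : Ub ≤ Oa + Oc) (s3 : Uc ≤ Oa + Ob)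
    (hla : la = Pa - Qa ∨ la = Qa - Pa ∨ la = d - Oa)
    (hlb : lb = Pb - Qb ∨ lb = Qb - Pb ∨ lb = d - Ob)
    (hlc : lc = Pc - Qc ∨ lc = Qc - Pc ∨ lc = d - Oc) : la + lb + lc ≤ 2 * d := by
  obtain ⟨a1, a2, a3, a4, a5⟩ := ha
  obtain ⟨b1, b2, b3, b4, b5⟩ := hb
  obtain ⟨c1, c2, c3, c4, c5⟩ := hc
  obtain ⟨p1, p2, p3, p4⟩ := hP
  obtain ⟨q1, q2, q3, q4⟩ := hQ
  rcases hla with rfl | rfl | rfl <;> rcases hlb with rfl | rfl | rfl <;>
    rcases hlc with rfl | rfl | rfl <;> omega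

end Pool.Agent.R841.K3
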