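import Mathlib
import Pool.Agent.R841.K3Split

set_option autoImplicit false

/-! Decomposition of all claws for the group `Z2 x Z2`. -/

namespace Pool.Agent.R841.K3

variable {ι : Type*} [DecidableEq ι]

theorem exists_minV (s : Finset ι) (d : ℤ) (y : ι → ℤ) (P : ℕ → Prop) [DecidablePred P]
    (h : ∃ A ⊆ s, P A.card) :
    ∃ A ⊆ s, P A.card ∧ ∀ B ⊆ s, P B.card → V s A d y ≤ V s B d y := by
  obtain ⟨A0, hA0, hP0⟩ := h
  obtain ⟨A, hA, hmin⟩ := Finset.exists_min_image (s.powerset.filter fun A => P A.card)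
    (fun A => V s A d y) ⟨A0, by simp [hA0, hP0]⟩
  simp only [Finset.mem_filter, Finset.mem_powerset] at hA hmin
  exact ⟨A, hA.1, hA.2, fun B hB hPB => hmin B ⟨hB, hPB⟩⟩

theorem Tet.perm1 {d a b c : ℤ} (h : Tet d a b c) : Tet d b a c := by
  unfold Tet at *; omega

theorem Tet.perm2 {d a b c : ℤ} (h : Tet d a b c) : Tet d a c b := by
  unfold Tet at *; omega

theorem Tet.perm3 {d a b c : ℤ} (h : Tet d a b c) : Tet d c a b := by
  unfold Tet at *; omega

/-- the inequalities between the minimal values on one side -/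
theorem side (s : Finset ι) (d : ℤ) (ya yb yc : ι → ℤ)
    (h : ∀ i ∈ s, Tet d (ya i) (yb i) (yc i))
    (A B C : Finset ι) (hAs : A ⊆ s) (hBs : B ⊆ s) (P : ℕ → Prop)
    (hP : P (symmDiff A B).card) (hC : ∀ D ⊆ s, P D.card → V s C d yc ≤ V s D d yc) :
    V s C d yc ≤ V s A d ya + V s B d yb :=
  (hC _ (symm_sub hAs hBs) hP).trans (star s A B d yc ya yb fun i hi => (h i hi).perm3)

theorem even_symm {A B : Finset ι} (hA : Even A.card) (hB : Even B.card) :
    Even (symmDiff A B).card := by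
  have := card_symm A B
  rw [Nat.even_iff] at *
  omega

theorem even_symm' {A B : Finset ι} (hA : Odd A.card) (hB : Odd B.card) :
    Even (symmDiff A B).card := by
  have := card_symm A B
  rw [Nat.odd_iff] at *
  rw [Nat.even_iff]
  omega

theorem odd_symm {A B : Finset ι} (hA : Even A.card) (hB : Odd B.card) :
    Odd (symmDiff A B).card := by
  have := card_symm A B
  rw [Nat.odd_iff] at *
  rw [Nat.even_iff] at hA
  omega

theorem odd_symm' {A B : Finset ι} (hA : Odd A.card) (hB : Even B.card) :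
    Odd (symmDiff A B).card := by
  rw [symmDiff_comm]
  exact odd_symm hB hA

theorem split (s : Finset ι) (hs : s.Nonempty) (p q : ι) (hp : p ∉ s) (hq : q ∉ s) (hpq : p ≠ q)
    (d : ℤ) (hd : 0 ≤ d) (y : Fin 3 → ι → ℤ)
    (hrow : ∀ i ∈ insert p (insert q s), Tet d (y 0 i) (y 1 i) (y 2 i) ∧
      Even (y 0 i + y 1 i + y 2 i))
    (hadm : ∀ c, Adm (insert p (insert q s)) d (y c)) :
    ∃ e : Fin 3 → ℤ, Tet d (e 0) (e 1) (e 2) ∧ Even (e 0 + e 1 + e 2) ∧
      ∀ c, Even (y c p + y c q + e c) ∧ Tet d (y c p) (y c q) (e c) ∧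
        Even (∑ i ∈ s, y c i + e c) ∧
        (∀ A ⊆ s, Odd A.card → d ≤ V s A d (y c) + e c) ∧
        (∀ A ⊆ s, Even A.card → e c ≤ V s A d (y c)) := by
  have hpN : p ∉ insert q s := by simp [hpq, hp]
  have hrs : ∀ i ∈ s, Tet d (y 0 i) (y 1 i) (y 2 i) := fun i hi => (hrow i (by simp [hi])).1
  have hb : ∀ c, ∀ i ∈ s, 0 ≤ y c i ∧ y c i ≤ d := by
    intro c i hi
    have := hrs i hi
    unfold Tet at this
    fin_cases c <;> simp <;> omega
  have hE : ∀ c, ∃ A ⊆ s, Even A.card ∧ ∀ B ⊆ s, Even B.card → V s A d (y c) ≤ V s B d (y c) :=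
    fun c => exists_minV s d (y c) Even ⟨∅, by simp⟩
  have hO : ∀ c, ∃ A ⊆ s, Odd A.card ∧ ∀ B ⊆ s, Odd B.card → V s A d (y c) ≤ V s B d (y c) := by
    intro c
    obtain ⟨i, hi⟩ := hs
    exact exists_minV s d (y c) Odd ⟨{i}, by simp [hi]⟩
  choose E hEs hEe hEm using hE
  choose O hOs hOo hOm using hO
  have hcol : ∀ c, Col d (y c p) (y c q) (V s (E c) d (y c)) (V s (O c) d (y c)) := by
    intro c
    have h0 := (hadm c).2
    have k : ∀ A ⊆ s, ∀ B ⊆ ({p, q} : Finset ι), Odd (B ∪ A).card →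
        d ≤ (if p ∈ B then d - y c p else y c p) + ((if q ∈ B then d - y c q else y c q) +
          V s A d (y c)) := by
      intro A hA B hB hodd
      have h1 := h0 (B ∪ A) (by
        intro i hi
        rcases Finset.mem_union.1 hi with h | h
        · have := hB h
          simp only [Finset.mem_insert, Finset.mem_singleton] at this
          rcases this with h' | h' <;> simp [h']
        · simp [hA h]) hodd
      rw [V_insert hpN, V_insert hq] at h1
      have hpA : p ∉ A := fun h => hp (hA h)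
      have hqA : q ∉ A := fun h => hq (hA h)
      have h2 : V s (B ∪ A) d (y c) = V s A d (y c) := by
        refine V_congr d _ _ (fun i hi => ?_) (fun _ _ => rfl)
        rw [Finset.mem_union]
        constructor
        · rintro (h | h)
          · exfalso
            have := hB h
            simp only [Finset.mem_insert, Finset.mem_singleton] at this
            rcases this with h' | h'
            · exact hp (h' ▸ hi)
            · exact hq (h' ▸ hi)
          · exact h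
        · exact Or.inr
      rw [h2] at h1
      simpa [hpA, hqA] using h1
    have hEp : p ∉ E c := fun h => hp (hEs c h)
    have hEq : q ∉ E c := fun h => hq (hEs c h)
    have hOp : p ∉ O c := fun h => hp (hOs c h)
    have hOq : q ∉ O c := fun h => hq (hOs c h)
    have hqO' : q ∉ ({p} : Finset ι) := by simp [hpq.symm]
    have k1 := k (O c) (hOs c) ∅ (by simp) (by simpa using hOo c)
    have k2 := k (O c) (hOs c) {p, q} (by simp) (by
      rw [Finset.insert_union, Finset.singleton_union, Finset.card_insert_of_notMem (by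
        simp [hpq, hOp]), Finset.card_insert_of_notMem hOq]
      have := hOo c
      rw [Nat.odd_iff] at *
      omega)
    have k3 := k (E c) (hEs c) {p} (by simp) (by
      rw [Finset.singleton_union, Finset.card_insert_of_notMem hEp]
      have := hEe c
      rw [Nat.odd_iff]
      rw [Nat.even_iff] at this
      omega)
    have k4 := k (E c) (hEs c) {q} (by simp) (by
      rw [Finset.singleton_union, Finset.card_insert_of_notMem hEq]
      have := hEe c
      rw [Nat.odd_iff]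
      rw [Nat.even_iff] at this
      omega)
    simp only [Finset.notMem_empty, if_false, Finset.mem_insert, Finset.mem_singleton, true_or,
      or_true, if_true, hpq, hpq.symm] at k1 k2 k3 k4
    have k5 := V_opp s (O c) (E c) ⟨hOs c, hEs c⟩ (odd_symm' (hOo c) (hEe c)) d hd (y c) (hb c)
    exact ⟨by linarith, by linarith, by linarith, by linarith, by linarith⟩
  -- parities
  have hpar : ∀ c, (∑ i ∈ s, y c i + y c p + y c q) % 2 = 0 := by
    intro c
    have := (hadm c).1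
    rw [Finset.sum_insert hpN, Finset.sum_insert hq, Int.even_iff] at this
    omega
  have hparE : ∀ c, (V s (E c) d (y c) - ∑ i ∈ s, y c i) % 2 = 0 := by
    intro c
    obtain ⟨m, hm⟩ := V_parity (hEs c) d (y c)
    obtain ⟨r, hr⟩ := hEe c
    rw [hm, hr]
    push_cast
    have : ∑ i ∈ s, y c i + d * ((r : ℤ) + r) - 2 * m - ∑ i ∈ s, y c i = 2 * (d * r - m) := by
      ring
    rw [this]
    omega
  have hparO : ∀ c, (d - V s (O c) d (y c) - ∑ i ∈ s, y c i) % 2 = 0 := by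
    intro c
    obtain ⟨m, hm⟩ := V_parity (hOs c) d (y c)
    obtain ⟨r, hr⟩ := hOo c
    rw [hm, hr]
    push_cast
    have : d - (∑ i ∈ s, y c i + d * (2 * (r : ℤ) + 1) - 2 * m) - ∑ i ∈ s, y c i =
        2 * (m - d * r - ∑ i ∈ s, y c i) := by
      ring
    rw [this]
    omega
  have hP := hrow p (by simp)
  have hQ := hrow q (by simp)
  obtain ⟨hP1, hP2⟩ := hP
  obtain ⟨hQ1, hQ2⟩ := hQ
  rw [Int.even_iff] at hP2 hQ2
  have r012 : ∀ i ∈ s, Tet d (y 0 i) (y 1 i) (y 2 i) := hrs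
  have r102 : ∀ i ∈ s, Tet d (y 1 i) (y 0 i) (y 2 i) := fun i hi => (hrs i hi).perm1
  have r021 : ∀ i ∈ s, Tet d (y 0 i) (y 2 i) (y 1 i) := fun i hi => (hrs i hi).perm2
  have r201 : ∀ i ∈ s, Tet d (y 2 i) (y 0 i) (y 1 i) := fun i hi => (hrs i hi).perm3
  have r120 : ∀ i ∈ s, Tet d (y 1 i) (y 2 i) (y 0 i) := fun i hi => (hrs i hi).perm1.perm2
  have r210 : ∀ i ∈ s, Tet d (y 2 i) (y 1 i) (y 0 i) := fun i hi => (hrs i hi).perm3.perm2
  -- U a ≤ U b + U c
  have u0 := side s d _ _ _ r120 (E 1) (E 2) (E 0) (hEs 1) (hEs 2) Even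
    (even_symm (hEe 1) (hEe 2)) (hEm 0)
  have u1 := side s d _ _ _ r021 (E 0) (E 2) (E 1) (hEs 0) (hEs 2) Even
    (even_symm (hEe 0) (hEe 2)) (hEm 1)
  have u2 := side s d _ _ _ r012 (E 0) (E 1) (E 2) (hEs 0) (hEs 1) Even
    (even_symm (hEe 0) (hEe 1)) (hEm 2)
  -- U c ≤ O a + O b
  have w0 := side s d _ _ _ r120 (O 1) (O 2) (E 0) (hOs 1) (hOs 2) Even
    (even_symm' (hOo 1) (hOo 2)) (hEm 0)
  have w1 := side s d _ _ _ r021 (O 0) (O 2) (E 1) (hOs 0) (hOs 2) Even
    (even_symm' (hOo 0) (hOo 2)) (hEm 1)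
  have w2 := side s d _ _ _ r012 (O 0) (O 1) (E 2) (hOs 0) (hOs 1) Even
    (even_symm' (hOo 0) (hOo 1)) (hEm 2)
  -- O c ≤ O a + U b
  have v012 := side s d _ _ _ r012 (O 0) (E 1) (O 2) (hOs 0) (hEs 1) Odd
    (odd_symm' (hOo 0) (hEe 1)) (hOm 2)
  have v102 := side s d _ _ _ r102 (O 1) (E 0) (O 2) (hOs 1) (hEs 0) Odd
    (odd_symm' (hOo 1) (hEe 0)) (hOm 2)
  have v021 := side s d _ _ _ r021 (O 0) (E 2) (O 1) (hOs 0) (hEs 2) Odd
    (odd_symm' (hOo 0) (hEe 2)) (hOm 1)
  have v201 := side s d _ _ _ r201 (O 2) (E 0) (O 1) (hOs 2) (hEs 0) Odd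
    (odd_symm' (hOo 2) (hEe 0)) (hOm 1)
  have v120 := side s d _ _ _ r120 (O 1) (E 2) (O 0) (hOs 1) (hEs 2) Odd
    (odd_symm' (hOo 1) (hEe 2)) (hOm 0)
  have v210 := side s d _ _ _ r210 (O 2) (E 1) (O 0) (hOs 2) (hEs 1) Odd
    (odd_symm' (hOo 2) (hEe 1)) (hOm 0)
  -- name the values
  have hex : ∃ U W : Fin 3 → ℤ, (∀ c, U c = V s (E c) d (y c)) ∧ ∀ c, W c = V s (O c) d (y c) :=
    ⟨_, _, fun _ => rfl, fun _ => rfl⟩
  obtain ⟨U, W, hU, hW⟩ := hex
  simp only [← hU, ← hW] at u0 u1 u2 w0 w1 w2 v012 v102 v021 v201 v120 v210 hcol hparE hparO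
  have hl : ∀ c, ∃ m, y c p - y c q ≤ m ∧ y c q - y c p ≤ m ∧ d - W c ≤ m ∧
      (m = y c p - y c q ∨ m = y c q - y c p ∨ m = d - W c) := fun c => exists_max3 _ _ _
  have hu : ∀ c, ∃ m, m ≤ y c p + y c q ∧ m ≤ 2 * d - y c p - y c q ∧ m ≤ U c ∧
      (m = y c p + y c q ∨ m = 2 * d - y c p - y c q ∨ m = U c) := fun c => exists_min3 _ _ _
  choose l l1 l2 l3 l4 using hl
  choose u m1 m2 m3 m4 using hu
  have hbp : ∀ c, 0 ≤ y c p ∧ y c p ≤ d ∧ 0 ≤ y c q ∧ y c q ≤ d := by
    intro c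
    unfold Tet at hP1 hQ1
    fin_cases c <;> simp <;> omega
  have hlu : ∀ c, l c ≤ u c ∧ 0 ≤ l c ∧ u c ≤ d ∧ (u c - l c) % 2 = 0 ∧
      (l c - y c p - y c q) % 2 = 0 := by
    intro c
    obtain ⟨a1, a2, a3, a4, a5⟩ := hcol c
    have b1 := l1 c
    have b2 := l2 c
    have b4 := l4 c
    have b5 := m1 c
    have b6 := m2 c
    have b7 := m4 c
    have b8 := hbp c
    have b9 := hpar c
    have b10 := hparE c
    have b11 := hparO c
    clear u0 u1 u2 w0 w1 w2 v012 v102 v021 v201 v120 v210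
    refine ⟨?_, by omega, by omega, ?_, ?_⟩
    · rcases b4 with h | h | h <;> rcases b7 with h' | h' | h' <;> rw [h, h'] <;> omega
    · rcases b4 with h | h | h <;> rcases b7 with h' | h' | h' <;> rw [h, h'] <;> omega
    · rcases b4 with h | h | h <;> rw [h] <;> omega
  obtain ⟨a, b, c, ha1, ha2, hb1, hb2, hc1, hc2, pa, pb, pc, hT⟩ :=
    box d (l 0) (l 1) (l 2) (u 0) (u 1) (u 2) (hlu 0).1 (hlu 1).1 (hlu 2).1 (hlu 0).2.1
      (hlu 1).2.1 (hlu 2).2.1 (hlu 0).2.2.1 (hlu 1).2.2.1 (hlu 2).2.2.1 (hlu 0).2.2.2.1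
      (hlu 1).2.2.2.1 (hlu 2).2.2.2.1
      (by
        have e0 := (hlu 0).2.2.2.2
        have e1 := (hlu 1).2.2.2.2
        have e2 := (hlu 2).2.2.2.2
        clear u0 u1 u2 w0 w1 w2 v012 v102 v021 v201 v120 v210
        omega)
      (tri (hcol 0) (hcol 1) (hcol 2) hP1 hQ1 u0 v012 v021 (l4 0) (m4 1) (m4 2))
      (tri (hcol 1) (hcol 0) (hcol 2) hP1.perm1 hQ1.perm1 u1 v102 v120 (l4 1) (m4 0) (m4 2))
      (tri (hcol 2) (hcol 0) (hcol 1) hP1.perm3 hQ1.perm3 u2 v201 v210 (l4 2) (m4 0) (m4 1))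
      (tot (hcol 0) (hcol 1) (hcol 2) hP1 hQ1 w0 w1 w2 (l4 0) (l4 1) (l4 2))
  have hval : ∀ e : Fin 3, ∀ v : ℤ, v = (![a, b, c] : Fin 3 → ℤ) e →
      l e ≤ v ∧ v ≤ u e ∧ (v - l e) % 2 = 0 := by
    intro e v hv
    fin_cases e <;> simp at hv <;> subst hv <;> exact ⟨by assumption, by assumption, by assumption⟩
  refine ⟨![a, b, c], hT, ?_, ?_⟩
  · show Even (a + b + c)
    rw [Int.even_iff]
    have e0 := (hlu 0).2.2.2.2
    have e1 := (hlu 1).2.2.2.2
    have e2 := (hlu 2).2.2.2.2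
    clear u0 u1 u2 w0 w1 w2 v012 v102 v021 v201 v120 v210
    omega
  · intro e
    obtain ⟨f1, f2, f3⟩ := hval e _ rfl
    set v := (![a, b, c] : Fin 3 → ℤ) e with hv
    obtain ⟨g1, g2, g3, g4, g5⟩ := hlu e
    have i1 := l1 e
    have i2 := l2 e
    have i3 := l3 e
    have i4 := m1 e
    have i5 := m2 e
    have i6 := m3 e
    have i7 := hpar e
    clear u0 u1 u2 w0 w1 w2 v012 v102 v021 v201 v120 v210
    refine ⟨?_, ?_, ?_, fun A hA hodd => ?_, fun A hA hev => ?_⟩
    · rw [Int.even_iff]; omega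
    · unfold Tet; omega
    · rw [Int.even_iff]; omega
    · have := hOm e A hA hodd
      rw [← hW] at this
      omega
    · have := hEm e A hA hev
      rw [← hU] at this
      omega

end Pool.Agent.R841.K3
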