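import Mathlib
import Pool.Agent.R841.K3Gen

set_option autoImplicit false

/-! Decomposition of all claws for the group `Z2 x Z2`: the induction. -/

namespace Pool.Agent.R841.K3

variable {ι : Type*} [DecidableEq ι]

/-- the value of a row in the column `c` -/
def yv (c : Fin 3) (x : G → ℕ) : ℤ := ∑ g, (lamN c g : ℤ) * x g

theorem yv_eq (x : G → ℕ) : yv 0 x = x (1, 0) + x (1, 1) ∧ yv 1 x = x (0, 1) + x (1, 1) ∧
    yv 2 x = x (1, 0) + x (0, 1) := by
  have L : ∀ c, lamN c (0, 0) = 0 := by decide
  have l01 : lamN 0 (1, 0) = 1 := by decide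
  have l02 : lamN 0 (0, 1) = 0 := by decide
  have l03 : lamN 0 (1, 1) = 1 := by decide
  have l11 : lamN 1 (1, 0) = 0 := by decide
  have l12 : lamN 1 (0, 1) = 1 := by decide
  have l13 : lamN 1 (1, 1) = 1 := by decide
  have l21 : lamN 2 (1, 0) = 1 := by decide
  have l22 : lamN 2 (0, 1) = 1 := by decide
  have l23 : lamN 2 (1, 1) = 0 := by decide
  unfold yv
  simp only [sum_G, L, l01, l02, l03, l11, l12, l13, l21, l22, l23]
  refine ⟨by push_cast; ring, by push_cast; ring, by push_cast; ring⟩

theorem row_tet {d : ℕ} {x : G → ℕ} (h : ∑ g, x g = d) :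
    Tet d (yv 0 x) (yv 1 x) (yv 2 x) ∧ Even (yv 0 x + yv 1 x + yv 2 x) := by
  obtain ⟨h0, h1, h2⟩ := yv_eq x
  rw [sum_G] at h
  rw [h0, h1, h2, Int.even_iff]
  unfold Tet
  omega

theorem exists_row (d : ℕ) (e : Fin 3 → ℤ) (h : Tet d (e 0) (e 1) (e 2))
    (h2 : Even (e 0 + e 1 + e 2)) : ∃ x : G → ℕ, ∑ g, x g = d ∧ ∀ c, yv c x = e c := by
  rw [Int.even_iff] at h2
  unfold Tet at h
  have h3 : ∃ a0 a1 a2 a3 : ℕ, a0 + a1 + a2 + a3 = d ∧ (a1 + a3 : ℤ) = e 0 ∧
      (a2 + a3 : ℤ) = e 1 ∧ (a1 + a2 : ℤ) = e 2 := by
    refine ⟨((2 * d - e 0 - e 1 - e 2) / 2).toNat, ((e 0 + e 2 - e 1) / 2).toNat,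
      ((e 1 + e 2 - e 0) / 2).toNat, ((e 0 + e 1 - e 2) / 2).toNat, by omega⟩
  obtain ⟨a0, a1, a2, a3, s, s0, s1, s2⟩ := h3
  let x : G → ℕ := fun g => if g = (0, 0) then a0 else if g = (1, 0) then a1 else
    if g = (0, 1) then a2 else a3
  have x0 : x (0, 0) = a0 := rfl
  have x1 : x (1, 0) = a1 := rfl
  have x2 : x (0, 1) = a2 := rfl
  have x3 : x (1, 1) = a3 := rfl
  refine ⟨x, ?_, ?_⟩
  · rw [sum_G, x0, x1, x2, x3]; omega
  · obtain ⟨h0, h1, h2⟩ := yv_eq x
    rw [x1, x3] at h0
    rw [x2, x3] at h1
    rw [x1, x2] at h2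
    intro c
    fin_cases c
    · exact h0.trans s0
    · exact h1.trans s1
    · exact h2.trans s2

theorem ext_row {d : ℕ} {x x' : G → ℕ} (h : ∑ g, x g = d) (h' : ∑ g, x' g = d)
    (hy : ∀ c, yv c x = yv c x') : x = x' := by
  obtain ⟨h0, h1, h2⟩ := yv_eq x
  obtain ⟨k0, k1, k2⟩ := yv_eq x'
  have e0 := hy 0
  have e1 := hy 1
  have e2 := hy 2
  rw [sum_G] at h h'
  have key : ∀ g : G, g = (0, 0) ∨ g = (1, 0) ∨ g = (0, 1) ∨ g = (1, 1) := by decide
  funext g
  rcases key g with rfl | rfl | rfl | rfl <;> omega

/-- the three-leaf claw -/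
theorem claw3' (d : ℕ) (x : Fin 3 → G → ℕ) (hx : ∀ i, ∑ g, x i g = d)
    (h : ∀ c, Tet d (yv c (x 0)) (yv c (x 1)) (yv c (x 2)) ∧
      Even (yv c (x 0) + yv c (x 1) + yv c (x 2))) : Dec d x := by
  have h1 : ∀ c, ∃ z : G → ℕ, ∑ g, z g = d ∧ ∀ i, yv i z = yv c (x i) := fun c =>
    exists_row d (fun i => yv c (x i)) (h c).1 (h c).2
  choose z hz1 hz2 using h1
  refine claw3 d x z ⟨hx, hz1, fun i c => ?_⟩
  have := hz2 c i
  unfold yv at this
  exact_mod_cast this.symm

theorem cnt_sum {d : ℕ} (φ : Fin d → G) : ∑ g, cnt φ g = d := by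
  unfold cnt
  rw [Finset.sum_comm]
  simp

/-- all claws with at least two leaves -/
theorem claw (d : ℕ) : ∀ (n : ℕ) (N : Finset ι), N.card = n + 2 → ∀ x : ι → G → ℕ,
    (∀ i ∈ N, ∑ g, x i g = d) → (∀ c, Adm N d (fun i => yv c (x i))) →
    ∃ φ : ι → Fin d → G, (∀ i ∈ N, ∀ g, cnt (φ i) g = x i g) ∧ ∀ j, ∑ i ∈ N, φ i j = 0 := by
  intro n
  induction n with
  | zero =>
    intro N hN x hx hadm
    obtain ⟨p, q, hpq, rfl⟩ := Finset.card_eq_two.1 hN
    have hps : p ∉ ({q} : Finset ι) := by simpa using hpq
    have hV : ∀ c (A : Finset ι), V {p, q} A d (fun i => yv c (x i)) =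
        (if p ∈ A then (d : ℤ) - yv c (x p) else yv c (x p)) +
          (if q ∈ A then (d : ℤ) - yv c (x q) else yv c (x q)) := by
      intro c A
      rw [V_insert hps]
      congr 1
      unfold V
      rw [Finset.sum_singleton]
    have heq : x p = x q := by
      refine ext_row (hx p (by simp)) (hx q (by simp)) fun c => ?_
      have h1 := (hadm c).2 {p} (by simp) (by simp)
      have h2 := (hadm c).2 {q} (by simp) (by simp)
      rw [hV] at h1 h2
      simp only [Finset.mem_singleton, if_true, hpq.symm, hpq, if_false] at h1 h2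
      linarith
    obtain ⟨φ, hφ⟩ := exists_cnt d (x p) (hx p (by simp))
    refine ⟨fun _ => φ, fun i hi g => ?_, fun j => ?_⟩
    · rw [hφ]
      simp only [Finset.mem_insert, Finset.mem_singleton] at hi
      rcases hi with rfl | rfl
      · rfl
      · rw [heq]
    · rw [Finset.sum_pair hpq]
      exact self_add _
  | succ n ih =>
    intro N hN x hx hadm
    obtain ⟨p, hp⟩ : N.Nonempty := by
      rw [← Finset.card_pos]; omega
    obtain ⟨q, hq⟩ : (N.erase p).Nonempty := by
      rw [← Finset.card_pos, Finset.card_erase_of_mem hp]; omega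
    set s := (N.erase p).erase q with hs
    have hNs : N = insert p (insert q s) := by
      rw [hs, Finset.insert_erase hq, Finset.insert_erase hp]
    have hps : p ∉ s := by simp [hs]
    have hqs : q ∉ s := by simp [hs]
    have hpq : p ≠ q := by
      rintro rfl
      simp at hq
    have hpN : p ∉ insert q s := by simp [hpq, hps]
    have hscard : s.card = n + 1 := by
      rw [hs, Finset.card_erase_of_mem hq, Finset.card_erase_of_mem hp]; omega
    have hsne : s.Nonempty := by
      rw [← Finset.card_pos]; omega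
    obtain ⟨e, heT, heE, he⟩ := split s hsne p q hps hqs hpq d (by positivity)
      (fun c i => yv c (x i)) (fun i hi => row_tet (hx i (by rw [hNs]; exact hi)))
      (by rw [← hNs]; exact hadm)
    obtain ⟨xe, hxe, hye⟩ := exists_row d e heT heE
    -- the smaller claw
    obtain ⟨ψ, hψ1, hψ2⟩ := ih (insert p s) (by rw [Finset.card_insert_of_notMem hps, hscard])
      (Function.update x p xe) (by
        intro i hi
        by_cases h : i = p
        · subst h; rw [Function.update_self]; exact hxe
        · rw [Function.update_of_ne h]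
          refine hx i ?_
          rw [hNs]
          have := Finset.mem_of_mem_insert_of_ne hi h
          simp [this]) (by
        intro c
        obtain ⟨-, -, e1, e2, e3⟩ := he c
        have hval : ∀ i ∈ s, yv c (Function.update x p xe i) = yv c (x i) := by
          intro i hi
          rw [Function.update_of_ne]
          rintro rfl
          exact hps hi
        refine ⟨?_, ?_⟩
        · rw [Finset.sum_insert hps, Function.update_self, Finset.sum_congr rfl hval, hye]
          rw [add_comm]
          exact e1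
        · intro A hA hodd
          rw [V_insert hps]
          simp only [Function.update_self, hye]
          by_cases hpA : p ∈ A
          · rw [if_pos hpA]
            have h1 : V s A d (fun i => yv c (Function.update x p xe i)) =
                V s (A.erase p) d (fun i => yv c (x i)) := by
              refine V_congr d _ _ (fun i hi => ?_) hval
              have : i ≠ p := by rintro rfl; exact hps hi
              simp [this]
            rw [h1]
            have h2 := e3 (A.erase p) (by
              intro i hi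
              rw [Finset.mem_erase] at hi
              exact Finset.mem_of_mem_insert_of_ne (hA hi.2) hi.1) (by
              rw [Finset.card_erase_of_mem hpA]
              obtain ⟨r, hr⟩ := hodd
              exact ⟨r, by omega⟩)
            linarith
          · rw [if_neg hpA]
            have h1 : V s A d (fun i => yv c (Function.update x p xe i)) =
                V s A d (fun i => yv c (x i)) :=
              V_congr d _ _ (fun i hi => Iff.rfl) hval
            rw [h1]
            have h2 := e2 A (by
              intro i hi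
              refine Finset.mem_of_mem_insert_of_ne (hA hi) ?_
              rintro rfl
              exact hpA hi) hodd
            linarith)
    -- the three-leaf claw
    obtain ⟨χ, hχ1, hχ2⟩ := claw3' d ![x p, x q, xe] (by
        intro i
        fin_cases i
        · exact hx p hp
        · exact hx q (Finset.mem_of_mem_erase hq)
        · exact hxe) (by
        intro c
        obtain ⟨e0, e1, -, -, -⟩ := he c
        have h2 : yv c ((![x p, x q, xe] : Fin 3 → G → ℕ) 2) = e c := hye c
        rw [h2]
        exact ⟨e1, e0⟩)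
    obtain ⟨σ, hσ⟩ := exists_perm (χ 2) (ψ p) (by
      intro g
      rw [hχ1 2 g, hψ1 p (by simp) g, Function.update_self]
      rfl)
    refine ⟨fun i => if i = p then fun j => χ 0 (σ j) else if i = q then fun j => χ 1 (σ j)
      else ψ i, ?_, ?_⟩
    · intro i hi g
      by_cases h1 : i = p
      · subst h1
        simp only [if_true]
        rw [cnt_comp, hχ1 0]
        rfl
      · by_cases h2 : i = q
        · subst h2
          simp only [h1, if_false, if_true]
          rw [cnt_comp, hχ1 1]
          rfl
        · simp only [h1, h2, if_false]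
          rw [hNs] at hi
          have hi' := Finset.mem_of_mem_insert_of_ne (Finset.mem_of_mem_insert_of_ne hi h1) h2
          rw [hψ1 i (by simp [hi']) g, Function.update_of_ne h1]
    · intro j
      rw [hNs, Finset.sum_insert hpN, Finset.sum_insert hqs]
      have h1 : ∑ i ∈ s, (if i = p then fun j => χ 0 (σ j) else
          if i = q then fun j => χ 1 (σ j) else ψ i) j = ∑ i ∈ s, ψ i j := by
        refine Finset.sum_congr rfl fun i hi => ?_
        have h1 : i ≠ p := by rintro rfl; exact hps hi
        have h2 : i ≠ q := by rintro rfl; exact hqs hi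
        simp only [h1, h2, if_false]
      rw [h1]
      simp only [if_true, hpq.symm, if_false]
      have h2 := hψ2 j
      rw [Finset.sum_insert hps, ← hσ j] at h2
      have h3 := hχ2 (σ j)
      have h4 : χ 0 (σ j) + χ 1 (σ j) = χ 2 (σ j) := by
        have h5 := self_add (χ 2 (σ j))
        calc χ 0 (σ j) + χ 1 (σ j) = χ 0 (σ j) + χ 1 (σ j) + (χ 2 (σ j) + χ 2 (σ j)) := by
              rw [h5, add_zero]
          _ = (χ 0 (σ j) + χ 1 (σ j) + χ 2 (σ j)) + χ 2 (σ j) := by abel
          _ = χ 2 (σ j) := by rw [h3, zero_add]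
      rw [← add_assoc, h4]
      exact h2

end Pool.Agent.R841.K3
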