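import Mathlib

set_option autoImplicit false

/-! Gluing local choices along a tree. -/

namespace Pool.Agent.R841.TG

open SimpleGraph

variable {V X : Type*} {T : SimpleGraph V}

/-- transport of a value along a walk -/
def tr (f : ∀ v w : V, T.Adj v w → X → X) : ∀ {u v : V}, T.Walk u v → X → X
  | _, _, Walk.nil, a => a
  | _, _, Walk.cons (u := u) (v := v) h p, a => tr f p (f u v h a)

theorem tr_concat (f : ∀ v w : V, T.Adj v w → X → X) {u v w : V} (p : T.Walk u v)
    (h : T.Adj v w) (a : X) : tr f (p.concat h) a = f v w h (tr f p a) := by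
  induction p generalizing a with
  | nil => rfl
  | cons h' p ih =>
    rw [Walk.concat_cons]
    simp only [tr]
    exact ih h _

theorem tree_glue (hT : T.IsTree) (R : V → V → X → X → Prop)
    (hsymm : ∀ v w a b, T.Adj v w → R v w a b → R w v b a)
    (hext : ∀ v w, T.Adj v w → ∀ a, ∃ b, R v w a b) (x0 : X) :
    ∃ σ : V → X, ∀ v w, T.Adj v w → R v w (σ v) (σ w) := by
  classical
  obtain ⟨r⟩ := hT.connected.nonempty
  choose f hf using hext
  have hp : ∀ v, ∃ p : T.Walk r v, p.IsPath := fun v => (hT.existsUnique_path r v).exists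
  choose P hP using hp
  refine ⟨fun v => tr f (P v) x0, ?_⟩
  intro v w hvw
  by_cases hv : v ∈ (P w).support
  · have := hT.isAcyclic.path_concat (hP v) (hP w) hvw hv
    show R v w (tr f (P v) x0) (tr f (P w) x0)
    rw [this, tr_concat]
    exact hf _ _ _ _
  · have hw := hT.isAcyclic.mem_support_of_ne_mem_support_of_adj_of_isPath (hP v) (hP w) hvw hv
    have := hT.isAcyclic.path_concat (hP w) (hP v) hvw.symm hw
    show R v w (tr f (P v) x0) (tr f (P w) x0)
    rw [this, tr_concat]
    exact hsymm _ _ _ _ hvw.symm (hf _ _ _ _)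

end Pool.Agent.R841.TG
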