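import Mathlib

/-!
# Real inequalities for the restricted Boltzmann machine with 3 visible and 1 hidden unit
-/

namespace Pool.Agent.R841.Rbm

open Real

noncomputable section

/-- Unnormalised binary entropy `(x+y) h(x/(x+y))`. -/
def ee (x y : ℝ) : ℝ := x * log ((x + y) / x) + y * log ((x + y) / y)

/-- Unnormalised mutual information of the table with diagonal `x1, x2` and
antidiagonal `y1, y2`. -/
def JJ (x1 x2 y1 y2 : ℝ) : ℝ :=
  x1 * log (x1 * (x1 + x2 + y1 + y2) / ((x1 + y1) * (x1 + y2)))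
  + x2 * log (x2 * (x1 + x2 + y1 + y2) / ((x2 + y2) * (x2 + y1)))
  + y1 * log (y1 * (x1 + x2 + y1 + y2) / ((x1 + y1) * (x2 + y1)))
  + y2 * log (y2 * (x1 + x2 + y1 + y2) / ((x2 + y2) * (x1 + y2)))

lemma mul_log_le {p u v : ℝ} (hp : 0 ≤ p) (h : 0 < p → 0 < u ∧ u ≤ v) :
    p * log u ≤ p * log v := by
  rcases hp.eq_or_lt with h0 | h0
  · simp [← h0]
  · obtain ⟨h1, h2⟩ := h h0
    exact mul_le_mul_of_nonneg_left (log_le_log h1 h2) hp

lemma mul_log_nonpos {p u : ℝ} (hp : 0 ≤ p) (h : 0 < p → 0 < u ∧ u ≤ 1) :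
    p * log u ≤ 0 := by
  have := mul_log_le hp (v := 1) h
  simpa using this

lemma JJ_swapy (x1 x2 y1 y2 : ℝ) : JJ x1 x2 y1 y2 = JJ x1 x2 y2 y1 := by
  unfold JJ
  rw [show x1 + x2 + y2 + y1 = x1 + x2 + y1 + y2 by ring,
    show (x1 + y2) * (x1 + y1) = (x1 + y1) * (x1 + y2) by ring,
    show (x2 + y1) * (x2 + y2) = (x2 + y2) * (x2 + y1) by ring,
    show (x1 + y2) * (x2 + y2) = (x2 + y2) * (x1 + y2) by ring,
    show (x2 + y1) * (x1 + y1) = (x1 + y1) * (x2 + y1) by ring]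
  ring

lemma JJ_swapx (x1 x2 y1 y2 : ℝ) : JJ x1 x2 y1 y2 = JJ x2 x1 y1 y2 := by
  unfold JJ
  rw [show x2 + x1 + y1 + y2 = x1 + x2 + y1 + y2 by ring,
    show (x2 + y1) * (x2 + y2) = (x2 + y2) * (x2 + y1) by ring,
    show (x1 + y2) * (x1 + y1) = (x1 + y1) * (x1 + y2) by ring,
    show (x2 + y1) * (x1 + y1) = (x1 + y1) * (x2 + y1) by ring,
    show (x1 + y2) * (x2 + y2) = (x2 + y2) * (x1 + y2) by ring]
  ring

lemma JJ_swapxy (x1 x2 y1 y2 : ℝ) : JJ x1 x2 y1 y2 = JJ y1 y2 x1 x2 := by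
  unfold JJ
  rw [show y1 + y2 + x1 + x2 = x1 + x2 + y1 + y2 by ring,
    show (y1 + x1) * (y1 + x2) = (x1 + y1) * (x2 + y1) by ring,
    show (y2 + x2) * (y2 + x1) = (x2 + y2) * (x1 + y2) by ring,
    show (y1 + x1) * (y2 + x1) = (x1 + y1) * (x1 + y2) by ring,
    show (y2 + x2) * (y1 + x2) = (x2 + y2) * (x2 + y1) by ring]
  ring

lemma JJ_le_ee {x1 x2 y1 y2 : ℝ} (h1 : 0 ≤ x1) (h2 : 0 ≤ x2) (h3 : 0 ≤ y1) (h4 : 0 ≤ y2)
    (h : y1 * y2 ≤ x1 * x2) : JJ x1 x2 y1 y2 ≤ ee x1 x2 := by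
  unfold JJ ee
  have e1 : x1 * log (x1 * (x1 + x2 + y1 + y2) / ((x1 + y1) * (x1 + y2)))
      ≤ x1 * log ((x1 + x2) / x1) := by
    apply mul_log_le h1
    intro hx
    refine ⟨by positivity, ?_⟩
    rw [div_le_div_iff₀ (by positivity) hx]
    nlinarith [mul_nonneg h1 h3, mul_nonneg h1 h4, mul_nonneg h3 h4, mul_nonneg h1 h2,
      mul_nonneg (mul_nonneg h1 h3) h4, mul_nonneg (mul_nonneg h1 h2) h3,
      mul_nonneg (mul_nonneg h1 h2) h4, mul_nonneg (mul_nonneg h2 h3) h4]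
  have e2 : x2 * log (x2 * (x1 + x2 + y1 + y2) / ((x2 + y2) * (x2 + y1)))
      ≤ x2 * log ((x1 + x2) / x2) := by
    apply mul_log_le h2
    intro hx
    refine ⟨by positivity, ?_⟩
    rw [div_le_div_iff₀ (by positivity) hx]
    nlinarith [mul_nonneg h2 h3, mul_nonneg h2 h4, mul_nonneg h3 h4, mul_nonneg h1 h2,
      mul_nonneg (mul_nonneg h2 h3) h4, mul_nonneg (mul_nonneg h1 h2) h3,
      mul_nonneg (mul_nonneg h1 h2) h4, mul_nonneg (mul_nonneg h1 h3) h4]
  have e3 : y1 * log (y1 * (x1 + x2 + y1 + y2) / ((x1 + y1) * (x2 + y1))) ≤ 0 := by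
    apply mul_log_nonpos h3
    intro hx
    refine ⟨by positivity, ?_⟩
    rw [div_le_one (by positivity)]
    nlinarith
  have e4 : y2 * log (y2 * (x1 + x2 + y1 + y2) / ((x2 + y2) * (x1 + y2))) ≤ 0 := by
    apply mul_log_nonpos h4
    intro hx
    refine ⟨by positivity, ?_⟩
    rw [div_le_one (by positivity)]
    nlinarith
  linarith

lemma JJ_le_or {x1 x2 y1 y2 : ℝ} (h1 : 0 ≤ x1) (h2 : 0 ≤ x2) (h3 : 0 ≤ y1) (h4 : 0 ≤ y2) :
    JJ x1 x2 y1 y2 ≤ ee x1 x2 ∨ JJ x1 x2 y1 y2 ≤ ee y1 y2 := by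
  rcases le_total (y1 * y2) (x1 * x2) with h | h
  · exact Or.inl (JJ_le_ee h1 h2 h3 h4 h)
  · right
    rw [JJ_swapxy]
    exact JJ_le_ee h3 h4 h1 h2 h

/-- variational upper bound for the entropy function -/
lemma ee_le {x y A B : ℝ} (hx : 0 ≤ x) (hy : 0 ≤ y) (hA : 0 < A) (hB : 0 < B)
    (h : 1 / A + 1 / B ≤ 1) : ee x y ≤ x * log A + y * log B := by
  have key : ∀ {u w D : ℝ}, 0 ≤ u → 0 ≤ w → 0 < D →
      u * log ((u + w) / u) ≤ u * log D + ((u + w) * (1 / D) - u) := by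
    intro u w D hu hw hD
    rcases hu.eq_or_lt with h0 | h0
    · rw [← h0]; simp; positivity
    · have h1 : (u + w) / u = D * ((u + w) * (1 / D) / u) := by field_simp
      have h2 : 0 < (u + w) * (1 / D) / u := by positivity
      rw [h1, log_mul hD.ne' h2.ne']
      have h3 := log_le_sub_one_of_pos h2
      have h4 : u * ((u + w) * (1 / D) / u - 1) = (u + w) * (1 / D) - u := by field_simp
      nlinarith [mul_le_mul_of_nonneg_left h3 hu]
  have k1 := key hx hy hA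
  have k2 := key hy hx hB
  rw [add_comm y x] at k2
  unfold ee
  nlinarith [mul_le_mul_of_nonneg_left h (add_nonneg hx hy)]

lemma ee_le_two {x y : ℝ} (hx : 0 ≤ x) (hy : 0 ≤ y) : ee x y ≤ (x + y) * log 2 := by
  have := ee_le hx hy (A := 2) (B := 2) (by norm_num) (by norm_num) (by norm_num)
  linarith

lemma log43 : log (4 / 3 : ℝ) = 2 * log 2 - log 3 := by
  rw [log_div (by norm_num) (by norm_num), show (4 : ℝ) = 2 ^ 2 by norm_num, log_pow]; norm_num

lemma log4 : log (4 : ℝ) = 2 * log 2 := by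
  rw [show (4 : ℝ) = 2 ^ 2 by norm_num, log_pow]; norm_num

lemma ee_le_quarter {x y : ℝ} (hx : 0 ≤ x) (hy : 0 ≤ y) (h : 3 * y ≤ x) :
    ee x y ≤ (x + y) * (2 * log 2 - 3 / 4 * log 3) := by
  have h1 := ee_le hx hy (A := 4 / 3) (B := 4) (by norm_num) (by norm_num) (by norm_num)
  rw [log43, log4] at h1
  have h3 : 0 < log 3 := log_pos (by norm_num)
  nlinarith

/-- lower bound for the entropy function -/
lemma ee_ge {x y r : ℝ} (hr : 0 < r) (hy : 0 ≤ y) (h : r * y ≤ x) :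
    y * (log (1 + r) + r * log (1 + 1 / r)) ≤ ee x y := by
  rcases hy.eq_or_lt with h0 | h0
  · subst h0
    unfold ee
    rcases eq_or_ne x 0 with h1 | h1
    · simp [h1]
    · simp [h1]
  have hx : 0 < x := lt_of_lt_of_le (by positivity) h
  have e1 : y * log (1 + r) ≤ y * log ((x + y) / y) := by
    apply mul_log_le hy
    intro _
    refine ⟨by positivity, ?_⟩
    rw [le_div_iff₀ h0]
    nlinarith
  have e2 : y * (r * log (1 + 1 / r)) ≤ x * log ((x + y) / x) := by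
    have hb := one_add_mul_self_le_rpow_one_add (s := y / x) (p := x / (r * y))
      (by have : 0 < y / x := by positivity
          linarith) (by rw [le_div_iff₀ (by positivity)]; linarith)
    have e3 : 1 + x / (r * y) * (y / x) = 1 + 1 / r := by field_simp
    rw [e3] at hb
    have e4 : log (1 + 1 / r) ≤ x / (r * y) * log (1 + y / x) := by
      rw [← log_rpow (by positivity)]
      exact log_le_log (by positivity) hb
    have e5 : (x + y) / x = 1 + y / x := by field_simp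
    rw [e5]
    have e6 := mul_le_mul_of_nonneg_left e4 (by positivity : (0 : ℝ) ≤ y * r)
    have e7 : y * r * (x / (r * y) * log (1 + y / x)) = x * log (1 + y / x) := by field_simp
    rw [e7] at e6
    linarith
  unfold ee
  linarith

lemma JJ_eq {x1 x2 y1 y2 : ℝ} (h1 : 0 ≤ x1) (h2 : 0 ≤ x2) (h3 : 0 ≤ y1) (h4 : 0 ≤ y2) :
    JJ x1 x2 y1 y2 = ee (x1 + y1) (x2 + y2) - ee x1 y2 - ee y1 x2 := by
  have key : ∀ p T r s : ℝ, 0 ≤ p → (0 < p → 0 < T ∧ 0 < r ∧ 0 < s) →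
      p * log (p * T / (r * s)) = p * log (T / r) - p * log (s / p) := by
    intro p T r s hp h
    rcases hp.eq_or_lt with h0 | h0
    · rw [← h0]; simp
    · obtain ⟨hT, hr, hs⟩ := h h0
      rw [← mul_sub, ← log_div (by positivity) (by positivity)]
      congr 2
      field_simp
  unfold JJ ee
  rw [key x1 (x1 + x2 + y1 + y2) (x1 + y1) (x1 + y2) h1
      (fun h => ⟨by positivity, by positivity, by positivity⟩),
    key x2 (x1 + x2 + y1 + y2) (x2 + y2) (x2 + y1) h2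
      (fun h => ⟨by positivity, by positivity, by positivity⟩),
    key y1 (x1 + x2 + y1 + y2) (x1 + y1) (x2 + y1) h3
      (fun h => ⟨by positivity, by positivity, by positivity⟩),
    key y2 (x1 + x2 + y1 + y2) (x2 + y2) (x1 + y2) h4
      (fun h => ⟨by positivity, by positivity, by positivity⟩)]
  rw [show x1 + y1 + (x2 + y2) = x1 + x2 + y1 + y2 by ring, add_comm y1 x2]
  ring

/-- If one row dominates the other one by a factor `r` in each column, the mutual information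
is small. -/
lemma JJ_le_dom {x1 x2 y1 y2 r k : ℝ} (h1 : 0 ≤ x1) (h2 : 0 ≤ x2) (h3 : 0 ≤ y1) (h4 : 0 ≤ y2)
    (hr : 0 < r) (hk : 0 < k) (hg : -log k ≤ log (1 + r) + r * log (1 + 1 / r))
    (hx : r * y2 ≤ x1) (hy : r * x2 ≤ y1) :
    JJ x1 x2 y1 y2 ≤ (x1 + x2 + y1 + y2) * log (1 + k) := by
  rw [JJ_eq h1 h2 h3 h4]
  have a1 := ee_ge hr h4 hx
  have a2 := ee_ge hr h2 hy
  have a3 := ee_le (add_nonneg h1 h3) (add_nonneg h2 h4) (A := 1 + k) (B := (1 + k) / k)
    (by positivity) (by positivity) (by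
      have : 1 / (1 + k) + 1 / ((1 + k) / k) = 1 := by field_simp
      exact this.le)
  rw [log_div (by positivity) hk.ne'] at a3
  nlinarith [mul_le_mul_of_nonneg_left hg (add_nonneg h2 h4)]

end

end Pool.Agent.R841.Rbm
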