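import Pool.Agent.R841.RbmA

/-!
# The case analysis for the restricted Boltzmann machine with 3 visible and 1 hidden unit
-/

namespace Pool.Agent.R841.Rbm

open Real

noncomputable section

/-- `log (1 + 2/√3)` -/
def LL : ℝ := log (1 + 2 / √3)

lemma sqrt3_sq : √3 * √3 = (3 : ℝ) := mul_self_sqrt (by norm_num)

lemma sqrt3_lo : (1.732 : ℝ) < √3 := by
  rw [lt_sqrt (by norm_num)]; norm_num

lemma sqrt3_hi : √3 < (1.7321 : ℝ) := by
  rw [sqrt_lt' (by norm_num)]; norm_num

lemma sqrt3_pos : (0 : ℝ) < √3 := by positivity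

lemma two_div_sqrt3 : 2 / √3 = 2 / 3 * √3 := by
  have := sqrt3_sq
  have h := sqrt3_pos
  field_simp
  nlinarith

lemma LL_lo : (2.1546 : ℝ) < 1 + 2 / √3 := by
  rw [two_div_sqrt3]; nlinarith [sqrt3_lo]

lemma LL_hi : 1 + 2 / √3 < (2.1548 : ℝ) := by
  rw [two_div_sqrt3]; nlinarith [sqrt3_hi]

lemma LL_pos : 0 < LL := log_pos (by nlinarith [LL_lo])

lemma LL_eq : LL = -log (2 * √3 - 3) := by
  unfold LL
  rw [← log_inv]
  congr 1
  have h := sqrt3_pos
  have h2 := sqrt3_sq
  have h3 : 0 < 2 * √3 - 3 := by nlinarith [sqrt3_lo]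
  field_simp
  nlinarith

lemma LL_le_four : LL ≤ 4 * (1 - log 2) := by
  have h1 : LL ≤ 2.1548 - 1 := by
    have := log_le_sub_one_of_pos (show (0 : ℝ) < 1 + 2 / √3 by nlinarith [LL_lo])
    unfold LL
    nlinarith [LL_hi]
  have h2 := log_two_lt_d9
  linarith

lemma num_two : 8 * log 2 - 3 * log 3 ≤ 3 * LL := by
  unfold LL
  have h1 : 3 * log (1 + 2 / √3) = log ((1 + 2 / √3) ^ 3) := by rw [log_pow]; norm_num
  have h2 : 8 * log 2 - 3 * log 3 = log (256 / 27 : ℝ) := by
    rw [log_div (by norm_num) (by norm_num), show (256 : ℝ) = 2 ^ 8 by norm_num,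
      show (27 : ℝ) = 3 ^ 3 by norm_num, log_pow, log_pow]; norm_num
  rw [h1, h2]
  apply log_le_log (by norm_num)
  calc (256 / 27 : ℝ) ≤ 2.1546 ^ 3 := by norm_num
    _ ≤ _ := by gcongr; exact LL_lo.le

lemma num_three : 4 * (log (3 / 2) + log (31 / 27)) ≤ 3 * LL := by
  unfold LL
  have h1 : 3 * log (1 + 2 / √3) = log ((1 + 2 / √3) ^ 3) := by rw [log_pow]; norm_num
  have h2 : 4 * (log (3 / 2) + log (31 / 27)) = log ((31 / 18 : ℝ) ^ 4) := by
    rw [log_pow, ← log_mul (by norm_num) (by norm_num)]; norm_num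
  rw [h1, h2]
  apply log_le_log (by norm_num)
  calc ((31 / 18 : ℝ) ^ 4) ≤ 2.1546 ^ 3 := by norm_num
    _ ≤ _ := by gcongr; exact LL_lo.le

/-- the constant `2/(3√3)` -/
def kk : ℝ := 2 / 9 * √3

lemma kk_pos : 0 < kk := by unfold kk; positivity

lemma kk_hi : kk < 0.38492 := by unfold kk; nlinarith [sqrt3_hi]

lemma num_one : 4 * log (1 + kk) + 8 * log 2 ≤ 9 * LL := by
  unfold LL
  have h1 : 9 * log (1 + 2 / √3) = log ((1 + 2 / √3) ^ 9) := by rw [log_pow]; norm_num
  have h2 : 4 * log (1 + kk) + 8 * log 2 = log ((1 + kk) ^ 4 * 2 ^ 8) := by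
    have := kk_pos
    rw [log_mul (by positivity) (by norm_num), log_pow, log_pow]; norm_num
  rw [h1, h2]
  apply log_le_log (by have := kk_pos; positivity)
  calc ((1 + kk) ^ 4 * 2 ^ 8) ≤ (1 + 0.38492) ^ 4 * 2 ^ 8 := by
        have := kk_pos
        have := kk_hi
        gcongr
    _ ≤ 2.1546 ^ 9 := by norm_num
    _ ≤ _ := by gcongr; exact LL_lo.le

lemma kk_le_two : log (1 + kk) ≤ log 2 := by
  apply log_le_log (by have := kk_pos; positivity)
  have := kk_hi
  linarith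

lemma kk_log : -log kk ≤ log (1 + 1 / 2) + 1 / 2 * log (1 + 1 / (1 / 2)) := by
  have h1 : log kk = log 2 - 2 * log 3 + 1 / 2 * log 3 := by
    unfold kk
    rw [log_mul (by norm_num) (by have := sqrt3_pos; positivity), log_sqrt (by norm_num),
      log_div (by norm_num) (by norm_num), show (9 : ℝ) = 3 ^ 2 by norm_num, log_pow]
    push_cast; ring
  rw [h1, show (1 + 1 / 2 : ℝ) = 3 / 2 by norm_num, show (1 + 1 / (1 / 2) : ℝ) = 3 by norm_num,
    log_div (by norm_num) (by norm_num)]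
  linarith

lemma k2_log : -log (4 / 27 : ℝ) ≤ log (1 + 2) + 2 * log (1 + 1 / 2) := by
  rw [show (1 + 2 : ℝ) = 3 by norm_num, show (1 + 1 / 2 : ℝ) = 3 / 2 by norm_num,
    log_div (by norm_num) (by norm_num), log_div (by norm_num) (by norm_num),
    show (27 : ℝ) = 3 ^ 3 by norm_num, log_pow, log4]
  push_cast
  linarith

/-- Case 1: a neighbour of the largest vertex is not small. -/
lemma case1 {a bj di dk bi bk dj c : ℝ} (ha : 0 ≤ a) (hbj : 0 ≤ bj) (hdi : 0 ≤ di) (hdk : 0 ≤ dk)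
    (hbi : 0 ≤ bi) (hbk : 0 ≤ bk) (hdj : 0 ≤ dj) (hc : 0 ≤ c)
    (hs : a + bj + di + dk + (bi + bk + dj + c) = 1)
    (m1 : dk ≤ a) (m2 : bi ≤ a) (m3 : bk ≤ a) (m4 : dj ≤ a) (m5 : c ≤ a)
    (h : bj ≤ 2 * di) :
    JJ a bj di dk + JJ bi bk dj c ≤ 3 / 4 * LL := by
  have h1 := JJ_le_dom ha hbj hdi hdk (r := 1 / 2) (by norm_num) kk_pos kk_log
    (by linarith) (by linarith)
  have h2 := num_one
  have h3 := kk_le_two
  have hl2 : 0 < log 2 := log_pos (by norm_num)
  have h4 : JJ bi bk dj c ≤ (bi + bk + dj + c) * log 2 := by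
    rcases JJ_le_or hbi hbk hdj hc with h | h
    · have := ee_le_two hbi hbk
      nlinarith
    · have := ee_le_two hdj hc
      nlinarith
  have h5 : JJ bi bk dj c ≤ 2 * a * log 2 := by
    rcases JJ_le_or hbi hbk hdj hc with h | h
    · have := ee_le_two hbi hbk
      nlinarith
    · have := ee_le_two hdj hc
      nlinarith
  set P := a + bj + di + dk with hP
  have h6 : bi + bk + dj + c = 1 - P := by linarith
  rw [h6] at h4
  rcases le_total P (1 / 3) with h7 | h7
  · have h8 : 2 * a * log 2 ≤ 2 * P * log 2 := by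
      have : a ≤ P := by linarith
      nlinarith
    have h9 : 0 < log (1 + kk) := log_pos (by have := kk_pos; linarith)
    nlinarith
  · nlinarith

/-- Case 2: one of the three even vertices different from the largest one dominates the
other two. -/
lemma case2 {a bk di dj bi bj dk c : ℝ} (ha : 0 ≤ a) (hbk : 0 ≤ bk) (hdi : 0 ≤ di) (hdj : 0 ≤ dj)
    (hbi : 0 ≤ bi) (hbj : 0 ≤ bj) (hdk : 0 ≤ dk) (hc : 0 ≤ c)
    (hs : a + bk + di + dj + (bi + bj + dk + c) = 1)
    (m1 : di ≤ a) (m2 : bi ≤ a) (n1 : 2 * dj ≤ bk) (n2 : 2 * dk ≤ bj)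
    (h1 : 3 * bk ≤ bi) (h2 : 3 * bj ≤ bi) :
    JJ a bk di dj + JJ bi bj dk c ≤ 3 / 4 * LL := by
  have k1 : JJ a bk di dj ≤ ee a bk := by
    apply JJ_le_ee ha hbk hdi hdj
    nlinarith [mul_le_mul_of_nonneg_right m1 hdj, mul_le_mul_of_nonneg_left n1 ha,
      mul_nonneg ha hdj]
  have k2 := ee_le_quarter ha hbk (by linarith)
  have k3 : JJ bi bj dk c ≤ (bi + bj + dk + c) * (2 * log 2 - 3 / 4 * log 3) := by
    have hpos : 0 ≤ 2 * log 2 - 3 / 4 * log 3 := by
      have h8 : (2 : ℝ) * log 2 - 3 / 4 * log 3 = log (256 / 27) / 4 := by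
        rw [log_div (by norm_num) (by norm_num), show (256 : ℝ) = 2 ^ 8 by norm_num,
          show (27 : ℝ) = 3 ^ 3 by norm_num, log_pow, log_pow]; push_cast; ring
      rw [h8]
      have : 0 ≤ log (256 / 27 : ℝ) := log_nonneg (by norm_num)
      linarith
    rcases le_total (dk * c) (bi * bj) with h | h
    · have := JJ_le_ee hbi hbj hdk hc h
      have := ee_le_quarter hbi hbj (by linarith)
      nlinarith [mul_nonneg hdk hpos, mul_nonneg hc hpos]
    · have t1 : JJ bi bj dk c ≤ ee dk c := by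
        rw [JJ_swapxy]
        exact JJ_le_ee hdk hc hbi hbj h
      have t2 : ee dk c = ee c dk := by unfold ee; rw [add_comm dk c]; ring
      rw [t2] at t1
      have t3 : 3 * dk ≤ c := by
        rcases hbj.eq_or_lt with h0 | h0
        · have : dk = 0 := by linarith
          rw [this]; simpa using hc
        · have h5 : bi * bj ≤ (bj / 2) * c := by
            have : dk * c ≤ (bj / 2) * c := mul_le_mul_of_nonneg_right (by linarith) hc
            linarith
          have h6 : 2 * bi ≤ c := by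
            by_contra hcon
            push Not at hcon
            nlinarith
          linarith
      have := ee_le_quarter hc hdk t3
      nlinarith [mul_nonneg hbi hpos, mul_nonneg hbj hpos]
  have k4 := num_two
  have hpos : 0 ≤ 2 * log 2 - 3 / 4 * log 3 := by
    have h8 : (2 : ℝ) * log 2 - 3 / 4 * log 3 = log (256 / 27) / 4 := by
      rw [log_div (by norm_num) (by norm_num), show (256 : ℝ) = 2 ^ 8 by norm_num,
        show (27 : ℝ) = 3 ^ 3 by norm_num, log_pow, log_pow]; push_cast; ring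
    rw [h8]
    have : 0 ≤ log (256 / 27 : ℝ) := log_nonneg (by norm_num)
    linarith
  have k5 : (a + bk + (bi + bj + dk + c)) * (2 * log 2 - 3 / 4 * log 3)
      ≤ 1 * (2 * log 2 - 3 / 4 * log 3) := by
    apply mul_le_mul_of_nonneg_right _ hpos
    linarith
  nlinarith

/-- Case 3: the vertex opposite to the largest one is not small. -/
lemma case3 {a bk di dj bi bj dk c : ℝ} (ha : 0 ≤ a) (hbk : 0 ≤ bk) (hdi : 0 ≤ di) (hdj : 0 ≤ dj)
    (hbi : 0 ≤ bi) (hbj : 0 ≤ bj) (hdk : 0 ≤ dk) (hc : 0 ≤ c)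
    (hs : a + bk + di + dj + (bi + bj + dk + c) = 1)
    (m1 : di ≤ a) (n1 : 2 * dj ≤ bk) (n2 : 2 * dk ≤ bi)
    (h1 : bk ≤ bi) (h2 : bj ≤ bi)
    (h3 : 4 * (bi * bj + bi * bk + bj * bk) < c ^ 2) :
    JJ a bk di dj + JJ bi bj dk c ≤ 3 / 4 * LL := by
  have k1 : JJ a bk di dj ≤ ee a bk := by
    apply JJ_le_ee ha hbk hdi hdj
    nlinarith [mul_le_mul_of_nonneg_right m1 hdj, mul_le_mul_of_nonneg_left n1 ha,
      mul_nonneg ha hdj]
  have k2 := ee_le ha hbk (A := 3 / 2) (B := 27 / 8) (by norm_num) (by norm_num) (by norm_num)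
  have k3 : log (27 / 8 : ℝ) = 3 * log (3 / 2) := by
    rw [show (27 / 8 : ℝ) = (3 / 2) ^ 3 by norm_num, log_pow]; norm_num
  rw [k3] at k2
  have c1 : 2 * bk ≤ c := by
    by_contra hcon
    push Not at hcon
    nlinarith [mul_nonneg hbi hbj, mul_nonneg hbj hbk, mul_nonneg hbk (sub_nonneg.2 h1),
      mul_pos (show 0 < 2 * bk - c by linarith) (show 0 < 2 * bk + c by linarith)]
  have c2 : 2 * bj ≤ c := by
    by_contra hcon
    push Not at hcon
    nlinarith [mul_nonneg hbi hbk, mul_nonneg hbj hbk, mul_nonneg hbj (sub_nonneg.2 h2),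
      mul_pos (show 0 < 2 * bj - c by linarith) (show 0 < 2 * bj + c by linarith)]
  have k4 : JJ bi bj dk c ≤ (bi + bj + dk + c) * log (31 / 27) := by
    rw [JJ_swapy]
    have := JJ_le_dom hbi hbj hc hdk (r := 2) (k := 4 / 27) (by norm_num) (by norm_num) k2_log
      (by linarith) (by linarith)
    rw [show (1 + 4 / 27 : ℝ) = 31 / 27 by norm_num] at this
    linarith
  have k5 := num_three
  have l1 : 0 < log (3 / 2 : ℝ) := log_pos (by norm_num)
  have l2 : 0 < log (31 / 27 : ℝ) := log_pos (by norm_num)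
  have k6 : (a + 3 * bk) * log (3 / 2) ≤ 1 * log (3 / 2) := by
    apply mul_le_mul_of_nonneg_right _ l1.le
    linarith
  have k7 : (bi + bj + dk + c) * log (31 / 27) ≤ 1 * log (31 / 27) := by
    apply mul_le_mul_of_nonneg_right _ l2.le
    linarith
  nlinarith

end

end Pool.Agent.R841.Rbm
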