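import Pool.Agent.R841.RbmB

/-!
# Case analysis, conclusion: the point-mass plus product approximation
-/

namespace Pool.Agent.R841.Rbm

open Real

noncomputable section

lemma ratio_bd {bi bj bk di : ℝ} (hbi : 0 < bi) (hbj : 0 < bj) (hbk : 0 < bk) (hdi : 0 ≤ di)
    (h1 : 2 * di ≤ bj) (h2 : 2 * di ≤ bk) (h3 : bi ≤ 3 * bj ∨ bi ≤ 3 * bk) :
    di * √(bi * bj + bi * bk + bj * bk) ≤ 2 * (bj * bk) := by
  have hE : 0 < bi * bj + bi * bk + bj * bk := by positivity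
  have key : di ^ 2 * (bi * bj + bi * bk + bj * bk) ≤ (2 * (bj * bk)) ^ 2 := by
    have main : ∀ {u w : ℝ}, 0 < u → 0 < w → 2 * di ≤ u → u ≤ w → bi ≤ 3 * w →
        di ^ 2 * (bi * u + bi * w + u * w) ≤ (2 * (u * w)) ^ 2 := by
      intro u w hu hw e1 e2 e3
      have e4 : bi * u + bi * w + u * w ≤ 7 * w ^ 2 := by nlinarith
      have e5 : di ^ 2 ≤ u ^ 2 / 4 := by nlinarith
      calc di ^ 2 * (bi * u + bi * w + u * w) ≤ (u ^ 2 / 4) * (7 * w ^ 2) := by gcongr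
        _ ≤ (2 * (u * w)) ^ 2 := by nlinarith [mul_pos (pow_pos hu 2) (pow_pos hw 2)]
    rcases le_total bj bk with h | h
    · have h4 : bi ≤ 3 * bk := by rcases h3 with h3 | h3 <;> linarith
      exact main hbj hbk h1 h h4
    · have h4 : bi ≤ 3 * bj := by rcases h3 with h3 | h3 <;> linarith
      have := main hbk hbj h2 h h4
      nlinarith
  have h4 : di * √(bi * bj + bi * bk + bj * bk)
      = √(di ^ 2 * (bi * bj + bi * bk + bj * bk)) := by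
    rw [sqrt_mul (by positivity), sqrt_sq hdi]
  rw [h4]
  exact sqrt_le_iff.2 ⟨by positivity, key⟩

/-- the estimate for the point mass plus product approximation -/
lemma case4 {a b0 b1 b2 c d0 d1 d2 C U : ℝ} (ha : 0 ≤ a)
    (hb0 : 0 < b0) (hb1 : 0 < b1) (hb2 : 0 < b2) (hc : 0 ≤ c)
    (hd0 : 0 ≤ d0) (hd1 : 0 ≤ d1) (hd2 : 0 ≤ d2)
    (hs : a + b0 + b1 + b2 + c + d0 + d1 + d2 = 1)
    (m0 : b0 ≤ a) (m1 : b1 ≤ a) (m2 : b2 ≤ a)
    (hC : C = √(b0 * b1 + b0 * b2 + b1 * b2)) (hU : U = b0 + b1 + b2 + 2 * C)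
    (hcC : c ≤ 2 * C) (r0 : d0 * C ≤ 2 * (b1 * b2)) (r1 : d1 * C ≤ 2 * (b0 * b2))
    (r2 : d2 * C ≤ 2 * (b0 * b1)) :
    (1 - a) * log (U / (1 - a)) + c * log (c / C) + d0 * log (d0 * C / (b1 * b2))
      + d1 * log (d1 * C / (b0 * b2)) + d2 * log (d2 * C / (b0 * b1)) ≤ 3 / 4 * LL := by
  have hE : 0 < b0 * b1 + b0 * b2 + b1 * b2 := by positivity
  have hCp : 0 < C := by rw [hC]; exact sqrt_pos.2 hE
  have hUp : 0 < U := by rw [hU]; positivity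
  have hl2 : 0 < log 2 := log_pos (by norm_num)
  have t1 : c * log (c / C) ≤ c * log 2 := by
    apply mul_log_le hc
    intro h
    exact ⟨by positivity, by rw [div_le_iff₀ hCp]; exact hcC⟩
  have t2 : ∀ {d w : ℝ}, 0 ≤ d → 0 < w → d * C ≤ 2 * w → d * log (d * C / w) ≤ d * log 2 := by
    intro d w hd hw h
    apply mul_log_le hd
    intro h'
    exact ⟨by positivity, by rw [div_le_iff₀ hw]; exact h⟩
  have t3 := t2 hd0 (mul_pos hb1 hb2) r0
  have t4 := t2 hd1 (mul_pos hb0 hb2) r1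
  have t5 := t2 hd2 (mul_pos hb0 hb1) r2
  have hA : 0 < 1 - a := by linarith
  set A := 1 - a with hAdef
  set S := b0 + b1 + b2 with hS
  have hSp : 0 < S := by positivity
  have hCS : C ≤ S / √3 := by
    rw [hC]
    apply sqrt_le_iff.2
    refine ⟨by positivity, ?_⟩
    rw [div_pow, sq_sqrt (by norm_num)]
    rw [le_div_iff₀ (by norm_num)]
    nlinarith [sq_nonneg (b0 - b1), sq_nonneg (b0 - b2), sq_nonneg (b1 - b2)]
  have hUS : U ≤ (1 + 2 / √3) * S := by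
    rw [hU]
    have : (1 + 2 / √3) * S = S + 2 * (S / √3) := by ring
    rw [this]; linarith
  have t6 : log (U / A) ≤ LL + (S / A - 1) := by
    have h1 : log (U / A) ≤ log ((1 + 2 / √3) * (S / A)) := by
      apply log_le_log (by positivity)
      rw [← mul_div_assoc]
      gcongr
    have h2 : log ((1 + 2 / √3) * (S / A)) = LL + log (S / A) := by
      rw [log_mul (by positivity) (by positivity)]; rfl
    have h3 := log_le_sub_one_of_pos (show 0 < S / A by positivity)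
    linarith
  have t7 : A * log (U / A) ≤ A * LL + (S - A) := by
    have h1 := mul_le_mul_of_nonneg_left t6 hA.le
    have h2 : A * (LL + (S / A - 1)) = A * LL + (S - A) := by field_simp
    linarith
  have hSA : S - A = -(c + d0 + d1 + d2) := by linarith
  have hL := LL_le_four
  have hLp := LL_pos
  have hlt : log 2 < 1 := by have := log_two_lt_d9; linarith
  set ε := c + d0 + d1 + d2 with hε
  have hε0 : 0 ≤ ε := by positivity
  have hε1 : 4 * A - 3 ≤ ε := by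
    have : S ≤ 3 * a := by linarith
    linarith
  have t8 : A * LL - ε + ε * log 2 ≤ 3 / 4 * LL := by
    rcases le_total A (3 / 4) with h | h
    · nlinarith
    · nlinarith [mul_le_mul_of_nonneg_left hL (sub_nonneg.2 h),
        mul_le_mul_of_nonneg_right hε1 (sub_nonneg.2 hlt.le)]
  nlinarith

lemma K0_bd {a b0 b1 b2 C U : ℝ} (ha : 1 / 8 ≤ a) (ha1 : a ≤ 1)
    (hb0 : 0 < b0) (hb1 : 0 < b1) (hb2 : 0 < b2)
    (hC : C ^ 2 = b0 * b1 + b0 * b2 + b1 * b2) (hCp : 0 < C) (hU : U = b0 + b1 + b2 + 2 * C) :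
    (1 - a) * (b0 * b1 * b2) ≤ a * U * C ^ 2 := by
  have h1 : 9 * (b0 * b1 * b2) ≤ (b0 + b1 + b2) * C ^ 2 := by
    rw [hC]
    nlinarith [mul_nonneg hb0.le (sq_nonneg (b1 - b2)), mul_nonneg hb1.le (sq_nonneg (b0 - b2)),
      mul_nonneg hb2.le (sq_nonneg (b0 - b1))]
  have h2 : (b0 + b1 + b2) * C ^ 2 ≤ U * C ^ 2 := by
    apply mul_le_mul_of_nonneg_right _ (by positivity)
    rw [hU]; linarith
  have h3 : 0 < b0 * b1 * b2 := by positivity
  have h4 : 0 < U * C ^ 2 := by rw [hU]; positivity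
  nlinarith

/-- the case analysis -/
theorem core {a b0 b1 b2 c d0 d1 d2 : ℝ} (ha : 0 ≤ a)
    (hb0 : 0 ≤ b0) (hb1 : 0 ≤ b1) (hb2 : 0 ≤ b2) (hc : 0 ≤ c)
    (hd0 : 0 ≤ d0) (hd1 : 0 ≤ d1) (hd2 : 0 ≤ d2)
    (hs : a + b0 + b1 + b2 + c + d0 + d1 + d2 = 1)
    (m0 : b0 ≤ a) (m1 : b1 ≤ a) (m2 : b2 ≤ a) (m3 : c ≤ a)
    (m4 : d0 ≤ a) (m5 : d1 ≤ a) (m6 : d2 ≤ a) :
    JJ a b0 d1 d2 + JJ b1 b2 d0 c ≤ 3 / 4 * LL ∨
    JJ a b1 d0 d2 + JJ b0 b2 d1 c ≤ 3 / 4 * LL ∨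
    JJ a b2 d0 d1 + JJ b0 b1 d2 c ≤ 3 / 4 * LL ∨
    (0 < b0 ∧ 0 < b1 ∧ 0 < b2 ∧ c ≤ 2 * √(b0 * b1 + b0 * b2 + b1 * b2) ∧
      d0 * √(b0 * b1 + b0 * b2 + b1 * b2) ≤ 2 * (b1 * b2) ∧
      d1 * √(b0 * b1 + b0 * b2 + b1 * b2) ≤ 2 * (b0 * b2) ∧
      d2 * √(b0 * b1 + b0 * b2 + b1 * b2) ≤ 2 * (b0 * b1)) := by
  by_cases c1 : b0 ≤ 2 * d1
  · exact Or.inl (case1 ha hb0 hd1 hd2 hb1 hb2 hd0 hc (by linarith) m6 m1 m2 m4 m3 c1)
  by_cases c2 : b0 ≤ 2 * d2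
  · left
    rw [JJ_swapy a b0 d1 d2]
    exact case1 ha hb0 hd2 hd1 hb1 hb2 hd0 hc (by linarith) m5 m1 m2 m4 m3 c2
  by_cases c3 : b1 ≤ 2 * d0
  · exact Or.inr (Or.inl
      (case1 ha hb1 hd0 hd2 hb0 hb2 hd1 hc (by linarith) m6 m0 m2 m5 m3 c3))
  by_cases c4 : b1 ≤ 2 * d2
  · right; left
    rw [JJ_swapy a b1 d0 d2]
    exact case1 ha hb1 hd2 hd0 hb0 hb2 hd1 hc (by linarith) m4 m0 m2 m5 m3 c4
  by_cases c5 : b2 ≤ 2 * d0
  · exact Or.inr (Or.inr (Or.inl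
      (case1 ha hb2 hd0 hd1 hb0 hb1 hd2 hc (by linarith) m5 m0 m1 m6 m3 c5)))
  by_cases c6 : b2 ≤ 2 * d1
  · right; right; left
    rw [JJ_swapy a b2 d0 d1]
    exact case1 ha hb2 hd1 hd0 hb0 hb1 hd2 hc (by linarith) m4 m0 m1 m6 m3 c6
  push Not at c1 c2 c3 c4 c5 c6
  by_cases e0 : 3 * b1 ≤ b0 ∧ 3 * b2 ≤ b0
  · right; right; left
    exact case2 ha hb2 hd0 hd1 hb0 hb1 hd2 hc (by linarith) m4 m0 c6.le c4.le e0.2 e0.1
  by_cases e1 : 3 * b0 ≤ b1 ∧ 3 * b2 ≤ b1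
  · right; right; left
    rw [JJ_swapy a b2 d0 d1, JJ_swapx b0 b1 d2 c]
    exact case2 ha hb2 hd1 hd0 hb1 hb0 hd2 hc (by linarith) m5 m1 c5.le c2.le e1.2 e1.1
  by_cases e2 : 3 * b0 ≤ b2 ∧ 3 * b1 ≤ b2
  · left
    rw [JJ_swapy a b0 d1 d2, JJ_swapx b1 b2 d0 c]
    exact case2 ha hb0 hd2 hd1 hb2 hb1 hd0 hc (by linarith) m6 m2 c1.le c3.le e2.1 e2.2
  have pb0 : 0 < b0 := by linarith
  have pb1 : 0 < b1 := by linarith
  have pb2 : 0 < b2 := by linarith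
  have hE : 0 ≤ b0 * b1 + b0 * b2 + b1 * b2 := by positivity
  by_cases f : 4 * (b0 * b1 + b0 * b2 + b1 * b2) < c ^ 2
  · rcases le_total b0 b1 with g1 | g1
    · rcases le_total b1 b2 with g2 | g2
      · -- b2 largest
        left
        rw [JJ_swapy a b0 d1 d2, JJ_swapx b1 b2 d0 c]
        exact case3 ha hb0 hd2 hd1 hb2 hb1 hd0 hc (by linarith) m6 c1.le c5.le (by linarith)
          g2 (by linarith)
      · -- b1 largest
        right; right; left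
        rw [JJ_swapy a b2 d0 d1, JJ_swapx b0 b1 d2 c]
        exact case3 ha hb2 hd1 hd0 hb1 hb0 hd2 hc (by linarith) m5 c5.le c4.le g2 g1
          (by linarith)
    · rcases le_total b0 b2 with g2 | g2
      · -- b2 largest
        left
        rw [JJ_swapy a b0 d1 d2, JJ_swapx b1 b2 d0 c]
        exact case3 ha hb0 hd2 hd1 hb2 hb1 hd0 hc (by linarith) m6 c1.le c5.le g2
          (by linarith) (by linarith)
      · -- b0 largest
        right; right; left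
        exact case3 ha hb2 hd0 hd1 hb0 hb1 hd2 hc (by linarith) m4 c6.le c2.le g2 g1
          (by linarith)
  · right; right; right
    push Not at f
    refine ⟨pb0, pb1, pb2, ?_, ?_, ?_, ?_⟩
    · have h1 : c ≤ √(4 * (b0 * b1 + b0 * b2 + b1 * b2)) := le_sqrt_of_sq_le f
      rw [sqrt_mul (by norm_num), show (4 : ℝ) = 2 ^ 2 by norm_num, sqrt_sq (by norm_num)] at h1
      exact h1
    · have := ratio_bd pb0 pb1 pb2 hd0 c3.le c5.le (by
        by_contra hcon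
        push Not at hcon
        exact e0 ⟨hcon.1.le, hcon.2.le⟩)
      rwa [show b0 * b1 + b0 * b2 + b1 * b2 = b0 * b1 + b0 * b2 + b1 * b2 by ring]
    · have := ratio_bd pb1 pb0 pb2 hd1 c1.le c6.le (by
        by_contra hcon
        push Not at hcon
        exact e1 ⟨hcon.1.le, hcon.2.le⟩)
      rwa [show b1 * b0 + b1 * b2 + b0 * b2 = b0 * b1 + b0 * b2 + b1 * b2 by ring] at this
    · have := ratio_bd pb2 pb0 pb1 hd2 c2.le c4.le (by
        by_contra hcon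
        push Not at hcon
        exact e2 ⟨hcon.1.le, hcon.2.le⟩)
      rwa [show b2 * b0 + b2 * b1 + b0 * b1 = b0 * b1 + b0 * b2 + b1 * b2 by ring] at this

end

end Pool.Agent.R841.Rbm
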