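import Pool.Agent.R841.RbmC

/-!
# The restricted Boltzmann machine: definitions and mixtures of two product distributions
-/

namespace Pool.Agent.R841.Rbm

open Real

noncomputable section

/-- The value `0` or `1` of a bit. -/
def bv (x : Bool) : ℝ := if x then 1 else 0

@[simp] lemma bv_true : bv true = 1 := rfl

@[simp] lemma bv_false : bv false = 0 := rfl

/-- The unnormalised weight `∑_h exp(hᵀ W v + bᵀ v + cᵀ h)`. -/
def rbmWeight {n m : ℕ} (W : Fin m → Fin n → ℝ) (b : Fin n → ℝ) (c : Fin m → ℝ)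
    (v : Fin n → Bool) : ℝ :=
  ∑ h : Fin m → Bool, exp ((∑ j, ∑ i, bv (h j) * W j i * bv (v i)) + (∑ i, b i * bv (v i))
    + ∑ j, c j * bv (h j))

/-- The distribution of the visible units for given parameters. -/
def rbm {n m : ℕ} (W : Fin m → Fin n → ℝ) (b : Fin n → ℝ) (c : Fin m → ℝ)
    (v : Fin n → Bool) : ℝ := rbmWeight W b c v / ∑ u, rbmWeight W b c u

/-- The model `RBM_{n,m}`. -/
def RBM (n m : ℕ) : Set ((Fin n → Bool) → ℝ) := {q | ∃ W b c, q = rbm (m := m) W b c}

/-- Kullback–Leibler divergence (natural logarithm, `0 log 0 = 0`). -/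
def KL {n : ℕ} (p q : (Fin n → Bool) → ℝ) : ℝ := ∑ x, p x * log (p x / q x)

/-- The divergence `inf_{q ∈ M} D(p ‖ q)` of `p` from a model `M`. -/
def divFrom {n : ℕ} (M : Set ((Fin n → Bool) → ℝ)) (p : (Fin n → Bool) → ℝ) : ℝ :=
  sInf {r | ∃ q ∈ M, r = KL p q}

/-- The maximum divergence `sup_p inf_q D(p ‖ q)` from `RBM_{n,m}`. -/
def maxDiv (n m : ℕ) : ℝ :=
  sSup {r | ∃ p ∈ stdSimplex ℝ (Fin n → Bool), r = divFrom (RBM n m) p}

lemma univ8 : (Finset.univ : Finset (Fin 3 → Bool)) =
    {![false, false, false], ![true, false, false], ![false, true, false], ![false, false, true],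
      ![false, true, true], ![true, false, true], ![true, true, false], ![true, true, true]} := by
  decide

lemma sum8 (f : (Fin 3 → Bool) → ℝ) : ∑ x, f x =
    f ![false, false, false] + f ![true, false, false] + f ![false, true, false]
      + f ![false, false, true] + f ![false, true, true] + f ![true, false, true]
      + f ![true, true, false] + f ![true, true, true] := by
  rw [univ8, Finset.sum_insert (by decide), Finset.sum_insert (by decide),
    Finset.sum_insert (by decide), Finset.sum_insert (by decide), Finset.sum_insert (by decide),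
    Finset.sum_insert (by decide), Finset.sum_insert (by decide), Finset.sum_singleton]
  ring

lemma forall8 {P : (Fin 3 → Bool) → Prop}
    (h0 : P ![false, false, false]) (h1 : P ![true, false, false]) (h2 : P ![false, true, false])
    (h3 : P ![false, false, true]) (h4 : P ![false, true, true]) (h5 : P ![true, false, true])
    (h6 : P ![true, true, false]) (h7 : P ![true, true, true]) (x : Fin 3 → Bool) : P x := by
  have hx : x ∈ (Finset.univ : Finset (Fin 3 → Bool)) := Finset.mem_univ x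
  rw [univ8] at hx
  simp only [Finset.mem_insert, Finset.mem_singleton] at hx
  rcases hx with h | h | h | h | h | h | h | h <;> rw [h] <;> assumption

/-- A product distribution on three bits. -/
def prodD (α : Fin 3 → ℝ) (x : Fin 3 → Bool) : ℝ := ∏ i, (if x i then α i else 1 - α i)

/-- A mixture of two product distributions on three bits. -/
def mixD (t : ℝ) (α β : Fin 3 → ℝ) (x : Fin 3 → Bool) : ℝ :=
  (1 - t) * prodD α x + t * prodD β x

lemma prodD_sum (α : Fin 3 → ℝ) : ∑ x, prodD α x = 1 := by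
  rw [sum8]
  simp only [prodD, Fin.prod_univ_three, Matrix.cons_val_zero, Matrix.cons_val_one,
    Matrix.cons_val_two, Matrix.head_cons, Matrix.tail_cons]
  simp
  ring

lemma mixD_sum (t : ℝ) (α β : Fin 3 → ℝ) : ∑ x, mixD t α β x = 1 := by
  unfold mixD
  rw [Finset.sum_add_distrib, ← Finset.mul_sum, ← Finset.mul_sum, prodD_sum, prodD_sum]
  ring

lemma sum_fin1 (f : (Fin 1 → Bool) → ℝ) :
    ∑ h, f h = f (fun _ => false) + f (fun _ => true) := by
  have : (Finset.univ : Finset (Fin 1 → Bool)) = {fun _ => false, fun _ => true} := by decide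
  rw [this, Finset.sum_insert (by decide), Finset.sum_singleton]

lemma rbmWeight_one (W : Fin 1 → Fin 3 → ℝ) (b : Fin 3 → ℝ) (c : Fin 1 → ℝ)
    (v : Fin 3 → Bool) : rbmWeight W b c v =
      (∏ i, exp (b i * bv (v i))) + exp (c 0) * ∏ i, exp ((b i + W 0 i) * bv (v i)) := by
  unfold rbmWeight
  rw [sum_fin1, ← Real.exp_sum, ← Real.exp_sum, ← Real.exp_add]
  congr 1
  · congr 1
    simp [bv]
  · congr 1
    have h1 : ∑ i, (b i + W 0 i) * bv (v i) = ∑ i, b i * bv (v i) + ∑ i, W 0 i * bv (v i) := by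
      rw [← Finset.sum_add_distrib]
      exact Finset.sum_congr rfl (fun i _ => by ring)
    rw [h1]
    simp only [Fin.sum_univ_one, bv_true, one_mul, mul_one]
    ring

/-- Mixtures of two strictly positive product distributions belong to `RBM_{3,1}`. -/
lemma mixD_mem {t : ℝ} {α β : Fin 3 → ℝ} (ht0 : 0 < t) (ht1 : t < 1)
    (hα0 : ∀ i, 0 < α i) (hα1 : ∀ i, α i < 1) (hβ0 : ∀ i, 0 < β i) (hβ1 : ∀ i, β i < 1) :
    mixD t α β ∈ RBM 3 1 := by
  have hαp : 0 < ∏ i, (1 - α i) := Finset.prod_pos (fun i _ => by linarith [hα1 i])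
  have hβp : 0 < ∏ i, (1 - β i) := Finset.prod_pos (fun i _ => by linarith [hβ1 i])
  refine ⟨fun _ i => log (β i / (1 - β i)) - log (α i / (1 - α i)),
    fun i => log (α i / (1 - α i)), fun _ => log (t * (∏ i, (1 - β i)) /
      ((1 - t) * ∏ i, (1 - α i))), ?_⟩
  have key : ∀ v, rbmWeight (fun (_ : Fin 1) i => log (β i / (1 - β i)) - log (α i / (1 - α i)))
      (fun i => log (α i / (1 - α i))) (fun _ => log (t * (∏ i, (1 - β i)) /
      ((1 - t) * ∏ i, (1 - α i)))) v = mixD t α β v / ((1 - t) * ∏ i, (1 - α i)) := by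
    intro v
    rw [rbmWeight_one]
    have h1 : ∀ (γ : Fin 3 → ℝ), (∀ i, 0 < γ i) → (∀ i, γ i < 1) →
        ∏ i, exp (log (γ i / (1 - γ i)) * bv (v i)) = prodD γ v / ∏ i, (1 - γ i) := by
      intro γ h0 h1
      unfold prodD
      rw [← Finset.prod_div_distrib]
      apply Finset.prod_congr rfl
      intro i _
      have := h0 i
      have := h1 i
      have h2 : 0 < 1 - γ i := by linarith
      by_cases hv : v i
      · simp only [bv, hv, if_true, mul_one]
        rw [exp_log (by positivity)]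
      · simp only [bv, hv, if_false, mul_zero, exp_zero, Bool.false_eq_true]
        rw [div_self h2.ne']
    rw [h1 α hα0 hα1]
    have h2 : ∀ i, log (α i / (1 - α i)) + (log (β i / (1 - β i)) - log (α i / (1 - α i)))
        = log (β i / (1 - β i)) := fun i => by ring
    simp only [h2]
    rw [h1 β hβ0 hβ1, exp_log (by have : 0 < 1 - t := by linarith
                                  positivity)]
    unfold mixD
    have : 0 < 1 - t := by linarith
    field_simp
  funext v
  unfold rbm
  simp only [key]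
  rw [← Finset.sum_div, mixD_sum]
  have : 0 < 1 - t := by linarith
  field_simp

lemma prodD_nonneg {α : Fin 3 → ℝ} (h0 : ∀ i, 0 ≤ α i) (h1 : ∀ i, α i ≤ 1) (x) :
    0 ≤ prodD α x := by
  unfold prodD
  apply Finset.prod_nonneg
  intro i _
  split_ifs
  · exact h0 i
  · linarith [h1 i]

/-- closed mixtures can be approximated by elements of `RBM_{3,1}` -/
lemma approx {p : (Fin 3 → Bool) → ℝ} (hp : p ∈ stdSimplex ℝ (Fin 3 → Bool)) {t : ℝ}
    {α β : Fin 3 → ℝ} (ht0 : 0 ≤ t) (ht1 : t ≤ 1)
    (hα0 : ∀ i, 0 ≤ α i) (hα1 : ∀ i, α i ≤ 1) (hβ0 : ∀ i, 0 ≤ β i) (hβ1 : ∀ i, β i ≤ 1)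
    (hpos : ∀ x, 0 < p x → 0 < mixD t α β x) {η : ℝ} (hη : 0 < η) :
    ∃ q ∈ RBM 3 1, KL p q ≤ KL p (mixD t α β) + η := by
  set s := 1 - exp (-(η / 4)) with hs
  have he1 : exp (-(η / 4)) < 1 := by rw [exp_lt_one_iff]; linarith
  have he0 := exp_pos (-(η / 4))
  have hs0 : 0 < s := by linarith
  have hs1 : s < 1 := by linarith
  set t' := (1 - s) * t + s / 2 with ht'
  set α' : Fin 3 → ℝ := fun i => (1 - s) * α i + s / 2 with hα'
  set β' : Fin 3 → ℝ := fun i => (1 - s) * β i + s / 2 with hβ'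
  have hin : ∀ u : ℝ, 0 ≤ u → u ≤ 1 → 0 < (1 - s) * u + s / 2 ∧ (1 - s) * u + s / 2 < 1 := by
    intro u h0 h1
    constructor
    · have := mul_nonneg (sub_nonneg.2 hs1.le) h0
      linarith
    · nlinarith
  refine ⟨mixD t' α' β', mixD_mem (hin t ht0 ht1).1 (hin t ht0 ht1).2
    (fun i => (hin _ (hα0 i) (hα1 i)).1) (fun i => (hin _ (hα0 i) (hα1 i)).2)
    (fun i => (hin _ (hβ0 i) (hβ1 i)).1) (fun i => (hin _ (hβ0 i) (hβ1 i)).2), ?_⟩
  have hprod : ∀ (γ : Fin 3 → ℝ), (∀ i, 0 ≤ γ i) → (∀ i, γ i ≤ 1) → ∀ x,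
      (1 - s) ^ 3 * prodD γ x ≤ prodD (fun i => (1 - s) * γ i + s / 2) x := by
    intro γ h0 h1 x
    unfold prodD
    have : (1 - s) ^ 3 = ∏ _i : Fin 3, (1 - s) := by simp
    rw [this, ← Finset.prod_mul_distrib]
    apply Finset.prod_le_prod
    · intro i _
      apply mul_nonneg (by linarith)
      split_ifs
      · exact h0 i
      · linarith [h1 i]
    · intro i _
      split_ifs
      · linarith
      · nlinarith
  have hmix : ∀ x, (1 - s) ^ 4 * mixD t α β x ≤ mixD t' α' β' x := by
    intro x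
    unfold mixD
    have h1 := hprod α hα0 hα1 x
    have h2 := hprod β hβ0 hβ1 x
    have h3 := prodD_nonneg hα0 hα1 x
    have h4 := prodD_nonneg hβ0 hβ1 x
    have h5 : 0 ≤ (1 - s) := by linarith
    have h6 : (1 - s) * (1 - t) ≤ 1 - t' := by rw [ht']; nlinarith
    have h7 : (1 - s) * t ≤ t' := by rw [ht']; linarith
    have h8 : 0 ≤ (1 - s) * (1 - t) := mul_nonneg h5 (by linarith)
    have h9 : 0 ≤ (1 - s) * t := mul_nonneg h5 ht0
    have e1 : ((1 - s) * (1 - t)) * ((1 - s) ^ 3 * prodD α x) ≤ (1 - t') * prodD α' x :=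
      mul_le_mul h6 h1 (by positivity) (le_trans h8 h6)
    have e2 : ((1 - s) * t) * ((1 - s) ^ 3 * prodD β x) ≤ t' * prodD β' x :=
      mul_le_mul h7 h2 (by positivity) (le_trans h9 h7)
    calc _ = ((1 - s) * (1 - t)) * ((1 - s) ^ 3 * prodD α x)
          + ((1 - s) * t) * ((1 - s) ^ 3 * prodD β x) := by ring
      _ ≤ _ := add_le_add e1 e2
  have h1s : 1 - s = exp (-(η / 4)) := by rw [hs]; ring
  have hlog : log ((1 - s) ^ 4) = -η := by
    rw [log_pow, h1s, log_exp]; push_cast; ring
  have hterm : ∀ x, p x * log (p x / mixD t' α' β' x)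
      ≤ p x * log (p x / mixD t α β x) + p x * η := by
    intro x
    rcases (hp.1 x).eq_or_lt with h0 | h0
    · rw [← h0]; simp
    · have hm := hpos x h0
      have hm' : 0 < (1 - s) ^ 4 := by have : 0 < 1 - s := by linarith
                                       positivity
      have h2 : log (p x / mixD t' α' β' x) ≤ log (p x / ((1 - s) ^ 4 * mixD t α β x)) := by
        apply log_le_log (div_pos h0 (lt_of_lt_of_le (mul_pos hm' hm) (hmix x)))
        exact div_le_div_of_nonneg_left h0.le (mul_pos hm' hm) (hmix x)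
      have h3 : log (p x / ((1 - s) ^ 4 * mixD t α β x)) = log (p x / mixD t α β x) + η := by
        rw [log_div h0.ne' (mul_pos hm' hm).ne', log_mul hm'.ne' hm.ne', hlog,
          log_div h0.ne' hm.ne']
        ring
      nlinarith [mul_le_mul_of_nonneg_left h2 h0.le]
  calc KL p (mixD t' α' β') ≤ ∑ x, (p x * log (p x / mixD t α β x) + p x * η) :=
        Finset.sum_le_sum (fun x _ => hterm x)
    _ = KL p (mixD t α β) + η := by
        rw [Finset.sum_add_distrib, ← Finset.sum_mul, hp.2, one_mul]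
        rfl

end

end Pool.Agent.R841.Rbm
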