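import Pool.Agent.R841.RbmD

/-!
# Every distribution on three bits is close to a mixture of two product distributions
-/

namespace Pool.Agent.R841.Rbm

open Real

noncomputable section

/-- `p` is within divergence `(3/4) log(1+2/√3)` of a mixture of two product distributions. -/
def CG (p : (Fin 3 → Bool) → ℝ) : Prop :=
  ∃ (t : ℝ) (α β : Fin 3 → ℝ), 0 ≤ t ∧ t ≤ 1 ∧ (∀ i, 0 ≤ α i) ∧ (∀ i, α i ≤ 1) ∧
    (∀ i, 0 ≤ β i) ∧ (∀ i, β i ≤ 1) ∧ (∀ x, 0 < p x → 0 < mixD t α β x) ∧
    KL p (mixD t α β) ≤ 3 / 4 * LL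

/-- flipping bits -/
def flipx (f x : Fin 3 → Bool) : Fin 3 → Bool := fun i => xor (x i) (f i)

lemma flipx_flipx (f x : Fin 3 → Bool) : flipx f (flipx f x) = x := by
  funext i; unfold flipx; cases x i <;> cases f i <;> rfl

/-- flipping bits is a bijection -/
def flipE (f : Fin 3 → Bool) : (Fin 3 → Bool) ≃ (Fin 3 → Bool) :=
  ⟨flipx f, flipx f, flipx_flipx f, flipx_flipx f⟩

lemma prodD_flip (α : Fin 3 → ℝ) (f x : Fin 3 → Bool) :
    prodD (fun i => if f i then 1 - α i else α i) x = prodD α (flipx f x) := by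
  unfold prodD flipx
  apply Finset.prod_congr rfl
  intro i _
  rcases hx : x i <;> rcases hf : f i <;> simp [hf]

lemma CG_flip {p : (Fin 3 → Bool) → ℝ} (f : Fin 3 → Bool)
    (h : CG (fun x => p (flipx f x))) : CG p := by
  obtain ⟨t, α, β, h1, h2, h3, h4, h5, h6, h7, h8⟩ := h
  have hm : ∀ x, mixD t (fun i => if f i then 1 - α i else α i)
      (fun i => if f i then 1 - β i else β i) x = mixD t α β (flipx f x) := by
    intro x
    unfold mixD
    rw [prodD_flip, prodD_flip]
  refine ⟨t, fun i => if f i then 1 - α i else α i, fun i => if f i then 1 - β i else β i,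
    h1, h2, ?_, ?_, ?_, ?_, ?_, ?_⟩
  · intro i
    dsimp only
    split_ifs
    · linarith [h4 i]
    · exact h3 i
  · intro i
    dsimp only
    split_ifs
    · linarith [h3 i]
    · exact h4 i
  · intro i
    dsimp only
    split_ifs
    · linarith [h6 i]
    · exact h5 i
  · intro i
    dsimp only
    split_ifs
    · linarith [h5 i]
    · exact h6 i
  · intro x hx
    rw [hm]
    apply h7
    show 0 < p (flipx f (flipx f x))
    rwa [flipx_flipx]
  · have : KL p (mixD t (fun i => if f i then 1 - α i else α i)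
      (fun i => if f i then 1 - β i else β i)) = KL (fun x => p (flipx f x)) (mixD t α β) := by
      unfold KL
      rw [← Equiv.sum_comp (flipE f)]
      apply Finset.sum_congr rfl
      intro x _
      rw [hm]
      show p (flipx f x) * log (p (flipx f x) / mixD t α β (flipx f (flipx f x))) = _
      rw [flipx_flipx]
    rw [this]
    exact h8

/-- permuting coordinates is a bijection -/
def permE (σ : Equiv.Perm (Fin 3)) : (Fin 3 → Bool) ≃ (Fin 3 → Bool) where
  toFun x := x ∘ σ
  invFun x := x ∘ σ.symm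
  left_inv x := by funext i; simp
  right_inv x := by funext i; simp

lemma CG_perm {p : (Fin 3 → Bool) → ℝ} (σ : Equiv.Perm (Fin 3))
    (h : CG (fun x => p (x ∘ σ))) : CG p := by
  obtain ⟨t, α, β, h1, h2, h3, h4, h5, h6, h7, h8⟩ := h
  have hq : ∀ (γ : Fin 3 → ℝ) (x : Fin 3 → Bool), prodD (γ ∘ σ) (x ∘ σ) = prodD γ x := by
    intro γ x
    unfold prodD
    exact Equiv.prod_comp σ (fun i => if x i then γ i else 1 - γ i)
  have hm : ∀ x, mixD t (α ∘ σ) (β ∘ σ) (x ∘ σ) = mixD t α β x := by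
    intro x
    unfold mixD
    rw [hq, hq]
  refine ⟨t, α ∘ σ, β ∘ σ, h1, h2, fun i => h3 _, fun i => h4 _, fun i => h5 _, fun i => h6 _,
    ?_, ?_⟩
  · intro x hx
    have h9 : 0 < p ((x ∘ σ.symm) ∘ σ) → 0 < mixD t α β (x ∘ σ.symm) := h7 (x ∘ σ.symm)
    have e : (x ∘ σ.symm) ∘ σ = x := by funext i; simp
    rw [e] at h9
    have := h9 hx
    rw [← hm, e] at this
    exact this
  · have : KL p (mixD t (α ∘ σ) (β ∘ σ)) = KL (fun x => p (x ∘ σ)) (mixD t α β) := by
      unfold KL
      rw [← Equiv.sum_comp (permE σ)]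
      apply Finset.sum_congr rfl
      intro x _
      show p (x ∘ σ) * log (p (x ∘ σ) / mixD t (α ∘ σ) (β ∘ σ) (x ∘ σ)) = _
      rw [hm]
    rw [this]
    exact h8

lemma mix000 (t : ℝ) (α β : Fin 3 → ℝ) : mixD t α β ![false, false, false] =
    (1 - t) * ((1 - α 0) * (1 - α 1) * (1 - α 2)) + t * ((1 - β 0) * (1 - β 1) * (1 - β 2)) := by
  simp [mixD, prodD, Fin.prod_univ_three]

lemma mix100 (t : ℝ) (α β : Fin 3 → ℝ) : mixD t α β ![true, false, false] =
    (1 - t) * (α 0 * (1 - α 1) * (1 - α 2)) + t * (β 0 * (1 - β 1) * (1 - β 2)) := by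
  simp [mixD, prodD, Fin.prod_univ_three]

lemma mix010 (t : ℝ) (α β : Fin 3 → ℝ) : mixD t α β ![false, true, false] =
    (1 - t) * ((1 - α 0) * α 1 * (1 - α 2)) + t * ((1 - β 0) * β 1 * (1 - β 2)) := by
  simp [mixD, prodD, Fin.prod_univ_three]

lemma mix001 (t : ℝ) (α β : Fin 3 → ℝ) : mixD t α β ![false, false, true] =
    (1 - t) * ((1 - α 0) * (1 - α 1) * α 2) + t * ((1 - β 0) * (1 - β 1) * β 2) := by
  simp [mixD, prodD, Fin.prod_univ_three]

lemma mix011 (t : ℝ) (α β : Fin 3 → ℝ) : mixD t α β ![false, true, true] =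
    (1 - t) * ((1 - α 0) * α 1 * α 2) + t * ((1 - β 0) * β 1 * β 2) := by
  simp [mixD, prodD, Fin.prod_univ_three]

lemma mix101 (t : ℝ) (α β : Fin 3 → ℝ) : mixD t α β ![true, false, true] =
    (1 - t) * (α 0 * (1 - α 1) * α 2) + t * (β 0 * (1 - β 1) * β 2) := by
  simp [mixD, prodD, Fin.prod_univ_three]

lemma mix110 (t : ℝ) (α β : Fin 3 → ℝ) : mixD t α β ![true, true, false] =
    (1 - t) * (α 0 * α 1 * (1 - α 2)) + t * (β 0 * β 1 * (1 - β 2)) := by
  simp [mixD, prodD, Fin.prod_univ_three]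

lemma mix111 (t : ℝ) (α β : Fin 3 → ℝ) : mixD t α β ![true, true, true] =
    (1 - t) * (α 0 * α 1 * α 2) + t * (β 0 * β 1 * β 2) := by
  simp [mixD, prodD, Fin.prod_univ_three]

lemma cell_pos {p T r s : ℝ} (hp : 0 < p) (hpT : p ≤ T) (hr : p ≤ r) (hs : p ≤ s) :
    0 < T * (r / T * (s / T)) := by
  have : 0 < T := by linarith
  have : 0 < r := by linarith
  have : 0 < s := by linarith
  positivity

lemma cell_eq {p T r s : ℝ} (hp : 0 ≤ p) (hpT : p ≤ T) :
    p * log (p / (T * (r / T * (s / T)))) = p * log (p * T / (r * s)) := by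
  rcases hp.eq_or_lt with h0 | h0
  · rw [← h0]; simp
  · have hT : T ≠ 0 := by linarith
    congr 2
    rcases eq_or_ne r 0 with h | h
    · simp [h]
    rcases eq_or_ne s 0 with h' | h'
    · simp [h']
    field_simp

/-- tree approximation centred at the coordinate `0` -/
lemma tree0 {p : (Fin 3 → Bool) → ℝ} (hp : p ∈ stdSimplex ℝ (Fin 3 → Bool))
    (h : JJ (p ![false, false, false]) (p ![false, true, true]) (p ![false, true, false])
        (p ![false, false, true])
      + JJ (p ![true, false, true]) (p ![true, true, false]) (p ![true, false, false])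
        (p ![true, true, true]) ≤ 3 / 4 * LL) : CG p := by
  obtain ⟨hp0, hp1⟩ := hp
  rw [sum8] at hp1
  have q0 := hp0 ![false, false, false]
  have q1 := hp0 ![true, false, false]
  have q2 := hp0 ![false, true, false]
  have q3 := hp0 ![false, false, true]
  have q4 := hp0 ![false, true, true]
  have q5 := hp0 ![true, false, true]
  have q6 := hp0 ![true, true, false]
  have q7 := hp0 ![true, true, true]
  set a := p ![false, false, false] with ha
  set d0 := p ![true, false, false] with hd0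
  set d1 := p ![false, true, false] with hd1
  set d2 := p ![false, false, true] with hd2
  set b0 := p ![false, true, true] with hb0
  set b1 := p ![true, false, true] with hb1
  set b2 := p ![true, true, false] with hb2
  set c := p ![true, true, true] with hc
  set T0 := a + b0 + d1 + d2 with hT0
  set T1 := b1 + b2 + d0 + c with hT1
  have hT0n : 0 ≤ T0 := by positivity
  have hT1n : 0 ≤ T1 := by positivity
  have h1T : 1 - T1 = T0 := by rw [hT1, hT0]; linarith
  -- a uniform description of the four marginals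
  have hA1 : T0 * (1 - (d1 + b0) / T0) = a + d2 := by
    rcases hT0n.eq_or_lt with h0 | h0
    · rw [← h0]; simp; linarith
    · field_simp; rw [hT0]; ring
  have key : ∀ {u w T : ℝ}, 0 < T → u + w = T → 1 - u / T = w / T := by
    intro u w T hT h
    field_simp; linarith
  -- cells
  have cellA : ∀ {x r s u v : ℝ}, 0 ≤ x → x ≤ T0 → (0 < T0 → u = r / T0) → (0 < T0 → v = s / T0) →
      x * log (x / (T0 * (u * v))) = x * log (x * T0 / (r * s)) := by
    intro x r s u v hx hxT hu hv
    rcases hT0n.eq_or_lt with h0 | h0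
    · have : x = 0 := by linarith
      rw [this]; simp
    · rw [hu h0, hv h0]; exact cell_eq hx hxT
  have cellB : ∀ {x r s u v : ℝ}, 0 ≤ x → x ≤ T1 → (0 < T1 → u = r / T1) → (0 < T1 → v = s / T1) →
      x * log (x / (T1 * (u * v))) = x * log (x * T1 / (r * s)) := by
    intro x r s u v hx hxT hu hv
    rcases hT1n.eq_or_lt with h0 | h0
    · have : x = 0 := by linarith
      rw [this]; simp
    · rw [hu h0, hv h0]; exact cell_eq hx hxT
  have posA : ∀ {x r s u v : ℝ}, 0 < x → x ≤ T0 → x ≤ r → x ≤ s → (0 < T0 → u = r / T0) →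
      (0 < T0 → v = s / T0) → 0 < T0 * (u * v) := by
    intro x r s u v hx hxT hr hs hu hv
    have h0 : 0 < T0 := by linarith
    rw [hu h0, hv h0]; exact cell_pos hx hxT hr hs
  have posB : ∀ {x r s u v : ℝ}, 0 < x → x ≤ T1 → x ≤ r → x ≤ s → (0 < T1 → u = r / T1) →
      (0 < T1 → v = s / T1) → 0 < T1 * (u * v) := by
    intro x r s u v hx hxT hr hs hu hv
    have h0 : 0 < T1 := by linarith
    rw [hu h0, hv h0]; exact cell_pos hx hxT hr hs
  have m0 : mixD T1 ![0, (d1 + b0) / T0, (d2 + b0) / T0] ![1, (b2 + c) / T1, (b1 + c) / T1]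
      ![false, false, false] = T0 * ((1 - (d1 + b0) / T0) * (1 - (d2 + b0) / T0)) := by
    rw [mix000, h1T]; simp
  have m1 : mixD T1 ![0, (d1 + b0) / T0, (d2 + b0) / T0] ![1, (b2 + c) / T1, (b1 + c) / T1]
      ![true, false, false] = T1 * ((1 - (b2 + c) / T1) * (1 - (b1 + c) / T1)) := by
    rw [mix100, h1T]; simp
  have m2 : mixD T1 ![0, (d1 + b0) / T0, (d2 + b0) / T0] ![1, (b2 + c) / T1, (b1 + c) / T1]
      ![false, true, false] = T0 * (((d1 + b0) / T0) * (1 - (d2 + b0) / T0)) := by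
    rw [mix010, h1T]; simp
  have m3 : mixD T1 ![0, (d1 + b0) / T0, (d2 + b0) / T0] ![1, (b2 + c) / T1, (b1 + c) / T1]
      ![false, false, true] = T0 * ((1 - (d1 + b0) / T0) * ((d2 + b0) / T0)) := by
    rw [mix001, h1T]; simp
  have m4 : mixD T1 ![0, (d1 + b0) / T0, (d2 + b0) / T0] ![1, (b2 + c) / T1, (b1 + c) / T1]
      ![false, true, true] = T0 * (((d1 + b0) / T0) * ((d2 + b0) / T0)) := by
    rw [mix011, h1T]; simp
  have m5 : mixD T1 ![0, (d1 + b0) / T0, (d2 + b0) / T0] ![1, (b2 + c) / T1, (b1 + c) / T1]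
      ![true, false, true] = T1 * ((1 - (b2 + c) / T1) * ((b1 + c) / T1)) := by
    rw [mix101, h1T]; simp
  have m6 : mixD T1 ![0, (d1 + b0) / T0, (d2 + b0) / T0] ![1, (b2 + c) / T1, (b1 + c) / T1]
      ![true, true, false] = T1 * (((b2 + c) / T1) * (1 - (b1 + c) / T1)) := by
    rw [mix110, h1T]; simp
  have m7 : mixD T1 ![0, (d1 + b0) / T0, (d2 + b0) / T0] ![1, (b2 + c) / T1, (b1 + c) / T1]
      ![true, true, true] = T1 * (((b2 + c) / T1) * ((b1 + c) / T1)) := by
    rw [mix111, h1T]; simp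
  have u1 : 0 < T0 → 1 - (d1 + b0) / T0 = (a + d2) / T0 :=
    fun h => key h (by rw [hT0]; ring)
  have u2 : 0 < T0 → 1 - (d2 + b0) / T0 = (a + d1) / T0 :=
    fun h => key h (by rw [hT0]; ring)
  have u3 : 0 < T1 → 1 - (b2 + c) / T1 = (b1 + d0) / T1 :=
    fun h => key h (by rw [hT1]; ring)
  have u4 : 0 < T1 → 1 - (b1 + c) / T1 = (b2 + d0) / T1 :=
    fun h => key h (by rw [hT1]; ring)
  have bd : ∀ {u T : ℝ}, 0 ≤ u → u ≤ T → 0 ≤ u / T ∧ u / T ≤ 1 := by
    intro u T h0 h1
    exact ⟨div_nonneg h0 (by linarith), div_le_one_of_le₀ h1 (by linarith)⟩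
  have b1' := bd (add_nonneg q2 q4) (show d1 + b0 ≤ T0 by linarith)
  have b2' := bd (add_nonneg q3 q4) (show d2 + b0 ≤ T0 by linarith)
  have b3' := bd (add_nonneg q6 q7) (show b2 + c ≤ T1 by linarith)
  have b4' := bd (add_nonneg q5 q7) (show b1 + c ≤ T1 by linarith)
  refine ⟨T1, ![0, (d1 + b0) / T0, (d2 + b0) / T0], ![1, (b2 + c) / T1, (b1 + c) / T1],
    hT1n, by linarith, ?_, ?_, ?_, ?_, ?_, ?_⟩
  · intro i; fin_cases i
    · simp
    · exact b1'.1
    · exact b2'.1
  · intro i; fin_cases i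
    · simp
    · exact b1'.2
    · exact b2'.2
  · intro i; fin_cases i
    · simp
    · exact b3'.1
    · exact b4'.1
  · intro i; fin_cases i
    · simp
    · exact b3'.2
    · exact b4'.2
  · apply forall8
    · intro hx; rw [m0]
      exact posA hx (by linarith) (show a ≤ a + d2 by linarith) (show a ≤ a + d1 by linarith) u1 u2
    · intro hx; rw [m1]
      exact posB hx (by linarith) (show d0 ≤ b1 + d0 by linarith)
        (show d0 ≤ b2 + d0 by linarith) u3 u4
    · intro hx; rw [m2]
      exact posA hx (by linarith) (show d1 ≤ d1 + b0 by linarith) (show d1 ≤ a + d1 by linarith)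
        (fun _ => rfl) u2
    · intro hx; rw [m3]
      exact posA hx (by linarith) (show d2 ≤ a + d2 by linarith) (show d2 ≤ d2 + b0 by linarith)
        u1 (fun _ => rfl)
    · intro hx; rw [m4]
      exact posA hx (by linarith) (show b0 ≤ d1 + b0 by linarith) (show b0 ≤ d2 + b0 by linarith)
        (fun _ => rfl) (fun _ => rfl)
    · intro hx; rw [m5]
      exact posB hx (by linarith) (show b1 ≤ b1 + d0 by linarith) (show b1 ≤ b1 + c by linarith)
        u3 (fun _ => rfl)
    · intro hx; rw [m6]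
      exact posB hx (by linarith) (show b2 ≤ b2 + c by linarith) (show b2 ≤ b2 + d0 by linarith)
        (fun _ => rfl) u4
    · intro hx; rw [m7]
      exact posB hx (by linarith) (show c ≤ b2 + c by linarith) (show c ≤ b1 + c by linarith)
        (fun _ => rfl) (fun _ => rfl)
  · unfold KL
    rw [sum8, m0, m1, m2, m3, m4, m5, m6, m7]
    rw [cellA q0 (by linarith) u1 u2, cellB q1 (by linarith) u3 u4,
      cellA q2 (by linarith) (fun _ => rfl) u2, cellA q3 (by linarith) u1 (fun _ => rfl),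
      cellA q4 (by linarith) (fun _ => rfl) (fun _ => rfl), cellB q5 (by linarith) u3 (fun _ => rfl),
      cellB q6 (by linarith) (fun _ => rfl) u4, cellB q7 (by linarith) (fun _ => rfl) (fun _ => rfl)]
    refine le_trans (le_of_eq ?_) h
    unfold JJ
    rw [← hT0, ← hT1]
    rw [show (a + d2) * (a + d1) = (a + d1) * (a + d2) by ring,
      show (d1 + b0) * (d2 + b0) = (b0 + d2) * (b0 + d1) by ring,
      show (d1 + b0) * (a + d1) = (a + d1) * (b0 + d1) by ring,
      show (a + d2) * (d2 + b0) = (b0 + d2) * (a + d2) by ring,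
      show (b1 + d0) * (b1 + c) = (b1 + d0) * (b1 + c) by ring,
      show (b2 + c) * (b2 + d0) = (b2 + c) * (b2 + d0) by ring,
      show (b2 + c) * (b1 + c) = (b2 + c) * (b1 + c) by ring]
    ring

end

end Pool.Agent.R841.Rbm
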