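import Pool.Agent.R841.RbmE

/-!
# The upper bound for the maximum divergence
-/

namespace Pool.Agent.R841.Rbm

open Real

noncomputable section

/-- point mass at `000` plus a product distribution -/
lemma star0 {p : (Fin 3 → Bool) → ℝ} (hp : p ∈ stdSimplex ℝ (Fin 3 → Bool))
    {a b0 b1 b2 c d0 d1 d2 C U : ℝ}
    (ha : p ![false, false, false] = a) (hd0 : p ![true, false, false] = d0)
    (hd1 : p ![false, true, false] = d1) (hd2 : p ![false, false, true] = d2)
    (hb0 : p ![false, true, true] = b0) (hb1 : p ![true, false, true] = b1)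
    (hb2 : p ![true, true, false] = b2) (hc : p ![true, true, true] = c)
    (pb0 : 0 < b0) (pb1 : 0 < b1) (pb2 : 0 < b2) (ha8 : 1 / 8 ≤ a)
    (hCp : 0 < C) (hC : C ^ 2 = b0 * b1 + b0 * b2 + b1 * b2) (hU : U = b0 + b1 + b2 + 2 * C)
    (h : (1 - a) * log (U / (1 - a)) + c * log (c / C) + d0 * log (d0 * C / (b1 * b2))
      + d1 * log (d1 * C / (b0 * b2)) + d2 * log (d2 * C / (b0 * b1)) ≤ 3 / 4 * LL) : CG p := by
  obtain ⟨hp0, hp1⟩ := hp
  rw [sum8, ha, hd0, hd1, hd2, hb0, hb1, hb2, hc] at hp1
  have q1 : 0 ≤ d0 := hd0 ▸ hp0 _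
  have q2 : 0 ≤ d1 := hd1 ▸ hp0 _
  have q3 : 0 ≤ d2 := hd2 ▸ hp0 _
  have q7 : 0 ≤ c := hc ▸ hp0 _
  have hA : 0 < 1 - a := by linarith
  have hUp : 0 < U := by rw [hU]; positivity
  set N := (C + b0) * (C + b1) * (C + b2) with hN
  have hNp : 0 < N := by positivity
  have hN2 : N = C ^ 2 * U + b0 * b1 * b2 := by
    rw [hN, hU]
    linear_combination -C * hC
  set t := (1 - a) * N / (C ^ 2 * U) with ht
  have ht0 : 0 ≤ t := by positivity
  have hCU : 0 < C ^ 2 * U := by positivity
  have ht1 : t ≤ 1 := by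
    rw [ht, div_le_one hCU, hN2]
    have := K0_bd ha8 (by linarith : a ≤ 1) pb0 pb1 pb2 hC hCp hU
    nlinarith
  have hα : ∀ i : Fin 3, (![0, 0, 0] : Fin 3 → ℝ) i = 0 := by intro i; fin_cases i <;> rfl
  have s0 : 1 - C / (C + b0) = b0 / (C + b0) := by field_simp; ring
  have s1 : 1 - C / (C + b1) = b1 / (C + b1) := by field_simp; ring
  have s2 : 1 - C / (C + b2) = b2 / (C + b2) := by field_simp; ring
  have m0 : mixD t ![0, 0, 0] ![C / (C + b0), C / (C + b1), C / (C + b2)]
      ![false, false, false] = a := by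
    rw [mix000]
    simp only [Matrix.cons_val_zero, Matrix.cons_val_one, Matrix.cons_val_two,
      Matrix.head_cons, Matrix.tail_cons]
    rw [s0, s1, s2]
    have e1 : t * (b0 / (C + b0) * (b1 / (C + b1)) * (b2 / (C + b2)))
        = (1 - a) * (b0 * b1 * b2) / (C ^ 2 * U) := by
      rw [ht, hN]; field_simp
    rw [e1, ht, hN2]
    field_simp
    ring
  have m1 : mixD t ![0, 0, 0] ![C / (C + b0), C / (C + b1), C / (C + b2)]
      ![true, false, false] = (1 - a) * (b1 * b2) / (C * U) := by
    rw [mix100]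
    simp only [Matrix.cons_val_zero, Matrix.cons_val_one, Matrix.cons_val_two,
      Matrix.head_cons, Matrix.tail_cons]
    rw [s1, s2, ht, hN]; field_simp; ring
  have m2 : mixD t ![0, 0, 0] ![C / (C + b0), C / (C + b1), C / (C + b2)]
      ![false, true, false] = (1 - a) * (b0 * b2) / (C * U) := by
    rw [mix010]
    simp only [Matrix.cons_val_zero, Matrix.cons_val_one, Matrix.cons_val_two,
      Matrix.head_cons, Matrix.tail_cons]
    rw [s0, s2, ht, hN]; field_simp; ring
  have m3 : mixD t ![0, 0, 0] ![C / (C + b0), C / (C + b1), C / (C + b2)]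
      ![false, false, true] = (1 - a) * (b0 * b1) / (C * U) := by
    rw [mix001]
    simp only [Matrix.cons_val_zero, Matrix.cons_val_one, Matrix.cons_val_two,
      Matrix.head_cons, Matrix.tail_cons]
    rw [s0, s1, ht, hN]; field_simp; ring
  have m4 : mixD t ![0, 0, 0] ![C / (C + b0), C / (C + b1), C / (C + b2)]
      ![false, true, true] = (1 - a) * b0 / U := by
    rw [mix011]
    simp only [Matrix.cons_val_zero, Matrix.cons_val_one, Matrix.cons_val_two,
      Matrix.head_cons, Matrix.tail_cons]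
    rw [s0, ht, hN]; field_simp; ring
  have m5 : mixD t ![0, 0, 0] ![C / (C + b0), C / (C + b1), C / (C + b2)]
      ![true, false, true] = (1 - a) * b1 / U := by
    rw [mix101]
    simp only [Matrix.cons_val_zero, Matrix.cons_val_one, Matrix.cons_val_two,
      Matrix.head_cons, Matrix.tail_cons]
    rw [s1, ht, hN]; field_simp; ring
  have m6 : mixD t ![0, 0, 0] ![C / (C + b0), C / (C + b1), C / (C + b2)]
      ![true, true, false] = (1 - a) * b2 / U := by
    rw [mix110]
    simp only [Matrix.cons_val_zero, Matrix.cons_val_one, Matrix.cons_val_two,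
      Matrix.head_cons, Matrix.tail_cons]
    rw [s2, ht, hN]; field_simp; ring
  have m7 : mixD t ![0, 0, 0] ![C / (C + b0), C / (C + b1), C / (C + b2)]
      ![true, true, true] = (1 - a) * C / U := by
    rw [mix111]
    simp only [Matrix.cons_val_zero, Matrix.cons_val_one, Matrix.cons_val_two,
      Matrix.head_cons, Matrix.tail_cons]
    rw [ht, hN]; field_simp; ring
  refine ⟨t, ![0, 0, 0], ![C / (C + b0), C / (C + b1), C / (C + b2)], ht0, ht1,
    fun i => (hα i).ge, fun i => by rw [hα i]; norm_num, ?_, ?_, ?_, ?_⟩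
  · intro i; fin_cases i
    · show 0 ≤ C / (C + b0); positivity
    · show 0 ≤ C / (C + b1); positivity
    · show 0 ≤ C / (C + b2); positivity
  · intro i; fin_cases i
    · show C / (C + b0) ≤ 1; rw [div_le_one (by positivity)]; linarith
    · show C / (C + b1) ≤ 1; rw [div_le_one (by positivity)]; linarith
    · show C / (C + b2) ≤ 1; rw [div_le_one (by positivity)]; linarith
  · apply forall8
    · intro _; rw [m0]; linarith
    · intro _; rw [m1]; positivity
    · intro _; rw [m2]; positivity
    · intro _; rw [m3]; positivity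
    · intro _; rw [m4]; positivity
    · intro _; rw [m5]; positivity
    · intro _; rw [m6]; positivity
    · intro _; rw [m7]; positivity
  · unfold KL
    rw [sum8, m0, m1, m2, m3, m4, m5, m6, m7, ha, hd0, hd1, hd2, hb0, hb1, hb2, hc]
    have hUA : 0 < U / (1 - a) := by positivity
    have e0 : a * log (a / a) = 0 := by
      rw [div_self (by linarith : a ≠ 0)]; simp
    have ed : ∀ {d w : ℝ}, 0 ≤ d → 0 < w →
        d * log (d / ((1 - a) * w / (C * U))) = d * log (U / (1 - a)) + d * log (d * C / w) := by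
      intro d w hd hw
      rcases hd.eq_or_lt with h0 | h0
      · rw [← h0]; simp
      · rw [← mul_add, ← log_mul hUA.ne' (by positivity)]
        congr 2
        field_simp
    have eb : ∀ {b : ℝ}, 0 < b → b * log (b / ((1 - a) * b / U)) = b * log (U / (1 - a)) := by
      intro b hb
      congr 2
      field_simp
    have ec : c * log (c / ((1 - a) * C / U)) = c * log (U / (1 - a)) + c * log (c / C) := by
      rcases q7.eq_or_lt with h0 | h0
      · rw [← h0]; simp
      · rw [← mul_add, ← log_mul hUA.ne' (by positivity)]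
        congr 2
        field_simp
    rw [e0, ed q1 (mul_pos pb1 pb2), ed q2 (mul_pos pb0 pb2), ed q3 (mul_pos pb0 pb1),
      eb pb0, eb pb1, eb pb2, ec]
    have : 1 - a = b0 + b1 + b2 + c + d0 + d1 + d2 := by linarith
    calc _ = (b0 + b1 + b2 + c + d0 + d1 + d2) * log (U / (1 - a)) + c * log (c / C)
          + d0 * log (d0 * C / (b1 * b2)) + d1 * log (d1 * C / (b0 * b2))
          + d2 * log (d2 * C / (b0 * b1)) := by ring
      _ ≤ _ := by rw [← this]; exact h

lemma simplex_comp {p : (Fin 3 → Bool) → ℝ} (hp : p ∈ stdSimplex ℝ (Fin 3 → Bool))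
    (e : (Fin 3 → Bool) ≃ (Fin 3 → Bool)) : (fun x => p (e x)) ∈ stdSimplex ℝ (Fin 3 → Bool) :=
  ⟨fun x => hp.1 _, by rw [Equiv.sum_comp e p]; exact hp.2⟩

/-- distributions with the largest probability at `000` -/
lemma CG_of_max0 {p : (Fin 3 → Bool) → ℝ} (hp : p ∈ stdSimplex ℝ (Fin 3 → Bool))
    (hmax : ∀ x, p x ≤ p ![false, false, false]) : CG p := by
  have hp0 := hp.1
  have hp1 := hp.2
  rw [sum8] at hp1
  have q0 := hp0 ![false, false, false]
  have q1 := hp0 ![true, false, false]
  have q2 := hp0 ![false, true, false]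
  have q3 := hp0 ![false, false, true]
  have q4 := hp0 ![false, true, true]
  have q5 := hp0 ![true, false, true]
  have q6 := hp0 ![true, true, false]
  have q7 := hp0 ![true, true, true]
  have r1 := hmax ![true, false, false]
  have r2 := hmax ![false, true, false]
  have r3 := hmax ![false, false, true]
  have r4 := hmax ![false, true, true]
  have r5 := hmax ![true, false, true]
  have r6 := hmax ![true, true, false]
  have r7 := hmax ![true, true, true]
  rcases core q0 q4 q5 q6 q7 q1 q2 q3 (by linarith) r4 r5 r6 r7 r1 r2 r3 with h | h | h | h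
  · exact tree0 hp h
  · -- centre 1
    apply CG_perm (Equiv.swap 0 1)
    apply tree0 (p := fun x => p (x ∘ (Equiv.swap (0 : Fin 3) 1)))
      (simplex_comp hp (permE (Equiv.swap 0 1)))
    have e : ∀ x y z, (![x, y, z] : Fin 3 → Bool) ∘ (Equiv.swap (0 : Fin 3) 1) = ![y, x, z] := by
      decide
    simp only [e]
    exact h
  · apply CG_perm (Equiv.swap 0 2)
    apply tree0 (p := fun x => p (x ∘ (Equiv.swap (0 : Fin 3) 2)))
      (simplex_comp hp (permE (Equiv.swap 0 2)))
    have e : ∀ x y z, (![x, y, z] : Fin 3 → Bool) ∘ (Equiv.swap (0 : Fin 3) 2) = ![z, y, x] := by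
      decide
    simp only [e]
    rw [JJ_swapy (p ![false, false, false]), JJ_swapx (p ![true, false, true])]
    exact h
  · obtain ⟨pb0, pb1, pb2, hc, h0, h1, h2⟩ := h
    have hE : 0 < p ![false, true, true] * p ![true, false, true]
        + p ![false, true, true] * p ![true, true, false]
        + p ![true, false, true] * p ![true, true, false] := by positivity
    refine star0 hp rfl rfl rfl rfl rfl rfl rfl rfl pb0 pb1 pb2 (by linarith)
      (sqrt_pos.2 hE) (sq_sqrt hE.le) rfl ?_
    exact case4 q0 pb0 pb1 pb2 q7 q1 q2 q3 (by linarith) r4 r5 r6 rfl rfl hc h0 h1 h2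

/-- Every distribution on three bits is within divergence `(3/4) log (1+2/√3)` of a mixture of
two product distributions. -/
theorem CG_all {p : (Fin 3 → Bool) → ℝ} (hp : p ∈ stdSimplex ℝ (Fin 3 → Bool)) : CG p := by
  obtain ⟨x0, hx0⟩ := Finite.exists_max p
  apply CG_flip x0
  apply CG_of_max0 (simplex_comp hp (flipE x0))
  intro x
  have : flipx x0 ![false, false, false] = x0 := by
    funext i
    unfold flipx
    fin_cases i <;> simp
  show p (flipx x0 x) ≤ p (flipx x0 ![false, false, false])
  rw [this]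
  exact hx0 _

theorem upper {p : (Fin 3 → Bool) → ℝ} (hp : p ∈ stdSimplex ℝ (Fin 3 → Bool)) {η : ℝ}
    (hη : 0 < η) : ∃ q ∈ RBM 3 1, KL p q ≤ 3 / 4 * LL + η := by
  obtain ⟨t, α, β, h1, h2, h3, h4, h5, h6, h7, h8⟩ := CG_all hp
  obtain ⟨q, hq, h⟩ := approx hp h1 h2 h3 h4 h5 h6 h7 hη
  exact ⟨q, hq, by linarith⟩

end

end Pool.Agent.R841.Rbm
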