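import Pool.Agent.R841.RbmF

/-!
# The parity distribution is at divergence at least `(3/4) log (1+2/√3)` from `RBM_{3,1}`
-/

namespace Pool.Agent.R841.Rbm

open Real

noncomputable section

lemma amgm3 {u v w : ℝ} (hu : 0 ≤ u) (hv : 0 ≤ v) (hw : 0 ≤ w) :
    3 * (u * v * w) ≤ u ^ 3 + v ^ 3 + w ^ 3 := by
  nlinarith [mul_nonneg (add_nonneg (add_nonneg hu hv) hw)
    (add_nonneg (add_nonneg (sq_nonneg (u - v)) (sq_nonneg (v - w))) (sq_nonneg (u - w)))]

/-- The optimisation problem for the parity distribution. -/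
lemma parity_real {a b0 b1 b2 c d0 d1 d2 : ℝ} (ha : 0 < a) (hb0 : 0 < b0) (hb1 : 0 < b1)
    (hb2 : 0 < b2) (hc : 0 < c) (hd0 : 0 < d0) (hd1 : 0 < d1) (hd2 : 0 < d2)
    (hs : a + b0 + b1 + b2 + c + d0 + d1 + d2 = 1)
    (e0 : b1 * b2 ≤ c * d0) (e1 : b0 * b2 ≤ c * d1) (e2 : b0 * b1 ≤ c * d2) :
    log (4 * a) + log (4 * b0) + log (4 * b1) + log (4 * b2) ≤ -(3 * LL) := by
  obtain ⟨u, hu, hu3⟩ : ∃ u : ℝ, 0 < u ∧ u ^ 3 = b0 :=
    ⟨exp (log b0 / 3), exp_pos _, by rw [← exp_nat_mul]; push_cast; rw [mul_div_cancel₀ _ (by norm_num), exp_log hb0]⟩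
  obtain ⟨v, hv, hv3⟩ : ∃ u : ℝ, 0 < u ∧ u ^ 3 = b1 :=
    ⟨exp (log b1 / 3), exp_pos _, by rw [← exp_nat_mul]; push_cast; rw [mul_div_cancel₀ _ (by norm_num), exp_log hb1]⟩
  obtain ⟨w, hw, hw3⟩ : ∃ u : ℝ, 0 < u ∧ u ^ 3 = b2 :=
    ⟨exp (log b2 / 3), exp_pos _, by rw [← exp_nat_mul]; push_cast; rw [mul_div_cancel₀ _ (by norm_num), exp_log hb2]⟩
  set β := u * v * w with hβ
  have hβp : 0 < β := by positivity
  have h1 : 3 * β ≤ b0 + b1 + b2 := by
    rw [← hu3, ← hv3, ← hw3]; exact amgm3 hu.le hv.le hw.le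
  have h2 : 3 * β ^ 2 ≤ b0 * b1 + b0 * b2 + b1 * b2 := by
    have := amgm3 (mul_pos hu hv).le (mul_pos hu hw).le (mul_pos hv hw).le
    rw [← hu3, ← hv3, ← hw3]
    nlinarith
  have h3 : b0 * b1 + b0 * b2 + b1 * b2 ≤ c * (d0 + d1 + d2) := by nlinarith
  have h4 : 2 * √3 * β ≤ c + (d0 + d1 + d2) := by
    have h5 : (2 * √3 * β) ^ 2 ≤ (c + (d0 + d1 + d2)) ^ 2 := by
      have : (2 * √3 * β) ^ 2 = 12 * β ^ 2 := by
        have := sqrt3_sq
        calc (2 * √3 * β) ^ 2 = 4 * (√3 * √3) * β ^ 2 := by ring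
          _ = _ := by rw [this]; ring
      rw [this]
      nlinarith [sq_nonneg (c - (d0 + d1 + d2))]
    exact (pow_le_pow_iff_left₀ (by positivity) (by positivity) two_ne_zero).1 h5
  have h6 : a + (3 + 2 * √3) * β ≤ 1 := by nlinarith
  -- the tangent line estimate
  have hB : 0 < 2 * √3 - 3 := by have := sqrt3_lo; linarith
  have k1 : log (4 * a) ≤ 4 * a - 1 := log_le_sub_one_of_pos (by positivity)
  have k2 : log (4 * b0) + log (4 * b1) + log (4 * b2) = 3 * log (4 * β) := by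
    rw [← hu3, ← hv3, ← hw3, hβ, log_mul (by norm_num) (by positivity),
      log_mul (by norm_num) (by positivity), log_mul (by norm_num) (by positivity),
      log_mul (by norm_num) (by positivity), log_mul (by positivity) (by positivity),
      log_mul (by positivity) (by positivity), log_pow, log_pow, log_pow]
    push_cast
    ring
  have k3 : log (4 * β) = log (4 * β / (2 * √3 - 3)) - LL := by
    rw [log_div (by positivity) hB.ne', LL_eq]; ring
  have k4 : log (4 * β / (2 * √3 - 3)) ≤ 4 * β / (2 * √3 - 3) - 1 :=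
    log_le_sub_one_of_pos (by positivity)
  have k5 : 3 * (4 * β / (2 * √3 - 3)) = 4 * ((3 + 2 * √3) * β) := by
    have := sqrt3_sq
    field_simp
    nlinarith
  rw [show log (4 * a) + log (4 * b0) + log (4 * b1) + log (4 * b2)
    = log (4 * a) + (log (4 * b0) + log (4 * b1) + log (4 * b2)) by ring, k2, k3]
  linarith

/-- The uniform distribution on the strings of even parity. -/
def par (x : Fin 3 → Bool) : ℝ := if xor (x 0) (xor (x 1) (x 2)) then 0 else 1 / 4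

lemma par_mem : par ∈ stdSimplex ℝ (Fin 3 → Bool) := by
  constructor
  · intro x
    unfold par
    split_ifs <;> norm_num
  · rw [sum8]
    simp [par]
    norm_num

lemma KL_par {q : (Fin 3 → Bool) → ℝ} (hq : ∀ x, 0 < q x) :
    KL par q = -(log (4 * q ![false, false, false]) + log (4 * q ![false, true, true])
      + log (4 * q ![true, false, true]) + log (4 * q ![true, true, false])) / 4 := by
  unfold KL
  rw [sum8]
  have key : ∀ x, log (1 / 4 / q x) = -log (4 * q x) := by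
    intro x
    have := hq x
    rw [← log_inv]
    congr 1
    field_simp
  have e1 : par ![false, false, false] = 1 / 4 := by simp [par]
  have e2 : par ![true, false, false] = 0 := by simp [par]
  have e3 : par ![false, true, false] = 0 := by simp [par]
  have e4 : par ![false, false, true] = 0 := by simp [par]
  have e5 : par ![false, true, true] = 1 / 4 := by simp [par]
  have e6 : par ![true, false, true] = 1 / 4 := by simp [par]
  have e7 : par ![true, true, false] = 1 / 4 := by simp [par]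
  have e8 : par ![true, true, true] = 0 := by simp [par]
  rw [e1, e2, e3, e4, e5, e6, e7, e8, key, key, key, key]
  ring

lemma lower_real {k P0 P1 P2 Q0 Q1 Q2 Z : ℝ} (hkp : 0 < k) (p0 : 0 < P0) (p1 : 0 < P1)
    (p2 : 0 < P2) (q0 : 0 < Q0) (q1 : 0 < Q1) (q2 : 0 < Q2) (hZp : 0 < Z)
    (hZ8 : Z = (1 + k) + (P0 + k * Q0) + (P1 + k * Q1) + (P2 + k * Q2)
      + (P1 * P2 + k * (Q1 * Q2)) + (P0 * P2 + k * (Q0 * Q2)) + (P0 * P1 + k * (Q0 * Q1))
      + (P0 * P1 * P2 + k * (Q0 * Q1 * Q2))) :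
    3 / 4 * LL ≤ -(log (4 * ((1 + k) / Z)) + log (4 * ((P1 * P2 + k * (Q1 * Q2)) / Z))
      + log (4 * ((P0 * P2 + k * (Q0 * Q2)) / Z))
      + log (4 * ((P0 * P1 + k * (Q0 * Q1)) / Z))) / 4 := by
  -- positivity of the eight probabilities
  have t000 : 0 < (1 + k) / Z := by positivity
  have t100 : 0 < (P0 + k * Q0) / Z := by positivity
  have t010 : 0 < (P1 + k * Q1) / Z := by positivity
  have t001 : 0 < (P2 + k * Q2) / Z := by positivity
  have t011 : 0 < (P1 * P2 + k * (Q1 * Q2)) / Z := by positivity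
  have t101 : 0 < (P0 * P2 + k * (Q0 * Q2)) / Z := by positivity
  have t110 : 0 < (P0 * P1 + k * (Q0 * Q1)) / Z := by positivity
  have t111 : 0 < (P0 * P1 * P2 + k * (Q0 * Q1 * Q2)) / Z := by positivity
  have hsum : (1 + k) / Z + (P0 + k * Q0) / Z + (P1 + k * Q1) / Z + (P2 + k * Q2) / Z
      + (P1 * P2 + k * (Q1 * Q2)) / Z + (P0 * P2 + k * (Q0 * Q2)) / Z
      + (P0 * P1 + k * (Q0 * Q1)) / Z + (P0 * P1 * P2 + k * (Q0 * Q1 * Q2)) / Z = 1 := by
    rw [← add_div, ← add_div, ← add_div, ← add_div, ← add_div, ← add_div, ← add_div, ← hZ8,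
      div_self hZp.ne']
  have cmp : ∀ {x y z w : ℝ}, x * y ≤ z * w → x / Z * (y / Z) ≤ z / Z * (w / Z) := by
    intro x y z w h
    rw [div_mul_div_comm, div_mul_div_comm]
    exact div_le_div_of_nonneg_right h (by positivity)
  -- signs
  have key : (0 ≤ (Q0 - P0) * (Q1 - P1) ∧ 0 ≤ (Q0 - P0) * (Q2 - P2) ∧ 0 ≤ (Q1 - P1) * (Q2 - P2))
      ∨ ((Q0 - P0) * (Q1 - P1) ≤ 0 ∧ (Q0 - P0) * (Q2 - P2) ≤ 0 ∧ 0 ≤ (Q1 - P1) * (Q2 - P2))
      ∨ ((Q0 - P0) * (Q1 - P1) ≤ 0 ∧ 0 ≤ (Q0 - P0) * (Q2 - P2) ∧ (Q1 - P1) * (Q2 - P2) ≤ 0)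
      ∨ (0 ≤ (Q0 - P0) * (Q1 - P1) ∧ (Q0 - P0) * (Q2 - P2) ≤ 0 ∧
        (Q1 - P1) * (Q2 - P2) ≤ 0) := by
    have pp : ∀ {A B C D : ℝ}, A ≤ B → C ≤ D → 0 ≤ (B - A) * (D - C) := fun h h' =>
      mul_nonneg (sub_nonneg.2 h) (sub_nonneg.2 h')
    have mm : ∀ {A B C D : ℝ}, B ≤ A → D ≤ C → 0 ≤ (B - A) * (D - C) := fun h h' =>
      mul_nonneg_of_nonpos_of_nonpos (sub_nonpos.2 h) (sub_nonpos.2 h')
    have pm : ∀ {A B C D : ℝ}, A ≤ B → D ≤ C → (B - A) * (D - C) ≤ 0 := fun h h' =>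
      mul_nonpos_of_nonneg_of_nonpos (sub_nonneg.2 h) (sub_nonpos.2 h')
    have mp : ∀ {A B C D : ℝ}, B ≤ A → C ≤ D → (B - A) * (D - C) ≤ 0 := fun h h' =>
      mul_nonpos_of_nonpos_of_nonneg (sub_nonpos.2 h) (sub_nonneg.2 h')
    rcases le_total P0 Q0 with h0 | h0 <;> rcases le_total P1 Q1 with h1 | h1 <;>
      rcases le_total P2 Q2 with h2 | h2
    · exact Or.inl ⟨pp h0 h1, pp h0 h2, pp h1 h2⟩
    · exact Or.inr (Or.inr (Or.inr ⟨pp h0 h1, pm h0 h2, pm h1 h2⟩))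
    · exact Or.inr (Or.inr (Or.inl ⟨pm h0 h1, pp h0 h2, mp h1 h2⟩))
    · exact Or.inr (Or.inl ⟨pm h0 h1, pm h0 h2, mm h1 h2⟩)
    · exact Or.inr (Or.inl ⟨mp h0 h1, mp h0 h2, pp h1 h2⟩)
    · exact Or.inr (Or.inr (Or.inl ⟨mp h0 h1, mm h0 h2, pm h1 h2⟩))
    · exact Or.inr (Or.inr (Or.inr ⟨mm h0 h1, mp h0 h2, mp h1 h2⟩))
    · exact Or.inl ⟨mm h0 h1, mm h0 h2, mm h1 h2⟩
  rcases key with ⟨s01, s02, s12⟩ | ⟨s01, s02, s12⟩ | ⟨s01, s02, s12⟩ | ⟨s01, s02, s12⟩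
  · -- base 000
    have e0 : (P0 * P2 + k * (Q0 * Q2)) * (P0 * P1 + k * (Q0 * Q1))
        ≤ (P0 * P1 * P2 + k * (Q0 * Q1 * Q2)) * (P0 + k * Q0) := by
      nlinarith [mul_nonneg (mul_pos hkp (mul_pos p0 q0)).le s12]
    have e1 : (P1 * P2 + k * (Q1 * Q2)) * (P0 * P1 + k * (Q0 * Q1))
        ≤ (P0 * P1 * P2 + k * (Q0 * Q1 * Q2)) * (P1 + k * Q1) := by
      nlinarith [mul_nonneg (mul_pos hkp (mul_pos p1 q1)).le s02]
    have e2 : (P1 * P2 + k * (Q1 * Q2)) * (P0 * P2 + k * (Q0 * Q2))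
        ≤ (P0 * P1 * P2 + k * (Q0 * Q1 * Q2)) * (P2 + k * Q2) := by
      nlinarith [mul_nonneg (mul_pos hkp (mul_pos p2 q2)).le s01]
    have := parity_real t000 t011 t101 t110 t111 t100 t010 t001 (by linarith)
      (cmp e0) (cmp e1) (cmp e2)
    linarith
  · -- base 011
    have e0 : (P0 * P1 + k * (Q0 * Q1)) * (P0 * P2 + k * (Q0 * Q2))
        ≤ (P0 + k * Q0) * (P0 * P1 * P2 + k * (Q0 * Q1 * Q2)) := by
      nlinarith [mul_nonneg (mul_pos hkp (mul_pos p0 q0)).le s12]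
    have e1 : (1 + k) * (P0 * P2 + k * (Q0 * Q2)) ≤ (P0 + k * Q0) * (P2 + k * Q2) := by
      nlinarith [mul_nonneg hkp.le (neg_nonneg.2 s02)]
    have e2 : (1 + k) * (P0 * P1 + k * (Q0 * Q1)) ≤ (P0 + k * Q0) * (P1 + k * Q1) := by
      nlinarith [mul_nonneg hkp.le (neg_nonneg.2 s01)]
    have := parity_real t011 t000 t110 t101 t100 t111 t001 t010 (by linarith)
      (cmp e0) (cmp e1) (cmp e2)
    linarith
  · -- base 101
    have e0 : (1 + k) * (P1 * P2 + k * (Q1 * Q2)) ≤ (P1 + k * Q1) * (P2 + k * Q2) := by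
      nlinarith [mul_nonneg hkp.le (neg_nonneg.2 s12)]
    have e1 : (P0 * P1 + k * (Q0 * Q1)) * (P1 * P2 + k * (Q1 * Q2))
        ≤ (P1 + k * Q1) * (P0 * P1 * P2 + k * (Q0 * Q1 * Q2)) := by
      nlinarith [mul_nonneg (mul_pos hkp (mul_pos p1 q1)).le s02]
    have e2 : (P0 * P1 + k * (Q0 * Q1)) * (1 + k) ≤ (P1 + k * Q1) * (P0 + k * Q0) := by
      nlinarith [mul_nonneg hkp.le (neg_nonneg.2 s01)]
    have := parity_real t101 t110 t000 t011 t010 t001 t111 t100 (by linarith)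
      (cmp e0) (cmp e1) (cmp e2)
    linarith
  · -- base 110
    have e0 : (P1 * P2 + k * (Q1 * Q2)) * (1 + k) ≤ (P2 + k * Q2) * (P1 + k * Q1) := by
      nlinarith [mul_nonneg hkp.le (neg_nonneg.2 s12)]
    have e1 : (P0 * P2 + k * (Q0 * Q2)) * (1 + k) ≤ (P2 + k * Q2) * (P0 + k * Q0) := by
      nlinarith [mul_nonneg hkp.le (neg_nonneg.2 s02)]
    have e2 : (P0 * P2 + k * (Q0 * Q2)) * (P1 * P2 + k * (Q1 * Q2))
        ≤ (P2 + k * Q2) * (P0 * P1 * P2 + k * (Q0 * Q1 * Q2)) := by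
      nlinarith [mul_nonneg (mul_pos hkp (mul_pos p2 q2)).le s01]
    have := parity_real t110 t101 t011 t000 t001 t010 t100 t111 (by linarith)
      (cmp e0) (cmp e1) (cmp e2)
    linarith

lemma lower {q : (Fin 3 → Bool) → ℝ} (hq : q ∈ RBM 3 1) : 3 / 4 * LL ≤ KL par q := by
  obtain ⟨W, b, c, rfl⟩ := hq
  have hw : ∀ v, rbmWeight W b c v =
      (∏ i, exp (b i * bv (v i))) + exp (c 0) * ∏ i, exp ((b i + W 0 i) * bv (v i)) :=
    rbmWeight_one W b c
  have w000 : rbmWeight W b c ![false, false, false] = 1 + exp (c 0) := by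
    rw [hw]; simp [Fin.prod_univ_three]
  have w100 : rbmWeight W b c ![true, false, false]
      = exp (b 0) + exp (c 0) * exp (b 0 + W 0 0) := by
    rw [hw]; simp [Fin.prod_univ_three]
  have w010 : rbmWeight W b c ![false, true, false]
      = exp (b 1) + exp (c 0) * exp (b 1 + W 0 1) := by
    rw [hw]; simp [Fin.prod_univ_three]
  have w001 : rbmWeight W b c ![false, false, true]
      = exp (b 2) + exp (c 0) * exp (b 2 + W 0 2) := by
    rw [hw]; simp [Fin.prod_univ_three]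
  have w011 : rbmWeight W b c ![false, true, true]
      = exp (b 1) * exp (b 2) + exp (c 0) * (exp (b 1 + W 0 1) * exp (b 2 + W 0 2)) := by
    rw [hw]; simp [Fin.prod_univ_three]
  have w101 : rbmWeight W b c ![true, false, true]
      = exp (b 0) * exp (b 2) + exp (c 0) * (exp (b 0 + W 0 0) * exp (b 2 + W 0 2)) := by
    rw [hw]; simp [Fin.prod_univ_three]
  have w110 : rbmWeight W b c ![true, true, false]
      = exp (b 0) * exp (b 1) + exp (c 0) * (exp (b 0 + W 0 0) * exp (b 1 + W 0 1)) := by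
    rw [hw]; simp [Fin.prod_univ_three]
  have w111 : rbmWeight W b c ![true, true, true] = exp (b 0) * exp (b 1) * exp (b 2)
      + exp (c 0) * (exp (b 0 + W 0 0) * exp (b 1 + W 0 1) * exp (b 2 + W 0 2)) := by
    rw [hw]; simp [Fin.prod_univ_three]
  have hZ8 := sum8 (rbmWeight W b c)
  rw [w000, w100, w010, w001, w011, w101, w110, w111] at hZ8
  have hwp : ∀ v, 0 < rbmWeight W b c v := by
    intro v
    rw [hw]
    have h1 : 0 < ∏ i, exp (b i * bv (v i)) := Finset.prod_pos (fun _ _ => exp_pos _)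
    have h2 : 0 < ∏ i, exp ((b i + W 0 i) * bv (v i)) := Finset.prod_pos (fun _ _ => exp_pos _)
    exact add_pos h1 (mul_pos (exp_pos _) h2)
  have hZp : 0 < ∑ u, rbmWeight W b c u := Finset.sum_pos (fun v _ => hwp v) ⟨_, Finset.mem_univ ![false, false, false]⟩
  have hq' : ∀ x, 0 < rbm W b c x := by
    intro x
    rw [rbm]
    exact div_pos (hwp x) hZp
  rw [KL_par hq', rbm, rbm, rbm, rbm, w000, w011, w101, w110]
  exact lower_real (exp_pos _) (exp_pos _) (exp_pos _) (exp_pos _) (exp_pos _) (exp_pos _)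
    (exp_pos _) hZp hZ8

end

end Pool.Agent.R841.Rbm
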