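import Pool.Agent.R841.RbmG

/-!
# The maximum divergence from `RBM_{3,1}`
-/

namespace Pool.Agent.R841.Rbm

open Real

noncomputable section

lemma rbm_pos {W : Fin 1 → Fin 3 → ℝ} {b : Fin 3 → ℝ} {c : Fin 1 → ℝ} :
    (∀ x, 0 < rbm W b c x) ∧ ∑ x, rbm W b c x = 1 := by
  have hwp : ∀ v, 0 < rbmWeight W b c v := by
    intro v
    rw [rbmWeight_one]
    have h1 : 0 < ∏ i, exp (b i * bv (v i)) := Finset.prod_pos (fun _ _ => exp_pos _)
    have h2 : 0 < ∏ i, exp ((b i + W 0 i) * bv (v i)) := Finset.prod_pos (fun _ _ => exp_pos _)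
    exact add_pos h1 (mul_pos (exp_pos _) h2)
  have hZp : 0 < ∑ u, rbmWeight W b c u :=
    Finset.sum_pos (fun v _ => hwp v) ⟨_, Finset.mem_univ ![false, false, false]⟩
  constructor
  · intro x
    rw [rbm]
    exact div_pos (hwp x) hZp
  · unfold rbm
    rw [← Finset.sum_div, div_self hZp.ne']

/-- Gibbs' inequality -/
lemma KL_nonneg {p q : (Fin 3 → Bool) → ℝ} (hp : p ∈ stdSimplex ℝ (Fin 3 → Bool))
    (hq : q ∈ RBM 3 1) : 0 ≤ KL p q := by
  obtain ⟨W, b, c, rfl⟩ := hq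
  obtain ⟨h1, h2⟩ := rbm_pos (W := W) (b := b) (c := c)
  have key : ∀ x, p x - rbm W b c x ≤ p x * log (p x / rbm W b c x) := by
    intro x
    have hx := h1 x
    rcases (hp.1 x).eq_or_lt with h0 | h0
    · rw [← h0]; simp; exact hx.le
    · have h3 := one_sub_inv_le_log_of_pos (div_pos h0 hx)
      have h4 := mul_le_mul_of_nonneg_left h3 h0.le
      have h5 : p x * (1 - (p x / rbm W b c x)⁻¹) = p x - rbm W b c x := by
        field_simp
      linarith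
  calc (0 : ℝ) = ∑ x, (p x - rbm W b c x) := by
        rw [Finset.sum_sub_distrib, hp.2, h2]; ring
    _ ≤ KL p (rbm W b c) := Finset.sum_le_sum (fun x _ => key x)

lemma div_isGLB {p : (Fin 3 → Bool) → ℝ} (hp : p ∈ stdSimplex ℝ (Fin 3 → Bool)) :
    IsGLB {r | ∃ q ∈ RBM 3 1, r = KL p q} (divFrom (RBM 3 1) p) := by
  apply isGLB_csInf
  · exact ⟨_, rbm (fun _ _ => 0) (fun _ => 0) (fun _ => 0), ⟨_, _, _, rfl⟩, rfl⟩
  · refine ⟨0, ?_⟩
    rintro r ⟨q, hq, rfl⟩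
    exact KL_nonneg hp hq

lemma div_le {p : (Fin 3 → Bool) → ℝ} (hp : p ∈ stdSimplex ℝ (Fin 3 → Bool)) :
    divFrom (RBM 3 1) p ≤ 3 / 4 * LL := by
  apply le_of_forall_pos_le_add
  intro η hη
  obtain ⟨q, hq, h⟩ := upper hp hη
  exact le_trans ((div_isGLB hp).1 ⟨q, hq, rfl⟩) h

lemma div_par : divFrom (RBM 3 1) par = 3 / 4 * LL := by
  apply le_antisymm (div_le par_mem)
  apply (div_isGLB par_mem).2
  rintro r ⟨q, hq, rfl⟩
  exact lower hq

theorem main_greatest :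
    IsGreatest {r | ∃ p ∈ stdSimplex ℝ (Fin 3 → Bool), r = divFrom (RBM 3 1) p}
      (-(3 / 4) * log (2 * √3 - 3)) := by
  have h : -(3 / 4) * log (2 * √3 - 3) = 3 / 4 * LL := by rw [LL_eq]; ring
  rw [h]
  constructor
  · exact ⟨par, par_mem, div_par.symm⟩
  · rintro r ⟨p, hp, rfl⟩
    exact div_le hp

theorem main_value : maxDiv 3 1 = -(3 / 4) * log (2 * √3 - 3) :=
  main_greatest.csSup_eq

end

end Pool.Agent.R841.Rbm
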